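import Pool.Agent.Work.MP_c4c804_co.Final

/-!
Choice of the parameters.
-/

set_option autoImplicit false

namespace Pool.Agent.Work.MP_c4c804_co

open Finset

lemma log_factorial_le (Q : ℕ) (X : ℝ) (hX : 1 ≤ X) (b : ℕ) (hQ : (Q : ℝ) = X ^ b) :
    Real.log (Q.factorial) ≤ X ^ b * (b * X) := by
  have h1 : (Q.factorial : ℝ) ≤ (Q : ℝ) ^ Q := by exact_mod_cast Nat.factorial_le_pow Q
  have h2 : Real.log X ≤ X := (Real.log_le_sub_one_of_pos (by linarith)).trans (by linarith)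
  calc Real.log (Q.factorial) ≤ Real.log ((Q : ℝ) ^ Q) :=
        Real.log_le_log (by exact_mod_cast Nat.factorial_pos Q) h1
    _ = X ^ b * (b * Real.log X) := by rw [Real.log_pow, hQ, Real.log_pow]
    _ ≤ _ := by gcongr

lemma log_theta_le (n x u s : ℕ) (hn : 16 ≤ n) (hx : 1 ≤ x) (hx2 : n ≤ x ^ (26 * u)) :
    Real.log (((x ^ u).factorial ^ (78 * u * x) *
      (16 * n * (n ^ 3 + 1) ^ 2 * (n ^ (5 * s + 20)) ^ 2) : ℕ) : ℝ) ≤
      (78 * u * u + 26 * u * (10 * s + 50)) * (x : ℝ) ^ (u + 2) := by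
  have hX : (1 : ℝ) ≤ x := by exact_mod_cast hx
  have h1 : n ^ 3 + 1 ≤ n ^ 4 := by
    have : 1 ≤ n ^ 3 := Nat.pow_pos (by omega)
    calc n ^ 3 + 1 ≤ n ^ 3 * 2 := by omega
      _ ≤ n ^ 3 * n := Nat.mul_le_mul_left _ (by omega)
      _ = n ^ 4 := by ring
  have h2 : 16 * n * (n ^ 3 + 1) ^ 2 * (n ^ (5 * s + 20)) ^ 2 ≤ x ^ (26 * u * (10 * s + 50)) := by
    calc _ ≤ n * n * (n ^ 4) ^ 2 * (n ^ (5 * s + 20)) ^ 2 := by gcongr
      _ = n ^ (10 * s + 50) := by ring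
      _ ≤ (x ^ (26 * u)) ^ (10 * s + 50) := Nat.pow_le_pow_left hx2 _
      _ = _ := by rw [← pow_mul]
  have h3 : (0 : ℝ) < ((16 * n * (n ^ 3 + 1) ^ 2 * (n ^ (5 * s + 20)) ^ 2 : ℕ) : ℝ) := by
    have : 0 < n := by omega
    exact_mod_cast (by positivity)
  have h4 : (0 : ℝ) < ((x ^ u).factorial : ℝ) := by exact_mod_cast Nat.factorial_pos _
  have h5 : Real.log x ≤ x := (Real.log_le_sub_one_of_pos (by linarith only [hX])).trans (by linarith only [])
  rw [Nat.cast_mul, Real.log_mul (by positivity) h3.ne', Nat.cast_pow, Real.log_pow]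
  have h6 := log_factorial_le (x ^ u) x hX u (by push_cast; rfl)
  have h7 : Real.log ((16 * n * (n ^ 3 + 1) ^ 2 * (n ^ (5 * s + 20)) ^ 2 : ℕ) : ℝ) ≤
      26 * u * (10 * s + 50) * (x : ℝ) ^ (u + 2) := by
    calc _ ≤ Real.log ((x : ℝ) ^ (26 * u * (10 * s + 50))) :=
          Real.log_le_log h3 (by exact_mod_cast h2)
      _ = 26 * u * (10 * s + 50) * Real.log x := by rw [Real.log_pow]; push_cast; ring
      _ ≤ _ := by
          gcongr
          exact h5.trans (le_self_pow₀ hX (by omega))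
  have h8 : ((78 * u * x : ℕ) : ℝ) * Real.log ((x ^ u).factorial : ℝ) ≤
      78 * u * u * (x : ℝ) ^ (u + 2) := by
    calc _ ≤ ((78 * u * x : ℕ) : ℝ) * ((x : ℝ) ^ u * (u * x)) := by gcongr
      _ = _ := by push_cast; ring
  linarith only [h7, h8]

lemma cost_le (n x u s J j : ℕ) (hn : 16 ≤ n) (hx : 1 ≤ x) (hx2 : n ≤ x ^ (26 * u))
    (hu : u = 4 * J + 4) (hj : j < J)
    (a1 : 2 * (2 * u + 1) + 2 * (78 * u * u + 26 * u * (10 * s + 50)) ≤ (x : ℝ)) :
    2 * n / (x : ℝ) ^ (u + 8 + 4 * (J - j)) *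
      Real.log ((x ^ (u + 5 + 4 * (J - j))).factorial) +
      2 * n / (x : ℝ) ^ (u + 8 + 4 * (J - (j + 1))) *
      Real.log (((x ^ u).factorial ^ (78 * u * x) *
      (16 * n * (n ^ 3 + 1) ^ 2 * (n ^ (5 * s + 20)) ^ 2) : ℕ) : ℝ) ≤ n / x := by
  have hX : (1 : ℝ) ≤ x := by exact_mod_cast hx
  have h1 := log_factorial_le (x ^ (u + 5 + 4 * (J - j))) x hX (u + 5 + 4 * (J - j))
    (by push_cast; rfl)
  have h2 := log_theta_le n x u s hn hx hx2
  have h3 : ((u + 5 + 4 * (J - j) : ℕ) : ℝ) ≤ 2 * u + 1 := by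
    have : u + 5 + 4 * (J - j) ≤ 2 * u + 1 := by omega
    exact_mod_cast this
  have h4 : 2 * n / (x : ℝ) ^ (u + 8 + 4 * (J - j)) *
      Real.log ((x ^ (u + 5 + 4 * (J - j))).factorial) ≤ 2 * (2 * u + 1) * (n / x ^ 2) := by
    clear * - n x u J j h1 h3 hx hn
    calc _ ≤ 2 * n / (x : ℝ) ^ (u + 8 + 4 * (J - j)) *
          ((x : ℝ) ^ (u + 5 + 4 * (J - j)) * ((2 * u + 1) * x)) := by
          refine mul_le_mul_of_nonneg_left (h1.trans ?_) (by positivity)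
          gcongr
      _ = _ := by
          rw [show u + 8 + 4 * (J - j) = (u + 5 + 4 * (J - j)) + 3 by ring, pow_add _ _ 3]
          field_simp
  have h5 : 2 * n / (x : ℝ) ^ (u + 8 + 4 * (J - (j + 1))) *
      Real.log (((x ^ u).factorial ^ (78 * u * x) *
      (16 * n * (n ^ 3 + 1) ^ 2 * (n ^ (5 * s + 20)) ^ 2) : ℕ) : ℝ) ≤
      2 * (78 * u * u + 26 * u * (10 * s + 50)) * (n / x ^ 2) := by
    clear * - x u J j hX n s hn hx h2
    have h6 : (x : ℝ) ^ (u + 4) ≤ (x : ℝ) ^ (u + 8 + 4 * (J - (j + 1))) :=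
      pow_le_pow_right₀ hX (by omega)
    calc _ ≤ 2 * n / (x : ℝ) ^ (u + 4) *
          ((78 * u * u + 26 * u * (10 * s + 50)) * (x : ℝ) ^ (u + 2)) := by
          refine mul_le_mul ?_ h2 (Real.log_natCast_nonneg _) (by positivity)
          gcongr
      _ = _ := by
          rw [show u + 4 = (u + 2) + 2 by ring, pow_add _ _ 2]
          field_simp
  have h7 := mul_le_mul_of_nonneg_right a1 (show (0 : ℝ) ≤ n / x ^ 2 by positivity)
  have h8 : (x : ℝ) * (n / x ^ 2) = n / x := by field_simp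
  clear * - n x u J j s h4 h5 h7 h8
  linarith only [h4, h5, h7, h8]

lemma main_ineq (D C X n p W lam Q c0 eμ : ℝ) (s u m : ℕ) (b : ℝ) (hD : 1 ≤ D) (hX : 2 ≤ X)
    (hu : 7 ≤ u) (hn : X ^ (13 * u) ≤ n) (hW : 3 * W / p ≤ 6 * C / X) (hc0 : 0 < c0)
    (heμ : 0 < eμ) (hm : 4 * m * (D / n) ≤ c0 / 16) (hb : b ≤ c0 / 4) (hlam0 : 0 < lam)
    (hlam : lam ≤ X ^ (2 * u)) (hQ : Q = X * lam)
    (a7 : (14 + 6 * C + 2 * D + 32 * D * eμ + eμ * (18 * s + 6 * (4 * D)) / 2 + 27 * (s + 2)) *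
      4 / c0 ≤ X) :
    4 / n + 3 * W / p + 4 * n / n ^ 2 + 2 * (X ^ (6 * u + 3)) ^ 2 * (D / n) + 4 * m * (D / n) +
      eμ * (n * lam * (2 * (D / n) * (4 / Q + 4 * (1 / n ^ (5 * s + 20)) + 2 * (4 / n)))) <
      (c0 - b - eμ * (lam * s * (12 / X ^ (6 * u + 3)) +
        6 * lam * (s + X ^ (2 * u + 1) * (4 * D)) / (X ^ (2 * u + 1)) ^ 2) -
        6 * n ^ (s + 1) * 2 ^ (s + 1) *
          ((s + 2) * (n ^ 3) ^ (s + 3) * (2 * (4 * n) + 1) / n ^ (5 * s + 20))) / 2 := by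
  have hX1 : 1 ≤ X := by linarith only [hX]
  have hX0 : 0 < X := by linarith only [hX]
  have hXn : X ≤ n := (le_self_pow₀ hX1 (by omega)).trans hn
  have hn1 : 1 ≤ n := by linarith only [hX, hXn]
  have hn0 : 0 < n := by linarith only [hX, hXn]
  have hinv : 1 / n ≤ 1 / X := one_div_le_one_div_of_le hX0 hXn
  have t1 : 4 / n ≤ 4 * (1 / X) := by rw [← mul_one_div]; linarith only [hinv]
  have t2 : 4 * n / n ^ 2 ≤ 4 * (1 / X) := by
    have : 4 * n / n ^ 2 = 4 / n := by field_simp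
    linarith only [t1, this]
  have t3 : 2 * (X ^ (6 * u + 3)) ^ 2 * (D / n) ≤ 2 * D * (1 / X) := by
    clear * - X u n hX1 hu hn hn0 hX0 D hD
    have h1 : (X ^ (6 * u + 3)) ^ 2 * X ≤ n := by
      rw [← pow_mul, ← pow_succ]
      exact (pow_le_pow_right₀ hX1 (by omega)).trans hn
    have h2 : (X ^ (6 * u + 3)) ^ 2 / n ≤ 1 / X := by
      rw [div_le_div_iff₀ hn0 hX0]; linarith only [h1]
    calc _ = 2 * D * ((X ^ (6 * u + 3)) ^ 2 / n) := by ring
      _ ≤ _ := by gcongr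
  have hlamX : lam * X ≤ X ^ (2 * u + 1) := by rw [pow_succ]; gcongr
  have hlamn : lam / n ≤ 1 / X := by
    rw [div_le_div_iff₀ hn0 hX0, one_mul]
    exact hlamX.trans ((pow_le_pow_right₀ hX1 (by omega)).trans hn)
  have t4 : n * lam * (2 * (D / n) * (4 / Q + 4 * (1 / n ^ (5 * s + 20)) + 2 * (4 / n))) ≤
      32 * D * (1 / X) := by
    clear * - n s hn0 hn1 u lam D Q X hD hlam0 hQ hX hlamn
    have h1 : 1 / n ^ (5 * s + 20) ≤ 1 / n :=
      one_div_le_one_div_of_le hn0 (le_self_pow₀ hn1 (by omega))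
    calc _ ≤ n * lam * (2 * (D / n) * (4 / Q + 4 * (1 / n) + 2 * (4 / n))) := by gcongr
      _ = 2 * D * (4 * (1 / X) + 12 * (lam / n)) := by rw [hQ]; field_simp; ring
      _ ≤ 2 * D * (4 * (1 / X) + 12 * (1 / X)) := by gcongr
      _ = _ := by ring
  have t5 : lam * s * (12 / X ^ (6 * u + 3)) ≤ 12 * s * (1 / X) := by
    clear * - lam X u hX hX0 hlamX hX1 hu s
    have h1 : lam / X ^ (6 * u + 3) ≤ 1 / X := by
      rw [div_le_div_iff₀ (by positivity) hX0, one_mul]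
      exact hlamX.trans (pow_le_pow_right₀ hX1 (by omega))
    calc _ = 12 * s * (lam / X ^ (6 * u + 3)) := by ring
      _ ≤ _ := by gcongr
  have t6 : 6 * lam * (s + X ^ (2 * u + 1) * (4 * D)) / (X ^ (2 * u + 1)) ^ 2 ≤
      6 * (s + 4 * D) * (1 / X) := by
    clear * - X u hX1 lam hX hX0 hlamX s D hlam0 hD
    have h0 : 1 ≤ X ^ (2 * u + 1) := one_le_pow₀ hX1
    have h1 : lam / X ^ (2 * u + 1) ≤ 1 / X := by
      rw [div_le_div_iff₀ (by positivity) hX0, one_mul]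
      exact hlamX
    have h2 : (s : ℝ) ≤ X ^ (2 * u + 1) * s := le_mul_of_one_le_left (Nat.cast_nonneg _) h0
    calc _ ≤ 6 * lam * (X ^ (2 * u + 1) * s + X ^ (2 * u + 1) * (4 * D)) / (X ^ (2 * u + 1)) ^ 2 := by
          gcongr
      _ = 6 * (s + 4 * D) * (lam / X ^ (2 * u + 1)) := by field_simp
      _ ≤ _ := by gcongr
  have t7 : 6 * n ^ (s + 1) * 2 ^ (s + 1) *
      ((s + 2) * (n ^ 3) ^ (s + 3) * (2 * (4 * n) + 1) / n ^ (5 * s + 20)) ≤
      54 * (s + 2) * (1 / X) := by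
    clear * - s n X hX hXn hn0 hn1 u hinv
    have h1 : (2 : ℝ) ^ (s + 1) ≤ n ^ (s + 1) := pow_le_pow_left₀ (by norm_num) (by linarith only [hX, hXn]) _
    have h2 : 2 * (4 * n) + 1 ≤ 9 * n := by linarith
    have h3 : 1 / n ^ 8 ≤ 1 / n := one_div_le_one_div_of_le hn0 (le_self_pow₀ hn1 (by omega))
    calc _ ≤ 6 * n ^ (s + 1) * n ^ (s + 1) *
          ((s + 2) * (n ^ 3) ^ (s + 3) * (9 * n) / n ^ (5 * s + 20)) := by gcongr
      _ = 54 * (s + 2) * (1 / n ^ 8) := by field_simp; ring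
      _ ≤ _ := mul_le_mul_of_nonneg_left (h3.trans hinv) (by positivity)
  have t8 : (14 + 6 * C + 2 * D + 32 * D * eμ + eμ * (18 * s + 6 * (4 * D)) / 2 + 27 * (s + 2)) *
      (1 / X) ≤ c0 / 4 := by
    clear * - C D eμ s X c0 hX0 hc0 a7
    rw [div_le_iff₀ hc0] at a7
    rw [mul_one_div, div_le_iff₀ hX0]
    linarith only [a7]
  have t9 := mul_le_mul_of_nonneg_left t4 heμ.le
  have t10 := mul_le_mul_of_nonneg_left (add_le_add t5 t6) heμ.le
  have t11 : 6 * C / X = 6 * C * (1 / X) := by ring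
  have t12 : 0 < 1 / X := by positivity
  clear * - n W p X u D m eμ lam Q s c0 b C hW hc0 hm hb t1 t2 t3 t7 t8 t9 t10 t11 t12
  linarith only [hW, hc0, hm, hb, t1, t2, t3, t7, t8, t9, t10, t11, t12]

theorem core_aux (D C : ℝ) (hD : 1 ≤ D) (hC : 1 ≤ C) (s A J u x n p : ℕ) [NeZero p]
    (hp : p.Prime) (hJ : J = 80 * A) (hu : u = 4 * J + 4) (hA1 : 1 ≤ A)
    (hs : 2 * (4 * D) * Real.exp (2 * (4 * D)) / 2 ^ s ≤ Real.exp (-2 * (4 * D)) / 4)
    (hA : 4 * D / A ≤ Real.exp (-2 * (4 * D)) / 16)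
    (hx1 : x ^ (13 * u) ≤ n) (hx2 : n ≤ x ^ (26 * u))
    (a1 : 2 * (2 * u + 1) + 2 * (78 * u * u + 26 * u * (10 * s + 50)) ≤ (x : ℝ))
    (a2 : 2 * C * J ≤ x) (a3 : 48 * C ^ 4 ≤ x) (a4 : 16 * D ≤ x)
    (a6 : 48 * D * (s + 2) ≤ x)
    (a7 : (14 + 6 * C + 2 * D + 32 * D * Real.exp (4 * D) +
      Real.exp (4 * D) * (18 * s + 6 * (4 * D)) / 2 + 27 * (s + 2)) * 4 /
      Real.exp (-2 * (4 * D)) ≤ x)
    (hnp : (n : ℝ) ≤ C * Real.log p) (a : Fin n → ZMod p) :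
    ∃ c : ZMod p, c ≠ 0 ∧ ∃ t : ZMod p, ∀ i, D / n < chord (a i * c - t) := by
  have hC4 : 1 ≤ C ^ 4 := one_le_pow₀ hC
  have hX48 : (48 : ℝ) ≤ x := by linarith only [a3, hC4]
  have hx48 : 48 ≤ x := by exact_mod_cast hX48
  have hX1 : (1 : ℝ) ≤ x := by linarith only [a3, hC4]
  have hX0 : (0 : ℝ) < x := by linarith only [a3, hC4]
  have hxpow : ∀ b, b ≤ 13 * u → x ^ b ≤ n := fun b hb =>
    (Nat.pow_le_pow_right (by omega) hb).trans hx1
  have hXpow : ∀ b, b ≤ 13 * u → (x : ℝ) ^ b ≤ n := fun b hb => by exact_mod_cast hxpow b hb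
  have hxn : x ≤ n := by simpa using hxpow 1 (by omega)
  have hXn : (x : ℝ) ≤ n := by exact_mod_cast hxn
  have hn0 : (0 : ℝ) < n := by clear * - n C x a3 hC4 hXn; linarith only [a3, hC4, hXn]
  have hn1 : (1 : ℝ) ≤ n := by linarith only [a3, hC4, hXn]
  have hp0 : (0 : ℝ) < p := Nat.cast_pos.mpr (NeZero.pos p)
  have hpexp : Real.exp (n / C) ≤ p := by
    clear * - n C p hp0 hC hnp
    rw [← Real.le_log_iff_exp_le hp0, div_le_iff₀ (by linarith)]
    linarith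
  have hn3p : n ^ 3 < p := by
    clear * - n C hn0 hC x a3 hXn p hpexp
    have h1 := Real.pow_div_factorial_le_exp (n / C) (by positivity) 4
    have h2 : (2 : ℝ) * n ^ 3 ≤ (n / C) ^ 4 / (Nat.factorial 4) := by
      rw [div_pow, div_div, le_div_iff₀ (by positivity)]
      have h3 : 48 * C ^ 4 * n ^ 3 ≤ n * n ^ 3 := by gcongr; linarith only [a3, hXn]
      have h4 : ((Nat.factorial 4 : ℕ) : ℝ) = 24 := by norm_num [Nat.factorial]
      rw [h4]; linarith only [h3]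
    have h3 : (0 : ℝ) < n ^ 3 := by positivity
    have : (n : ℝ) ^ 3 < p := by linarith only [hpexp, h1, h2, h3]
    exact_mod_cast this
  have hnn3 : n ≤ n ^ 3 := Nat.le_self_pow (by norm_num) _
  have hK : n ^ 3 ≤ x ^ (78 * u) := by
    calc n ^ 3 ≤ (x ^ (26 * u)) ^ 3 := Nat.pow_le_pow_left hx2 _
      _ = _ := by rw [← pow_mul]; congr 1; ring
  obtain ⟨j, hj, a', N, r, W, B, g, X, hI, hW, hF⟩ := regularize hp a (K := n ^ 3) (y := x ^ u)
    (Y := n ^ (5 * s + 20)) (Nat.pow_pos (by omega)) (Nat.pow_pos (by omega)) n (by omega)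
    (by simp) s 78 (78 * u * x) (by have := hxpow u (by omega); omega)
    (by have := Nat.le_self_pow (n := u) (by omega) x; omega)
    (by
      rw [← pow_mul]
      exact hK.trans_lt (Nat.pow_lt_pow_right (by omega) (by omega)))
    (by
      refine hK.trans_lt ?_
      rw [mul_comm _ x, pow_mul 2 x]
      exact Nat.pow_lt_pow_left (n := 78 * u) (Nat.lt_two_pow_self) (by omega))
    (n / A) J
    (by
      clear * - n A J u x p hA1 hJ
      have := Nat.lt_mul_div_succ n (show 0 < A by omega)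
      rw [hJ]
      linarith only [this])
    (fun j => (x : ℝ) ^ (u + 4 + 4 * (J - j))) (fun _ _ => by positivity)
    (fun j => x ^ (u + 5 + 4 * (J - j))) (fun j _ => by have := hxpow (u + 5 + 4 * (J - j)) (by omega); omega)
    (fun j => 2 * n / (x : ℝ) ^ (u + 8 + 4 * (J - j))) (by positivity)
    (by
      clear * - J u A x n p hJ C a3 hC4 hX1 hn0 hx48
      intro j hj
      have e1 : u + 8 + 4 * (J - (j + 1)) = u + 4 + 4 * (J - j) := by omega
      have e2 : u + 8 + 4 * (J - j) = u + 4 + 4 * (J - j) + 4 := by omega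
      rw [e1, e2, pow_add _ _ 4]
      have h1 : (2 : ℝ) ≤ (x : ℝ) ^ 4 := le_trans (by linarith only [a3, hC4]) (le_self_pow₀ hX1 (by norm_num))
      have h2 : 2 * n / ((x : ℝ) ^ (u + 4 + 4 * (J - j)) * (x : ℝ) ^ 4) ≤
          2 * n / ((x : ℝ) ^ (u + 4 + 4 * (J - j)) * 2) := by gcongr
      have h3 : 2 * n / ((x : ℝ) ^ (u + 4 + 4 * (J - j)) * 2) =
          n / (x : ℝ) ^ (u + 4 + 4 * (J - j)) := by field_simp
      have h4 : 2 * n / (x : ℝ) ^ (u + 4 + 4 * (J - j)) =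
          2 * (n / (x : ℝ) ^ (u + 4 + 4 * (J - j))) := by ring
      linarith only [h2, h3, h4])
    (n / x) (by positivity)
    (fun j hj => cost_le n x u s J j (by omega) (by omega) hx2 hu hj a1)
  have hW0 : 0 < W := zero_lt_one.trans_le hI.one_le
  have hW1 : W ≤ Real.exp (n / (2 * C)) := by
    clear * - W J n x C hW hX0 hC a2 hn0
    refine hW.trans (Real.exp_le_exp.mpr ?_)
    rw [mul_div_assoc', div_le_div_iff₀ hX0 (by linarith only [hC])]
    have := mul_le_mul_of_nonneg_left a2 hn0.le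
    linarith
  set lam : ℝ := (x : ℝ) ^ (u + 4 + 4 * (J - j)) with hlam
  have hlam0 : 0 < lam := by positivity
  have hlam1 : lam ≤ (x : ℝ) ^ (2 * u) := pow_le_pow_right₀ hX1 (by omega)
  have hlamX : lam * x ≤ (x : ℝ) ^ (2 * u + 1) := by rw [pow_succ]; gcongr
  have hGn : (x : ℝ) ^ (6 * u + 3) ≤ n := hXpow _ (by omega)
  have hs2 : (48 : ℝ) * (s + 2) ≤ x := by
    clear * - s x D hD a6
    have : (0 : ℝ) ≤ 48 * (s + 2) := by positivity
    linarith only [hD, a6, mul_nonneg_of_nonpos_of_nonpos (Mathlib.Tactic.Linarith.sub_nonpos_of_le (Mathlib.Tactic.Linarith.natCast_nonneg ℝ s)) (Mathlib.Tactic.Linarith.sub_nonpos_of_le hD)]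
  refine gap_of_final hp (Nat.pow_pos (by omega)) (Nat.pow_pos (by omega)) hn3p.le hI hF
    hlam0.le n (by omega) (by simp) (D / n) (by positivity) ?_ (x ^ (6 * u + 3))
    (Nat.pow_pos (by omega)) (by have := hxpow (6 * u + 3) (by omega); omega)
    (by have := hxpow (6 * u + 3) (by omega); omega) (Nat.pow_pos (by omega))
    ((x : ℝ) ^ (2 * u + 1)) (4 * n) (n ^ 2) (4 * D) (12 / (x : ℝ) ^ (6 * u + 3)) (4 / n)
    ?_ (by positivity) ?_ ?_ ?_ ?_ ?_ ?_ ?_ (by positivity) ?_ ?_ ?_ ?_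
  · have h1 : (n : ℝ) ^ 3 ≤ p := by exact_mod_cast hn3p.le
    rw [div_mul_eq_mul_div, le_div_iff₀ hn0]
    have h2 : (2 : ℝ) * n ≤ n ^ 3 := by
      clear * - n s x hXn hs2 hn1 hn0
      have h3 : (2 : ℝ) ≤ n ^ 2 := le_trans (by linarith only [hXn, hs2]) (le_self_pow₀ hn1 (by norm_num))
      calc (2 : ℝ) * n ≤ n ^ 2 * n := by gcongr
        _ = _ := by ring
    have h4 : (p : ℝ) ≤ D * p := le_mul_of_one_le_left hp0.le hD
    clear * - n D p h1 h2 h4
    linarith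
  · rw [Real.log_mul (by norm_num) hW0.ne']
    have h1 : Real.log 3 ≤ 2 := (Real.log_le_sub_one_of_pos (by norm_num)).trans (by norm_num)
    have h2 : Real.log W ≤ n / (2 * C) := (Real.log_le_iff_le_exp hW0).mpr hW1
    have h3 : n / (2 * C) ≤ n := div_le_self hn0.le (by clear * - C hC hn0 n; linarith)
    clear * - W n s x C hXn hs2 h1 h2 h3
    linarith only [hXn, hs2, h1, h2, h3]
  · push_cast
    rw [div_mul_eq_mul_div, le_div_iff₀ hn0, ← pow_succ]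
    exact (pow_le_pow_right₀ hn1 (by omega)).trans (le_mul_of_one_le_left (by positivity) hD)
  · push_cast
    have h1 : (x : ℝ) ^ (6 * u + 3) * x ≤ n := by
      rw [← pow_succ]; exact hXpow _ (by omega)
    rw [mul_div_assoc', mul_div_assoc', div_le_iff₀ hn0]
    have h2 : (0 : ℝ) ≤ (x : ℝ) ^ (6 * u + 3) := by positivity
    clear * - x u D n s hXn hs2 h1 a4 hD
    (refine le_of_not_gt fun h_nl => ?_; linarith only [h_nl, hs2, h1, hXn, a4, hD, mul_nonneg_of_nonpos_of_nonpos (Mathlib.Tactic.Linarith.sub_nonpos_of_le (Mathlib.Tactic.Linarith.natCast_nonneg ℝ x)) (Mathlib.Tactic.Linarith.sub_nonpos_of_le (Mathlib.Tactic.Linarith.natCast_nonneg ℝ s)), mul_nonneg_of_nonpos_of_nonpos (Mathlib.Tactic.Linarith.sub_nonpos_of_le (Mathlib.Tactic.Linarith.natCast_nonneg ℝ x)) (Mathlib.Tactic.Linarith.sub_nonpos_of_le hXn), mul_nonneg_of_nonpos_of_nonpos (Mathlib.Tactic.Linarith.sub_nonpos_of_le (Mathlib.Tactic.Linarith.natCast_nonneg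 ℝ x)) (Mathlib.Tactic.Linarith.sub_nonpos_of_le hs2), mul_nonneg_of_nonpos_of_nonpos (Mathlib.Tactic.Linarith.sub_nonpos_of_le (Mathlib.Tactic.Linarith.natCast_nonneg ℝ x)) (le_of_lt (Mathlib.Tactic.Linarith.sub_neg_of_lt h_nl)), mul_nonneg_of_nonpos_of_nonpos (Mathlib.Tactic.Linarith.sub_nonpos_of_le (Mathlib.Tactic.Linarith.natCast_nonneg ℝ n)) (Mathlib.Tactic.Linarith.sub_nonpos_of_le a4), mul_nonneg_of_nonpos_of_nonpos (Mathlib.Tactic.Linarith.sub_nonpos_of_le hD) (Mathlib.Tactic.Linarith.sub_nonpos_of_le h1)])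
  · push_cast
    have h1 : (x : ℝ) ^ (u + 5 + 4 * (J - j)) * x ≤ n := by
      rw [← pow_succ]; exact hXpow _ (by omega)
    rw [mul_div_assoc', mul_div_assoc', div_le_iff₀ hn0]
    have h2 : (0 : ℝ) ≤ (x : ℝ) ^ (u + 5 + 4 * (J - j)) := by positivity
    clear * - x u J j D n s a6 hs2 h1 hD a4 hXn
    (refine le_of_not_gt fun h_nl => ?_; linarith only [h_nl, a6, hs2, h1, hD, a4, hXn, mul_nonneg_of_nonpos_of_nonpos (Mathlib.Tactic.Linarith.sub_nonpos_of_le (Mathlib.Tactic.Linarith.natCast_nonneg ℝ x)) (le_of_lt (Mathlib.Tactic.Linarith.sub_neg_of_lt h_nl)), mul_nonneg_of_nonpos_of_nonpos (Mathlib.Tactic.Linarith.sub_nonpos_of_le (Mathlib.Tactic.Linarith.natCast_nonneg ℝ s)) (Mathlib.Tactic.Linarith.sub_nonpos_of_le hD), mul_nonneg_of_nonpos_of_nonpos (Mathlib.Tactic.Linarith.sub_nonpos_of_le hD) (Mathlib.Tactic.Linarith.sub_nonpos_of_le a4), mul_nonneg_of_nonpos_of_nonpos (Mathlib.Tactic.Linarith.sub_nonpos_of_le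 hD) (Mathlib.Tactic.Linarith.sub_nonpos_of_le h1), mul_nonneg_of_nonpos_of_nonpos (Mathlib.Tactic.Linarith.sub_nonpos_of_le a4) (Mathlib.Tactic.Linarith.sub_nonpos_of_le a4), mul_nonneg_of_nonpos_of_nonpos (Mathlib.Tactic.Linarith.sub_nonpos_of_le a4) (Mathlib.Tactic.Linarith.sub_nonpos_of_le hXn)])
  · push_cast
    have : (n : ℝ) ^ 3 * (D / n) ^ 2 = n * D ^ 2 := by field_simp
    rw [this]
    gcongr
    exact le_mul_of_one_le_right hn0.le (one_le_pow₀ hD)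
  · push_cast
    have h1 : 1 / (n : ℝ) ^ (5 * s + 20) ≤ 1 / (x : ℝ) ^ (6 * u + 3) :=
      one_div_le_one_div_of_le (by positivity) (hGn.trans (le_self_pow₀ hn1 (by omega)))
    have h2 : 4 / (n : ℝ) ≤ 4 / (x : ℝ) ^ (6 * u + 3) := by gcongr
    have h3 : 12 / (x : ℝ) ^ (6 * u + 3) = 4 / (x : ℝ) ^ (6 * u + 3) +
        4 * (1 / (x : ℝ) ^ (6 * u + 3)) + 4 / (x : ℝ) ^ (6 * u + 3) := by ring
    clear * - x u n s h1 h2 h3
    linarith only [h1, h2, h3]
  · rw [div_le_iff₀ (by positivity)]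
    have : (x : ℝ) ≤ (x : ℝ) ^ (6 * u + 3) := le_self_pow₀ hX1 (by omega)
    clear * - x u s hs2 this
    linarith only [hs2, this]
  · apply le_of_eq; field_simp
  · rw [mul_div_assoc', div_le_one (by positivity)]
    have h1 : (x : ℝ) ^ (2 * u + 1) * x ≤ (x : ℝ) ^ (6 * u + 3) := by
      rw [← pow_succ]; exact pow_le_pow_right₀ hX1 (by omega)
    have h2 : (0 : ℝ) ≤ (x : ℝ) ^ (2 * u + 1) := by positivity
    clear * - x u lam D J j hlam0 hlamX h1 hD h2 a4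
    linarith only [hlam0, hlamX, h1, hD, h2, a4, mul_nonneg_of_nonpos_of_nonpos (Mathlib.Tactic.Linarith.sub_nonpos_of_le hD) (le_of_lt (Mathlib.Tactic.Linarith.sub_neg_of_lt hlam0)), mul_nonneg_of_nonpos_of_nonpos (Mathlib.Tactic.Linarith.sub_nonpos_of_le hD) (Mathlib.Tactic.Linarith.sub_nonpos_of_le h2), mul_nonneg_of_nonpos_of_nonpos (Mathlib.Tactic.Linarith.sub_nonpos_of_le a4) (le_of_lt (Mathlib.Tactic.Linarith.sub_neg_of_lt hlam0)), mul_nonneg_of_nonpos_of_nonpos (Mathlib.Tactic.Linarith.sub_nonpos_of_le a4) (Mathlib.Tactic.Linarith.sub_nonpos_of_le h2)]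
  · rw [mul_div_assoc', div_le_iff₀ (by positivity)]
    have h1 : lam * (x : ℝ) ^ (2 * u + 1) * x ≤ (x : ℝ) ^ (6 * u + 3) := by
      clear * - lam x u hlam1 hx48 hX1 A J n p hJ hu j
      calc _ ≤ (x : ℝ) ^ (2 * u) * (x : ℝ) ^ (2 * u + 1) * x := by gcongr
        _ = (x : ℝ) ^ (4 * u + 2) := by ring
        _ ≤ _ := pow_le_pow_right₀ hX1 (by omega)
    have h2 := mul_le_mul_of_nonneg_left hs2
      (show 0 ≤ lam * (x : ℝ) ^ (2 * u + 1) by positivity)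
    clear * - lam s x u J j h1 h2
    linarith only [h1, h2]
  · rw [mul_div_assoc', div_le_one (by positivity)]
    have h1 : ((x : ℝ) ^ (2 * u + 1)) ^ 2 * lam * x ≤ (x : ℝ) ^ (6 * u + 3) := by
      clear * - x u lam hlam1 hx48
      calc _ ≤ ((x : ℝ) ^ (2 * u + 1)) ^ 2 * (x : ℝ) ^ (2 * u) * x := by gcongr
        _ = _ := by ring
    have h2 := mul_le_mul_of_nonneg_left a6
      (show 0 ≤ ((x : ℝ) ^ (2 * u + 1)) ^ 2 * lam by positivity)
    clear * - x u D lam s J j h1 h2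
    linarith only [h1, h2]
  · have hQ : ((x ^ (u + 5 + 4 * (J - j)) : ℕ) : ℝ) = x * lam := by
      rw [hlam]; push_cast; ring
    have hWp : 3 * W / p ≤ 6 * C / x := by
      clear * - W n C p hC hn0 hW1 hpexp x hXn hW0 hp0 hX0
      have h1 : W * Real.exp (n / (2 * C)) ≤ p := by
        refine le_trans ?_ hpexp
        have : (n : ℝ) / C = n / (2 * C) + n / (2 * C) := by field_simp; ring
        rw [this, Real.exp_add]
        gcongr
      have h2 : x / (2 * C) ≤ Real.exp (n / (2 * C)) := by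
        have h3 : (x : ℝ) / (2 * C) ≤ n / (2 * C) := by gcongr
        linarith only [h3, Real.add_one_le_exp (n / (2 * C))]
      have h3 : W * (x / (2 * C)) ≤ p := le_trans (by gcongr) h1
      rw [mul_div_assoc', div_le_iff₀ (by linarith only [hC])] at h3
      rw [div_le_div_iff₀ hp0 hX0]
      linarith only [h3]
    have hm : 4 * ((n / A : ℕ) : ℝ) * (D / n) ≤ Real.exp (-2 * (4 * D)) / 16 := by
      clear * - n A D hD hn0 hA1 hA
      refine le_trans ?_ hA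
      have h1 : ((n / A : ℕ) : ℝ) ≤ n / A := Nat.cast_div_le
      calc _ ≤ 4 * ((n : ℝ) / A) * (D / n) := by gcongr
        _ = _ := by field_simp
    have := main_ineq D C x n p W lam _ (Real.exp (-2 * (4 * D))) (Real.exp (4 * D)) s u (n / A) _
      hD (by clear * - x s hs2 hD hWp hXpow hm hs; linarith only [hs2]) (by omega) (hXpow _ le_rfl) hWp (Real.exp_pos _) (Real.exp_pos _) hm hs
      hlam0 hlam1 hQ a7
    simpa only [Nat.cast_pow] using this

/-- Sets of logarithmic size have a dilate with a long gap. -/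
theorem core (D C : ℝ) (hD : 1 ≤ D) (hC : 1 ≤ C) : ∃ n0 : ℕ, ∀ n ≥ n0, ∀ (p : ℕ) [NeZero p],
    p.Prime → (n : ℝ) ≤ C * Real.log p → ∀ a : Fin n → ZMod p,
      ∃ c : ZMod p, c ≠ 0 ∧ ∃ t : ZMod p, ∀ i, D / n < chord (a i * c - t) := by
  have hc0 := Real.exp_pos (-2 * (4 * D))
  obtain ⟨s, hs⟩ : ∃ s : ℕ,
      2 * (4 * D) * Real.exp (2 * (4 * D)) / 2 ^ s ≤ Real.exp (-2 * (4 * D)) / 4 := by
    obtain ⟨s, hs⟩ := pow_unbounded_of_one_lt
      (2 * (4 * D) * Real.exp (2 * (4 * D)) / (Real.exp (-2 * (4 * D)) / 4)) (one_lt_two (α := ℝ))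
    refine ⟨s, ?_⟩
    rw [div_lt_iff₀ (by positivity)] at hs
    rw [div_le_iff₀ (by positivity)]
    linarith only [hs]
  obtain ⟨A, hA⟩ := exists_nat_ge (4 * D / (Real.exp (-2 * (4 * D)) / 16))
  have hA0 : (0 : ℝ) < A := lt_of_lt_of_le (by positivity) hA
  have hA1 : 1 ≤ A := by exact_mod_cast hA0
  set J := 80 * A with hJ
  set u := 4 * J + 4 with hu
  set T1 : ℝ := 2 * (2 * u + 1) + 2 * (78 * u * u + 26 * u * (10 * s + 50)) with hT1
  set T7 : ℝ := (14 + 6 * C + 2 * D + 32 * D * Real.exp (4 * D) +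
      Real.exp (4 * D) * (18 * s + 6 * (4 * D)) / 2 + 27 * (s + 2)) * 4 /
      Real.exp (-2 * (4 * D)) with hT7
  obtain ⟨x0, hx0⟩ := exists_nat_ge
    (T1 + 2 * C * J + 48 * C ^ 4 + 16 * D + 48 * D * (s + 2) + T7 + 2)
  refine ⟨x0 ^ (13 * u), fun n hn p _ hp hnp a => ?_⟩
  set x := Nat.nthRoot (13 * u) n with hx
  have h13 : 13 * u ≠ 0 := by omega
  have hxx : x0 ≤ x := (Nat.le_nthRoot_iff h13).mpr hn
  have hxx' : (x0 : ℝ) ≤ x := by exact_mod_cast hxx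
  have p1 : 0 ≤ T1 := by positivity
  have p2 : 0 ≤ 2 * C * J := by positivity
  have p3 : 0 ≤ 48 * C ^ 4 := by positivity
  have p4 : 0 ≤ 16 * D := by positivity
  have p6 : 0 ≤ 48 * D * (s + 2) := by positivity
  have p7 : 0 ≤ T7 := by positivity
  have hx2 : 2 ≤ x := by
    clear * - x D T1 C J s T7 x0 u hD hx0 hxx' p1 p2 p3 p6 p7
    have : (2 : ℝ) ≤ x := by linarith only [hD, hx0, hxx', p1, p2, p3, p6, p7]
    exact_mod_cast this
  refine core_aux D C hD hC s A J u x n p hp hJ hu hA1 hs ?_ ((Nat.le_nthRoot_iff h13).mp le_rfl)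
    ?_ (by clear * - u s x D T1 C J T7 x0 hD hx0 hxx' p2 p3 p6 p7 a hnp; linarith only [hD, hx0, hxx', p2, p3, p6, p7]) (by clear * - C J x D T1 s T7 x0 u hD hx0 hxx' p1 p3 p6 p7 a hnp; linarith only [hD, hx0, hxx', p1, p3, p6, p7]) (by clear * - C x D T1 J s T7 x0 u hD hx0 hxx' p1 p2 p6 p7 a hnp; linarith only [hD, hx0, hxx', p1, p2, p6, p7]) (by clear * - D x T1 C J s T7 x0 u hx0 hxx' p1 p2 p3 p6 p7 a hnp; linarith only [hx0, hxx', p1, p2, p3, p6, p7]) (by clear * - D s x T1 C J T7 x0 u hD hx0 hxx' p1 p2 p3 p7 a hnp; linarith only [hD, hx0, hxx', p1, p2, p3, p7]) (by clear * - C D s x T1 J T7 x0 u hD hx0 hxx' p1 p2 p3 p6 a hnp; linarith only [hD, hx0, hxx', p1, p2, p3, p6]) hnp a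
  · rw [div_le_iff₀ (by positivity)] at hA
    rw [div_le_iff₀ hA0]
    clear * - D A hA
    linarith only [hA]
  · refine (Nat.lt_pow_nthRoot_add_one h13 n).le.trans ?_
    have h9 : x + 1 ≤ x ^ 2 := by
      have := Nat.mul_le_mul_left x hx2
      rw [sq]; omega
    calc (x + 1) ^ (13 * u) ≤ (x ^ 2) ^ (13 * u) := Nat.pow_le_pow_left h9 _
      _ = x ^ (26 * u) := by rw [← pow_mul]; congr 1; omega

end Pool.Agent.Work.MP_c4c804_co
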