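import Pool.Agent.Work.MP_c4c804_co.Params

/-!
The gap theorem for sets of size up to a power of the logarithm with exponent above one.
-/

set_option autoImplicit false

namespace Pool.Agent.Work.MP_c4c804_co

open Finset

theorem core_pow (D : ℝ) (hD : 1 ≤ D) : ∃ δ : ℝ, 0 < δ ∧ ∃ n0 : ℕ, ∀ n ≥ n0, ∀ (p : ℕ) [NeZero p],
    p.Prime → (n : ℝ) ≤ Real.log p ^ (1 + δ) → ∀ a : Fin n → ZMod p,
      ∃ c : ZMod p, c ≠ 0 ∧ ∃ t : ZMod p, ∀ i, D / n < chord (a i * c - t) := by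
  have hc0 := Real.exp_pos (-2 * (4 * D))
  obtain ⟨s, hs⟩ : ∃ s : ℕ,
      2 * (4 * D) * Real.exp (2 * (4 * D)) / 2 ^ s ≤ Real.exp (-2 * (4 * D)) / 4 := by
    obtain ⟨s, hs⟩ := pow_unbounded_of_one_lt
      (2 * (4 * D) * Real.exp (2 * (4 * D)) / (Real.exp (-2 * (4 * D)) / 4)) (one_lt_two (α := ℝ))
    refine ⟨s, ?_⟩
    rw [div_lt_iff₀ (by positivity)] at hs
    rw [div_le_iff₀ (by positivity)]
    linarith
  obtain ⟨A, hA⟩ := exists_nat_ge (4 * D / (Real.exp (-2 * (4 * D)) / 16))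
  have hA0 : (0 : ℝ) < A := lt_of_lt_of_le (by positivity) hA
  have hA1 : 1 ≤ A := by exact_mod_cast hA0
  set J := 80 * A with hJ
  set u := 4 * J + 4 with hu
  set T1 : ℝ := 2 * (2 * u + 1) + 2 * (78 * u * u + 26 * u * (10 * s + 50)) with hT1
  set T0 : ℝ := 14 + 2 * D + 32 * D * Real.exp (4 * D) +
      Real.exp (4 * D) * (18 * s + 6 * (4 * D)) / 2 + 27 * (s + 2) with hT0
  set T7 : ℝ := (T0 + 6) * 4 / Real.exp (-2 * (4 * D)) with hT7
  obtain ⟨x0, hx0⟩ := exists_nat_ge (T1 + 2 * J + 48 + 16 * D + 48 * D * (s + 2) + T7)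
  have hu0 : (0 : ℝ) < ((130 * u : ℕ) : ℝ) := by exact_mod_cast (by omega : 0 < 130 * u)
  refine ⟨((130 * u : ℕ) : ℝ)⁻¹, inv_pos.2 hu0, (x0 ^ 5) ^ (13 * u), fun n hn p _ hp hnp a => ?_⟩
  set x := Nat.nthRoot (13 * u) n with hx
  have h13 : 13 * u ≠ 0 := by omega
  have hxx : x0 ^ 5 ≤ x := (Nat.le_nthRoot_iff h13).mpr hn
  have hxx' : (x0 : ℝ) ^ 5 ≤ x := by exact_mod_cast hxx
  set C : ℝ := (x : ℝ) ^ (((5 : ℕ) : ℝ)⁻¹) with hCdef
  have hC0 : 0 ≤ C := Real.rpow_nonneg (Nat.cast_nonneg _) _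
  have hC5 : C ^ 5 = x := Real.rpow_inv_natCast_pow (Nat.cast_nonneg _) (by norm_num)
  have hx0C : (x0 : ℝ) ≤ C := le_of_pow_le_pow_left₀ (by norm_num) hC0 (hC5 ▸ hxx')
  have p0 : 0 ≤ T0 := by positivity
  have p1 : 0 ≤ T1 := by positivity
  have p2 : (0 : ℝ) ≤ 2 * J := by positivity
  have p4 : 0 ≤ 16 * D := by positivity
  have p6 : 0 ≤ 48 * D * (s + 2) := by positivity
  have p7 : 0 ≤ T7 := by positivity
  have hC48 : 48 ≤ C := by linarith
  have hC1 : 1 ≤ C := by linarith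
  have hC4 : C ≤ C ^ 4 := le_self_pow₀ hC1 (by norm_num)
  have hCx : C ≤ x := hC5 ▸ le_self_pow₀ hC1 (by norm_num)
  have hmul : ∀ y : ℝ, y ≤ C → C * y ≤ x := fun y hy => by
    rw [← hC5, pow_succ' C 4]
    exact mul_le_mul_of_nonneg_left (hy.trans hC4) hC0
  have hx2 : 2 ≤ x := by
    have : (2 : ℝ) ≤ x := by linarith
    exact_mod_cast this
  have hn26 : n ≤ x ^ (26 * u) := by
    refine (Nat.lt_pow_nthRoot_add_one h13 n).le.trans ?_
    have h9 : x + 1 ≤ x ^ 2 := by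
      have := Nat.mul_le_mul_left x hx2
      rw [sq]; omega
    calc (x + 1) ^ (13 * u) ≤ (x ^ 2) ^ (13 * u) := Nat.pow_le_pow_left h9 _
      _ = x ^ (26 * u) := by rw [← pow_mul]; congr 1; omega
  have hl : 0 < Real.log p := Real.log_pos (by exact_mod_cast hp.one_lt)
  have hnp' : (n : ℝ) ≤ C * Real.log p := by
    rcases le_total (Real.log p ^ (((130 * u : ℕ) : ℝ)⁻¹)) C with h | h
    · rw [Real.rpow_add hl, Real.rpow_one, mul_comm] at hnp
      exact hnp.trans (mul_le_mul_of_nonneg_right h hl.le)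
    · have h1 := pow_le_pow_left₀ hC0 h (130 * u)
      rw [Real.rpow_inv_natCast_pow hl.le (by omega)] at h1
      have h2 : (n : ℝ) ≤ C ^ (130 * u) := by
        rw [show 130 * u = 5 * (26 * u) by ring, pow_mul, hC5]
        exact_mod_cast hn26
      exact (h2.trans h1).trans (le_mul_of_one_le_left hl.le hC1)
  refine core_aux D C hD hC1 s A J u x n p hp hJ hu hA1 hs ?_ ((Nat.le_nthRoot_iff h13).mp le_rfl)
    hn26 (by linarith) ?_ ?_ (by linarith) (by linarith) ?_ hnp' a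
  · rw [div_le_iff₀ (by positivity)] at hA
    rw [div_le_iff₀ hA0]
    linarith
  · have := hmul (2 * J) (by linarith)
    linarith
  · rw [← hC5, pow_succ' C 4]
    exact mul_le_mul_of_nonneg_right hC48 (pow_nonneg hC0 4)
  · refine le_trans ?_ (hmul T7 (by linarith))
    rw [hT7, mul_div_assoc']
    refine div_le_div_of_nonneg_right ?_ hc0.le
    have := mul_le_mul_of_nonneg_right hC1 p0
    linarith

end Pool.Agent.Work.MP_c4c804_co
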