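import Mathlib

-- merged part: Pool.Agent.Work.MP_c4c804_co.Comb2
section
-- merged part: Pool.Agent.Work.MP_c4c804_co.Comb1
section
/-!
Random subsets, a Bonferroni inequality for down-closed families, and a second moment lemma.
-/

set_option autoImplicit false

namespace Pool.Agent.Work.MP_c4c804_co

open Finset

variable {ι : Type*} [DecidableEq ι]

/-- Product weight of a subset. -/
noncomputable def wt (Γ : Finset ι) (x : ι → ℝ) (ω : Finset ι) : ℝ :=
  (∏ i ∈ ω, x i) * ∏ i ∈ Γ \ ω, (1 - x i)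

lemma wt_nonneg {Γ : Finset ι} {x : ι → ℝ} (hx : ∀ i ∈ Γ, 0 ≤ x i ∧ x i ≤ 1) {ω : Finset ι}
    (hω : ω ⊆ Γ) : 0 ≤ wt Γ x ω :=
  mul_nonneg (prod_nonneg fun i hi => (hx i (hω hi)).1)
    (prod_nonneg fun i hi => sub_nonneg.mpr (hx i (mem_sdiff.mp hi).1).2)

lemma sum_wt_superset (Γ : Finset ι) (x : ι → ℝ) {S : Finset ι} (hS : S ⊆ Γ) :
    ∑ ω ∈ Γ.powerset, wt Γ x ω * (if S ⊆ ω then 1 else 0) = ∏ i ∈ S, x i := by
  have h := prod_add (s := Γ) x (fun i => if i ∈ S then 0 else 1 - x i)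
  have h1 : ∏ i ∈ Γ, (x i + if i ∈ S then 0 else 1 - x i) = ∏ i ∈ S, x i := by
    rw [← prod_filter_mul_prod_filter_not Γ (fun i => i ∈ S)]
    have e1 : Γ.filter (fun i => i ∈ S) = S := by
      ext i; simp only [mem_filter]; exact ⟨fun h => h.2, fun h => ⟨hS h, h⟩⟩
    have e2 : ∏ i ∈ Γ.filter (fun i => ¬ i ∈ S), (x i + if i ∈ S then 0 else 1 - x i) = 1 := by
      refine prod_eq_one fun i hi => ?_
      rw [if_neg (mem_filter.mp hi).2]; ring
    rw [e1, e2, mul_one]
    refine prod_congr rfl fun i hi => ?_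
    rw [if_pos hi, add_zero]
  rw [← h1, h]
  refine sum_congr rfl fun ω hω => ?_
  unfold wt
  split_ifs with hSω
  · rw [mul_one]
    congr 1
    refine prod_congr rfl fun i hi => ?_
    rw [if_neg]
    intro hiS
    exact (mem_sdiff.mp hi).2 (hSω hiS)
  · obtain ⟨i, hiS, hiω⟩ := not_subset.mp hSω
    have e0 : ∏ i ∈ Γ \ ω, (if i ∈ S then (0 : ℝ) else 1 - x i) = 0 :=
      prod_eq_zero (i := i) (mem_sdiff.mpr ⟨hS hiS, hiω⟩) (if_pos hiS)
    rw [e0, mul_zero, mul_zero]

lemma sum_wt (Γ : Finset ι) (x : ι → ℝ) : ∑ ω ∈ Γ.powerset, wt Γ x ω = 1 := by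
  have := sum_wt_superset Γ x (empty_subset Γ)
  simpa using this

/-- Boundary pairs of a family. -/
def bd (F : Finset (Finset ι)) (Γ : Finset ι) : Finset (Finset ι × ι) :=
  (F ×ˢ Γ).filter (fun q => q.2 ∉ q.1 ∧ insert q.2 q.1 ∉ F)

lemma bonf_point (F : Finset (Finset ι)) (hdown : ∀ S ∈ F, ∀ T ⊆ S, T ∈ F) (h0 : ∅ ∈ F)
    (Γ ω : Finset ι) (hω : ω ⊆ Γ) :
    |(if ω = ∅ then (1 : ℝ) else 0) - ∑ S ∈ F, (-1 : ℝ) ^ S.card * (if S ⊆ ω then 1 else 0)| ≤
      ∑ q ∈ bd F Γ, (if insert q.2 q.1 ⊆ ω then (1 : ℝ) else 0) := by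
  have hnn : 0 ≤ ∑ q ∈ bd F Γ, (if insert q.2 q.1 ⊆ ω then (1 : ℝ) else 0) :=
    sum_nonneg fun q _ => by split_ifs <;> norm_num
  by_cases hω0 : ω = ∅
  · subst hω0
    rw [if_pos rfl, sum_eq_single ∅]
    · simp
    · intro S _ hS
      rw [if_neg, mul_zero]
      exact fun h => hS (subset_empty.mp h)
    · intro h; exact absurd h0 h
  · obtain ⟨l, hl⟩ := nonempty_iff_ne_empty.mpr hω0
    rw [if_neg hω0, zero_sub, abs_neg,
      ← sum_filter_add_sum_filter_not F (fun S => l ∉ S ∧ insert l S ∉ F)]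
    have h1 : ∑ S ∈ F.filter (fun S => ¬ (l ∉ S ∧ insert l S ∉ F)),
        (-1 : ℝ) ^ S.card * (if S ⊆ ω then 1 else 0) = 0 := by
      refine sum_involution (fun S _ => if l ∈ S then S.erase l else insert l S) ?_ ?_ ?_ ?_
      · intro S _
        by_cases h : l ∈ S
        · simp only [if_pos h]
          have e1 : S.card = (S.erase l).card + 1 := (card_erase_add_one h).symm
          have e2 : S ⊆ ω ↔ S.erase l ⊆ ω := by
            constructor
            · exact fun h' => (erase_subset _ _).trans h'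
            · intro h'
              rw [← insert_erase h]
              exact insert_subset hl h'
          simp only [e2]
          rw [e1, pow_succ]; ring
        · simp only [if_neg h]
          have e2 : insert l S ⊆ ω ↔ S ⊆ ω := by
            rw [insert_subset_iff]; exact ⟨fun h => h.2, fun h => ⟨hl, h⟩⟩
          simp only [e2]
          rw [card_insert_of_notMem h, pow_succ]; ring
      · intro S _ _
        by_cases h : l ∈ S
        · simp only [if_pos h]
          intro h'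
          have : l ∈ S.erase l := by rw [h']; exact h
          exact notMem_erase l S this
        · simp only [if_neg h]
          intro h'
          exact h (h' ▸ mem_insert_self l S)
      · intro S hS
        rw [mem_filter] at hS ⊢
        by_cases h : l ∈ S
        · simp only [if_pos h]
          refine ⟨hdown S hS.1 _ (erase_subset _ _), ?_⟩
          rw [insert_erase h]
          exact fun h' => h'.2 hS.1
        · simp only [if_neg h]
          have : insert l S ∈ F := by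
            by_contra h'
            exact hS.2 ⟨h, h'⟩
          exact ⟨this, fun h' => h'.1 (mem_insert_self l S)⟩
      · intro S _
        by_cases h : l ∈ S
        · simp only [if_pos h, notMem_erase, if_false, insert_erase h]
        · simp only [if_neg h, mem_insert_self, if_true, erase_insert h]
    rw [h1, add_zero]
    refine (abs_sum_le_sum_abs _ _).trans ?_
    have h2 : ∀ S ∈ F.filter (fun S => l ∉ S ∧ insert l S ∉ F),
        |(-1 : ℝ) ^ S.card * (if S ⊆ ω then 1 else 0)| =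
          (fun q : Finset ι × ι => if insert q.2 q.1 ⊆ ω then (1 : ℝ) else 0) (S, l) := by
      intro S _
      have e2 : insert l S ⊆ ω ↔ S ⊆ ω := by
        rw [insert_subset_iff]; exact ⟨fun h => h.2, fun h => ⟨hl, h⟩⟩
      simp only [e2, abs_mul, abs_pow, abs_neg, abs_one, one_pow, one_mul]
      split_ifs <;> simp
    rw [sum_congr rfl h2, ← sum_image (s := F.filter (fun S => l ∉ S ∧ insert l S ∉ F))
      (g := fun S => (S, l))
      (f := fun q : Finset ι × ι => if insert q.2 q.1 ⊆ ω then (1 : ℝ) else 0)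
      (fun S _ T _ h => (Prod.ext_iff.mp h).1)]
    refine sum_le_sum_of_subset_of_nonneg ?_ fun q _ _ => by split_ifs <;> norm_num
    intro q hq
    obtain ⟨S, hS, rfl⟩ := mem_image.mp hq
    rw [mem_filter] at hS
    unfold bd
    rw [mem_filter, mem_product]
    exact ⟨⟨hS.1, hω hl⟩, hS.2⟩

lemma bonf (F : Finset (Finset ι)) (hdown : ∀ S ∈ F, ∀ T ⊆ S, T ∈ F) (h0 : ∅ ∈ F)
    (Γ : Finset ι) (hF : ∀ S ∈ F, S ⊆ Γ) (x : ι → ℝ) (hx : ∀ i ∈ Γ, 0 ≤ x i ∧ x i ≤ 1) :
    |∏ i ∈ Γ, (1 - x i) - ∑ S ∈ F, (-1 : ℝ) ^ S.card * ∏ i ∈ S, x i| ≤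
      ∑ q ∈ bd F Γ, ∏ i ∈ insert q.2 q.1, x i := by
  have e1 : ∏ i ∈ Γ, (1 - x i) = ∑ ω ∈ Γ.powerset, wt Γ x ω * (if ω = ∅ then 1 else 0) := by
    rw [sum_eq_single ∅]
    · simp [wt]
    · intro ω _ h; rw [if_neg h, mul_zero]
    · intro h; exact absurd (empty_mem_powerset Γ) h
  have e2 : ∑ S ∈ F, (-1 : ℝ) ^ S.card * ∏ i ∈ S, x i =
      ∑ ω ∈ Γ.powerset, wt Γ x ω * ∑ S ∈ F, (-1 : ℝ) ^ S.card * (if S ⊆ ω then 1 else 0) := by
    simp_rw [mul_sum]
    rw [sum_comm]
    refine sum_congr rfl fun S hS => ?_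
    rw [← sum_wt_superset Γ x (hF S hS), mul_sum]
    refine sum_congr rfl fun ω _ => by ring
  have e3 : ∑ q ∈ bd F Γ, ∏ i ∈ insert q.2 q.1, x i =
      ∑ ω ∈ Γ.powerset, wt Γ x ω * ∑ q ∈ bd F Γ, (if insert q.2 q.1 ⊆ ω then (1 : ℝ) else 0) := by
    simp_rw [mul_sum]
    rw [sum_comm]
    refine sum_congr rfl fun q hq => ?_
    unfold bd at hq
    rw [mem_filter, mem_product] at hq
    rw [sum_wt_superset Γ x (insert_subset hq.1.2 (hF _ hq.1.1))]
  rw [e1, e2, e3, ← sum_sub_distrib]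
  refine (abs_sum_le_sum_abs _ _).trans (sum_le_sum fun ω hω => ?_)
  have hω' := mem_powerset.mp hω
  rw [← mul_sub, abs_mul, abs_of_nonneg (wt_nonneg hx hω')]
  exact mul_le_mul_of_nonneg_left (bonf_point F hdown h0 Γ ω hω') (wt_nonneg hx hω')

omit [DecidableEq ι] in
lemma sum_prod_le_exp (Γ : Finset ι) (x : ι → ℝ) (hx : ∀ i ∈ Γ, 0 ≤ x i) :
    ∑ S ∈ Γ.powerset, ∏ i ∈ S, x i ≤ Real.exp (∑ i ∈ Γ, x i) := by
  rw [← prod_add_one, Real.exp_sum]
  exact prod_le_prod (fun i hi => by linarith [hx i hi]) fun i _ => Real.add_one_le_exp _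

omit [DecidableEq ι] in
lemma exp_le_prod_one_sub (Γ : Finset ι) (x : ι → ℝ) (hx : ∀ i ∈ Γ, 0 ≤ x i ∧ x i ≤ 1 / 2) :
    Real.exp (-2 * ∑ i ∈ Γ, x i) ≤ ∏ i ∈ Γ, (1 - x i) := by
  rw [mul_sum, Real.exp_sum]
  refine prod_le_prod (fun i _ => (Real.exp_pos _).le) fun i hi => ?_
  obtain ⟨h0, h1⟩ := hx i hi
  have h2 : 1 + 2 * x i ≤ Real.exp (2 * x i) := by linarith only [Real.add_one_le_exp (2 * x i)]
  rw [neg_mul, Real.exp_neg, inv_le_iff_one_le_mul₀ (Real.exp_pos _)]
  linarith only [h2, h0, h1, mul_nonneg_of_nonpos_of_nonpos (Mathlib.Tactic.Linarith.sub_nonpos_of_le h0) (Mathlib.Tactic.Linarith.sub_nonpos_of_le h1), mul_nonneg_of_nonpos_of_nonpos (Mathlib.Tactic.Linarith.sub_nonpos_of_le h1) (Mathlib.Tactic.Linarith.sub_nonpos_of_le h2)]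

lemma sum_le_sum_of_surj {α β : Type*} (X : Finset α) (Y : Finset β) (π : β → α) (F : α → ℝ)
    (H : β → ℝ) (hH : ∀ y ∈ Y, 0 ≤ H y) (h : ∀ x ∈ X, ∃ y ∈ Y, π y = x ∧ F x ≤ H y) :
    ∑ x ∈ X, F x ≤ ∑ y ∈ Y, H y := by
  classical
  choose g hg using fun x : X => h x.1 x.2
  rw [← sum_attach X F]
  calc ∑ x ∈ X.attach, F x ≤ ∑ x ∈ X.attach, H (g x) := sum_le_sum fun x _ => (hg x).2.2
    _ = ∑ y ∈ X.attach.image g, H y := by
        rw [sum_image]
        intro x _ x' _ hxx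
        apply Subtype.ext
        rw [← (hg x).2.1, ← (hg x').2.1, hxx]
    _ ≤ _ := by
        refine sum_le_sum_of_subset_of_nonneg ?_ fun y hy _ => hH y hy
        intro y hy
        obtain ⟨x, _, rfl⟩ := mem_image.mp hy
        exact (hg x).1

open Classical in
/-- Elements taking part in a relation with elements of `T`. -/
noncomputable def aff (R : Finset ι → Prop) (Γ T : Finset ι) : Finset ι :=
  Γ.filter (fun l => ∃ U, U ⊆ insert l T ∧ l ∈ U ∧ R U)

lemma mem_aff {R : Finset ι → Prop} {Γ T : Finset ι} {l : ι} :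
    l ∈ aff R Γ T ↔ l ∈ Γ ∧ ∃ U, U ⊆ insert l T ∧ l ∈ U ∧ R U := by
  classical
  unfold aff; simp only [mem_filter]

lemma aff_mono (R : Finset ι → Prop) (Γ : Finset ι) {T T' : Finset ι} (h : T ⊆ T') :
    aff R Γ T ⊆ aff R Γ T' := by
  intro l hl
  obtain ⟨h1, U, h2, h3, h4⟩ := mem_aff.mp hl
  exact mem_aff.mpr ⟨h1, U, h2.trans (insert_subset_insert _ h), h3, h4⟩

/-- Three elements each related to the other two over `W`. -/
def Tri (R : Finset ι → Prop) (Γ W : Finset ι) (i j l : ι) : Prop :=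
  i ≠ j ∧ l ∈ aff R Γ (insert i (insert j W)) ∧ i ∈ aff R Γ (insert j (insert l W)) ∧
    j ∈ aff R Γ (insert i (insert l W))

lemma prod_pair_union_le (x : ι → ℝ) (i j i' j' : ι) (hij : i ≠ j) (hij' : i' ≠ j')
    (hi : 0 ≤ x i) (hj : 0 ≤ x j) (hi' : 0 ≤ x i') (hj' : 0 ≤ x j') :
    ∏ a ∈ ({i, j} : Finset ι) ∪ {i', j'}, x a ≤
      x i * x j * (((if i' ∈ ({i, j} : Finset ι) then 1 else 0) + x i') *
        ((if j' ∈ ({i, j} : Finset ι) then 1 else 0) + x j')) := by
  have e : ({i, j} : Finset ι) ∪ {i', j'} = insert i' (insert j' {i, j}) := by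
    ext a; simp only [mem_union, mem_insert, mem_singleton]; tauto
  have hp : ∏ a ∈ ({i, j} : Finset ι), x a = x i * x j := prod_pair hij
  have hxx : 0 ≤ x i * x j := mul_nonneg hi hj
  rw [e]
  by_cases h1 : j' ∈ ({i, j} : Finset ι)
  · rw [insert_eq_of_mem h1]
    by_cases h2 : i' ∈ ({i, j} : Finset ι)
    · rw [insert_eq_of_mem h2, hp, if_pos h1, if_pos h2]
      have : 1 ≤ (1 + x i') * (1 + x j') := by linarith only [hi', hj', mul_nonneg_of_nonpos_of_nonpos (Mathlib.Tactic.Linarith.sub_nonpos_of_le hi') (Mathlib.Tactic.Linarith.sub_nonpos_of_le hj')]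
      linarith only [hxx, this, mul_nonneg_of_nonpos_of_nonpos (Mathlib.Tactic.Linarith.sub_nonpos_of_le hxx) (Mathlib.Tactic.Linarith.sub_nonpos_of_le this)]
    · rw [prod_insert h2, hp, if_pos h1, if_neg h2]
      have : x i' ≤ (0 + x i') * (1 + x j') := by nlinarith
      linarith only [hxx, this, mul_nonneg_of_nonpos_of_nonpos (Mathlib.Tactic.Linarith.sub_nonpos_of_le hxx) (Mathlib.Tactic.Linarith.sub_nonpos_of_le this)]
  · by_cases h2 : i' ∈ ({i, j} : Finset ι)
    · rw [insert_eq_of_mem (mem_insert_of_mem h2), prod_insert h1, hp, if_pos h2, if_neg h1]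
      have : x j' ≤ (1 + x i') * (0 + x j') := by linarith only [hi', hj', mul_nonneg_of_nonpos_of_nonpos (Mathlib.Tactic.Linarith.sub_nonpos_of_le hi') (Mathlib.Tactic.Linarith.sub_nonpos_of_le hj')]
      linarith only [hxx, this, mul_nonneg_of_nonpos_of_nonpos (Mathlib.Tactic.Linarith.sub_nonpos_of_le hxx) (Mathlib.Tactic.Linarith.sub_nonpos_of_le this)]
    · have h3 : i' ∉ insert j' ({i, j} : Finset ι) := by
        rw [mem_insert]; exact fun h => h.elim hij' h2
      rw [prod_insert h3, prod_insert h1, hp, if_neg h1, if_neg h2]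
      apply le_of_eq; ring

/-- Second moment bound for the probability that a random set contains an edge of a graph. -/
lemma edge_prob (Γ : Finset ι) (x : ι → ℝ) (hx : ∀ i ∈ Γ, 0 ≤ x i ∧ x i ≤ 1)
    (H : Finset (ι × ι)) (hH : ∀ e ∈ H, e.1 ∈ Γ ∧ e.2 ∈ Γ ∧ e.1 ≠ e.2) (δ : ℝ)
    (hδ1 : ∀ i, ∑ e ∈ H.filter (fun e => e.1 = i), x e.2 ≤ δ)
    (hδ2 : ∀ j, ∑ e ∈ H.filter (fun e => e.2 = j), x e.1 ≤ δ) (hδ : δ ≤ 1 / 4)
    (hw : ∑ e ∈ H, x e.1 * x e.2 ≤ 1) :
    (∑ e ∈ H, x e.1 * x e.2) / 6 ≤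
      ∑ ω ∈ Γ.powerset, wt Γ x ω * (if ∃ e ∈ H, e.1 ∈ ω ∧ e.2 ∈ ω then 1 else 0) := by
  set cnt : Finset ι → ℝ := fun ω => ∑ e ∈ H, (if ({e.1, e.2} : Finset ι) ⊆ ω then 1 else 0)
    with hcnt
  have hsub : ∀ e ∈ H, ({e.1, e.2} : Finset ι) ⊆ Γ := fun e he =>
    insert_subset (hH e he).1 (singleton_subset_iff.mpr (hH e he).2.1)
  have m1 : ∑ ω ∈ Γ.powerset, wt Γ x ω * cnt ω = ∑ e ∈ H, x e.1 * x e.2 := by
    simp only [hcnt, mul_sum]
    rw [sum_comm]
    refine sum_congr rfl fun e he => ?_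
    rw [sum_wt_superset Γ x (hsub e he), prod_pair (hH e he).2.2]
  have m2 : ∑ ω ∈ Γ.powerset, wt Γ x ω * cnt ω ^ 2 ≤ 6 * ∑ e ∈ H, x e.1 * x e.2 := by
    have e1 : ∀ ω, cnt ω ^ 2 = ∑ e ∈ H, ∑ e' ∈ H,
        (if ({e.1, e.2} : Finset ι) ∪ {e'.1, e'.2} ⊆ ω then (1 : ℝ) else 0) := by
      intro ω
      simp only [hcnt, sq, sum_mul_sum]
      refine sum_congr rfl fun e _ => sum_congr rfl fun e' _ => ?_
      simp only [union_subset_iff]
      by_cases h1 : ({e.1, e.2} : Finset ι) ⊆ ω <;> by_cases h2 : ({e'.1, e'.2} : Finset ι) ⊆ ω <;>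
        simp [h1, h2]
    simp only [e1, mul_sum]
    rw [sum_comm]
    refine sum_le_sum fun e he => ?_
    rw [sum_comm]
    have e2 : ∀ e' ∈ H, ∑ ω ∈ Γ.powerset, wt Γ x ω *
        (if ({e.1, e.2} : Finset ι) ∪ {e'.1, e'.2} ⊆ ω then (1 : ℝ) else 0) ≤
        x e.1 * x e.2 * (((if e'.1 ∈ ({e.1, e.2} : Finset ι) then 1 else 0) + x e'.1) *
        ((if e'.2 ∈ ({e.1, e.2} : Finset ι) then 1 else 0) + x e'.2)) := by
      intro e' he'
      rw [sum_wt_superset Γ x (union_subset (hsub e he) (hsub e' he'))]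
      exact prod_pair_union_le x _ _ _ _ (hH e he).2.2 (hH e' he').2.2 (hx _ (hH e he).1).1
        (hx _ (hH e he).2.1).1 (hx _ (hH e' he').1).1 (hx _ (hH e' he').2.1).1
    refine (sum_le_sum e2).trans ?_
    rw [← mul_sum, mul_comm 6]
    refine mul_le_mul_of_nonneg_left ?_ (mul_nonneg (hx _ (hH e he).1).1 (hx _ (hH e he).2.1).1)
    set D : Finset ι := {e.1, e.2} with hD
    have hDc : D.card ≤ 2 := card_le_two
    have t1 : ∑ e' ∈ H, (if e'.1 ∈ D then (1 : ℝ) else 0) * (if e'.2 ∈ D then (1 : ℝ) else 0)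
        ≤ 4 := by
      have : ∀ e' ∈ H, (if e'.1 ∈ D then (1 : ℝ) else 0) * (if e'.2 ∈ D then (1 : ℝ) else 0) =
          if e' ∈ D ×ˢ D then 1 else 0 := by
        intro e' _
        simp only [mem_product]
        by_cases h1 : e'.1 ∈ D <;> by_cases h2 : e'.2 ∈ D <;> simp [h1, h2]
      rw [sum_congr rfl this, ← sum_filter, sum_const, nsmul_eq_mul, mul_one]
      have : (H.filter (fun e' => e' ∈ D ×ˢ D)).card ≤ 4 := by
        calc _ ≤ (D ×ˢ D).card := card_le_card fun a ha => (mem_filter.mp ha).2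
          _ = D.card * D.card := card_product _ _
          _ ≤ 2 * 2 := Nat.mul_le_mul hDc hDc
      exact_mod_cast this
    have hδ0 : 0 ≤ δ := le_trans (sum_nonneg fun e' he' =>
      (hx _ (hH e' (mem_filter.mp he').1).2.1).1) (hδ1 e.1)
    have t2 : ∑ e' ∈ H, (if e'.1 ∈ D then (1 : ℝ) else 0) * x e'.2 ≤ 2 * δ := by
      clear * - ι H D x δ hδ1 hDc hδ0
      have : ∑ e' ∈ H, (if e'.1 ∈ D then (1 : ℝ) else 0) * x e'.2 =
          ∑ i ∈ D, ∑ e' ∈ H.filter (fun e' => e'.1 = i), x e'.2 := by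
        simp_rw [sum_filter]
        rw [sum_comm]
        refine sum_congr rfl fun e' _ => ?_
        rw [sum_ite_eq]
        split_ifs <;> simp
      rw [this]
      refine (sum_le_sum fun i _ => hδ1 i).trans ?_
      rw [sum_const, nsmul_eq_mul]
      have : (D.card : ℝ) ≤ 2 := by exact_mod_cast hDc
      gcongr
    have t3 : ∑ e' ∈ H, x e'.1 * (if e'.2 ∈ D then (1 : ℝ) else 0) ≤ 2 * δ := by
      have : ∑ e' ∈ H, x e'.1 * (if e'.2 ∈ D then (1 : ℝ) else 0) =
          ∑ i ∈ D, ∑ e' ∈ H.filter (fun e' => e'.2 = i), x e'.1 := by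
        simp_rw [sum_filter]
        rw [sum_comm]
        refine sum_congr rfl fun e' _ => ?_
        rw [sum_ite_eq]
        split_ifs <;> simp
      rw [this]
      refine (sum_le_sum fun i _ => hδ2 i).trans ?_
      rw [sum_const, nsmul_eq_mul]
      have : (D.card : ℝ) ≤ 2 := by exact_mod_cast hDc
      gcongr
    simp_rw [add_mul, mul_add, sum_add_distrib]
    linarith only [hδ, hw, t1, t2, t3]
  have pt : ∀ ω, cnt ω / 3 - cnt ω ^ 2 / 36 ≤
      (if ∃ e ∈ H, e.1 ∈ ω ∧ e.2 ∈ ω then (1 : ℝ) else 0) := by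
    clear * - ι cnt H
    intro ω
    split_ifs with h
    · linarith only [sq_nonneg (cnt ω / 6 - 1), sq_nonneg ((1 : ℝ) * cnt ω - (6 : ℝ) * (1 : ℝ))]
    · have : cnt ω = 0 := by
        refine sum_eq_zero fun e he => if_neg fun h' => h ⟨e, he, ?_, ?_⟩
        · exact h' (mem_insert_self _ _)
        · exact h' (mem_insert_of_mem (mem_singleton_self _))
      rw [this]; norm_num
  calc (∑ e ∈ H, x e.1 * x e.2) / 6
      ≤ (∑ ω ∈ Γ.powerset, wt Γ x ω * cnt ω) / 3 -
          (∑ ω ∈ Γ.powerset, wt Γ x ω * cnt ω ^ 2) / 36 := by rw [m1]; linarith only [m2]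
    _ = ∑ ω ∈ Γ.powerset, wt Γ x ω * (cnt ω / 3 - cnt ω ^ 2 / 36) := by
        rw [sum_div, sum_div, ← sum_sub_distrib]
        refine sum_congr rfl fun ω _ => by ring
    _ ≤ _ := sum_le_sum fun ω hω =>
        mul_le_mul_of_nonneg_left (pt ω) (wt_nonneg hx (mem_powerset.mp hω))

open Classical in
/-- Triples that are mutually related carry little weight. -/
lemma rare (R : Finset ι → Prop) (Γ : Finset ι) (pr : ι → ℝ) (s : ℕ) (lam pm μ θ : ℝ)
    (hlam : 0 ≤ lam)
    (H2 : ∀ T ⊆ Γ, ((aff R Γ T).card : ℝ) ≤ lam * T.card)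
    (hp0 : ∀ i ∈ Γ, 0 ≤ pr i) (hpm : ∀ i ∈ Γ, pr i ≤ pm) (hpm0 : 0 ≤ pm)
    (hμ : ∑ i ∈ Γ, pr i ≤ μ) (hθ : 0 < θ) (h1 : θ * pm ≤ 1)
    (h2 : lam * (s + 2) * θ * pm ≤ 1 / 4) (h3 : θ ^ 2 * μ * (lam * (s + 2)) * pm ≤ 1)
    (W : Finset ι) (hW : W ⊆ Γ) (hWs : W.card ≤ s) :
    ∑ q ∈ (Γ ×ˢ Γ ×ˢ Γ).filter (fun q => Tri R Γ W q.1 q.2.1 q.2.2), pr q.1 * pr q.2.1 ≤
      6 * lam * (s + θ * μ) / θ ^ 2 := by
  set x : ι → ℝ := fun i => θ * pr i with hx
  have hx01 : ∀ i ∈ Γ, 0 ≤ x i ∧ x i ≤ 1 := fun i hi =>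
    ⟨mul_nonneg hθ.le (hp0 i hi), le_trans (mul_le_mul_of_nonneg_left (hpm i hi) hθ.le) h1⟩
  set H : ι → Finset (ι × ι) := fun l => (Γ ×ˢ Γ).filter (fun e => Tri R Γ W e.1 e.2 l) with hH
  have hdeg : ∀ i ∈ Γ, ∀ l ∈ Γ, ((aff R Γ (insert i (insert l W))).card : ℝ) ≤ lam * (s + 2) := by
    intro i hi l hl
    refine (H2 _ (insert_subset hi (insert_subset hl hW))).trans ?_
    have : (insert i (insert l W)).card ≤ s + 2 :=
      (card_insert_le _ _).trans (by have := card_insert_le l W; omega)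
    have : ((insert i (insert l W)).card : ℝ) ≤ s + 2 := by exact_mod_cast this
    gcongr
  have d1 : ∀ l ∈ Γ, ∀ i, ∑ e ∈ (H l).filter (fun e => e.1 = i), pr e.2 ≤ lam * (s + 2) * pm := by
    intro l hl i
    by_cases hi : i ∈ Γ
    · calc _ ≤ ∑ _j ∈ aff R Γ (insert i (insert l W)), pm := by
            refine sum_le_sum_of_surj _ _ (fun j => (i, j)) _ _ (fun _ _ => hpm0) ?_
            rintro ⟨i', j⟩ he
            simp only [hH, mem_filter, mem_product] at he
            obtain ⟨⟨⟨_, hj⟩, ht⟩, rfl⟩ := he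
            exact ⟨j, ht.2.2.2, rfl, hpm j hj⟩
        _ ≤ _ := by
            rw [sum_const, nsmul_eq_mul]
            exact mul_le_mul_of_nonneg_right (hdeg i hi l hl) hpm0
    · rw [sum_eq_zero]
      · positivity
      · intro e he
        simp only [hH, mem_filter, mem_product] at he
        exact absurd (he.2 ▸ he.1.1.1) hi
  have d2 : ∀ l ∈ Γ, ∀ j, ∑ e ∈ (H l).filter (fun e => e.2 = j), pr e.1 ≤ lam * (s + 2) * pm := by
    intro l hl j
    by_cases hj : j ∈ Γ
    · calc _ ≤ ∑ _i ∈ aff R Γ (insert j (insert l W)), pm := by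
            refine sum_le_sum_of_surj _ _ (fun i => (i, j)) _ _ (fun _ _ => hpm0) ?_
            rintro ⟨i, j'⟩ he
            simp only [hH, mem_filter, mem_product] at he
            obtain ⟨⟨⟨hi, _⟩, ht⟩, rfl⟩ := he
            exact ⟨i, ht.2.2.1, rfl, hpm i hi⟩
        _ ≤ _ := by
            rw [sum_const, nsmul_eq_mul]
            exact mul_le_mul_of_nonneg_right (hdeg j hj l hl) hpm0
    · rw [sum_eq_zero]
      · positivity
      · intro e he
        simp only [hH, mem_filter, mem_product] at he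
        exact absurd (he.2 ▸ he.1.1.2) hj
  have hedge : ∀ l ∈ Γ, (∑ e ∈ H l, x e.1 * x e.2) / 6 ≤
      ∑ ω ∈ Γ.powerset, wt Γ x ω * (if ∃ e ∈ H l, e.1 ∈ ω ∧ e.2 ∈ ω then 1 else 0) := by
    intro l hl
    refine edge_prob Γ x hx01 (H l) ?_ (θ * (lam * (s + 2) * pm)) ?_ ?_ ?_ ?_
    · intro e he
      simp only [hH, mem_filter, mem_product] at he
      exact ⟨he.1.1, he.1.2, he.2.1⟩
    · intro i
      simp only [hx, ← mul_sum]
      exact mul_le_mul_of_nonneg_left (d1 l hl i) hθ.le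
    · intro j
      simp only [hx, ← mul_sum]
      exact mul_le_mul_of_nonneg_left (d2 l hl j) hθ.le
    · linarith only [h2]
    · have e1 : ∑ e ∈ H l, x e.1 * x e.2 =
          θ ^ 2 * ∑ i ∈ Γ, pr i * ∑ e ∈ (H l).filter (fun e => e.1 = i), pr e.2 := by
        rw [← sum_fiberwise_of_maps_to (s := H l) (t := Γ) (g := fun e => e.1), mul_sum]
        · refine sum_congr rfl fun i _ => ?_
          rw [mul_sum, mul_sum]
          refine sum_congr rfl fun e he => ?_
          rw [← (mem_filter.mp he).2]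
          simp only [hx]; ring
        · intro e he
          simp only [hH, mem_filter, mem_product] at he
          exact he.1.1
      rw [e1]
      have e2 : ∑ i ∈ Γ, pr i * ∑ e ∈ (H l).filter (fun e => e.1 = i), pr e.2 ≤
          μ * (lam * (s + 2) * pm) := by
        calc _ ≤ ∑ i ∈ Γ, pr i * (lam * (s + 2) * pm) :=
              sum_le_sum fun i hi => mul_le_mul_of_nonneg_left (d1 l hl i) (hp0 i hi)
          _ ≤ _ := by
              rw [← sum_mul]
              exact mul_le_mul_of_nonneg_right hμ (by positivity)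
      calc _ ≤ θ ^ 2 * (μ * (lam * (s + 2) * pm)) := by gcongr
        _ ≤ 1 := by linarith only [h3]
  have hcount : ∀ ω ∈ Γ.powerset,
      ∑ l ∈ Γ, (if ∃ e ∈ H l, e.1 ∈ ω ∧ e.2 ∈ ω then (1 : ℝ) else 0) ≤
        lam * (s + ∑ i ∈ Γ, if ({i} : Finset ι) ⊆ ω then (1 : ℝ) else 0) := by
    clear * - ι Γ H lam s R W hH hWs H2 hW hlam h1 h2
    intro ω hω
    have hω' := mem_powerset.mp hω
    have e1 : ∑ i ∈ Γ, (if ({i} : Finset ι) ⊆ ω then (1 : ℝ) else 0) = ω.card := by
      simp only [singleton_subset_iff]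
      rw [← sum_filter, sum_const, nsmul_eq_mul, mul_one]
      congr 2
      ext i; simp only [mem_filter]; exact ⟨fun h => h.2, fun h => ⟨hω' h, h⟩⟩
    rw [e1, ← sum_filter, sum_const, nsmul_eq_mul, mul_one]
    have e2 : Γ.filter (fun l => ∃ e ∈ H l, e.1 ∈ ω ∧ e.2 ∈ ω) ⊆ aff R Γ (ω ∪ W) := by
      intro l hl
      obtain ⟨_, e, he, h1, h2⟩ := mem_filter.mp hl
      simp only [hH, mem_filter, mem_product] at he
      refine aff_mono R Γ ?_ he.2.2.1
      exact insert_subset (mem_union_left _ h1)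
        (insert_subset (mem_union_left _ h2) subset_union_right)
    have e3 : ((ω ∪ W).card : ℝ) ≤ s + ω.card := by
      have := card_union_le ω W
      have : (ω ∪ W).card ≤ s + ω.card := by omega
      exact_mod_cast this
    calc _ ≤ ((aff R Γ (ω ∪ W)).card : ℝ) := by exact_mod_cast card_le_card e2
      _ ≤ lam * (ω ∪ W).card := H2 _ (union_subset hω' hW)
      _ ≤ _ := by gcongr
  have htot : ∑ l ∈ Γ, (∑ e ∈ H l, x e.1 * x e.2) / 6 ≤ lam * (s + θ * μ) := by
    clear * - ι Γ H x lam s θ μ hedge hcount hx01 pr hμ hθ hlam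
    refine (sum_le_sum hedge).trans ?_
    rw [sum_comm]
    simp_rw [← mul_sum]
    refine (sum_le_sum fun ω hω => mul_le_mul_of_nonneg_left (hcount ω hω)
      (wt_nonneg hx01 (mem_powerset.mp hω))).trans ?_
    have e1 : ∑ ω ∈ Γ.powerset, wt Γ x ω *
        (lam * (s + ∑ i ∈ Γ, if ({i} : Finset ι) ⊆ ω then (1 : ℝ) else 0)) =
        lam * (s * ∑ ω ∈ Γ.powerset, wt Γ x ω + ∑ i ∈ Γ, ∑ ω ∈ Γ.powerset,
          wt Γ x ω * (if ({i} : Finset ι) ⊆ ω then (1 : ℝ) else 0)) := by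
      rw [sum_comm (s := Γ), mul_sum, ← sum_add_distrib, mul_sum]
      refine sum_congr rfl fun ω _ => ?_
      rw [← mul_sum]; ring
    rw [e1, sum_wt, mul_one]
    have e2 : ∑ i ∈ Γ, ∑ ω ∈ Γ.powerset,
          wt Γ x ω * (if ({i} : Finset ι) ⊆ ω then (1 : ℝ) else 0) = θ * ∑ i ∈ Γ, pr i := by
      rw [mul_sum]
      refine sum_congr rfl fun i hi => ?_
      rw [sum_wt_superset Γ x (singleton_subset_iff.mpr hi), prod_singleton]
    rw [e2]
    gcongr
  have e4 : ∑ q ∈ (Γ ×ˢ Γ ×ˢ Γ).filter (fun q => Tri R Γ W q.1 q.2.1 q.2.2), pr q.1 * pr q.2.1 =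
      (∑ l ∈ Γ, (∑ e ∈ H l, x e.1 * x e.2) / 6) * 6 / θ ^ 2 := by
    rw [← sum_div, div_mul_cancel₀ _ (by norm_num : (6 : ℝ) ≠ 0), eq_div_iff (by positivity)]
    simp only [hH, sum_filter, sum_product]
    rw [sum_comm (s := Γ) (t := Γ) (f := fun l i => ∑ j ∈ Γ,
      if Tri R Γ W i j l then x i * x j else 0), sum_mul]
    refine sum_congr rfl fun i _ => ?_
    rw [sum_comm (s := Γ) (t := Γ) (f := fun l j => if Tri R Γ W i j l then x i * x j else 0),
      sum_mul]
    refine sum_congr rfl fun j _ => ?_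
    rw [sum_mul]
    refine sum_congr rfl fun l _ => ?_
    split_ifs
    · simp only [hx]; ring
    · simp
  rw [e4]
  refine div_le_div_of_nonneg_right ?_ (by positivity)
  linarith only [htot]

end Pool.Agent.Work.MP_c4c804_co
end

-- merged part: Pool.Agent.Work.MP_c4c804_co.Comb2
section
/-!
The main probabilistic lemma: locally sparse relations imply that no event occurs with
probability bounded below.
-/

set_option autoImplicit false

namespace Pool.Agent.Work.MP_c4c804_co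

open Finset

variable {ι : Type*} [DecidableEq ι] {Ω : Type*} [Fintype Ω]

lemma moment_expand (ν : Ω → ℝ) (f : ι → Ω → ℝ) (pr : ι → ℝ) (T : Finset ι) :
    ∑ c, ν c * ∏ i ∈ T, f i c =
      ∑ U ∈ T.powerset, (∏ i ∈ T \ U, pr i) * ∑ c, ν c * ∏ i ∈ U, (f i c - pr i) := by
  have h : ∀ c, ∏ i ∈ T, f i c =
      ∑ U ∈ T.powerset, (∏ i ∈ U, (f i c - pr i)) * ∏ i ∈ T \ U, pr i := by
    intro c
    rw [← prod_add]
    exact prod_congr rfl fun i _ => by ring
  simp_rw [h, mul_sum]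
  rw [sum_comm]
  refine sum_congr rfl fun U _ => sum_congr rfl fun c _ => by ring

lemma moment_approx (ν : Ω → ℝ) (f : ι → Ω → ℝ) (pr : ι → ℝ) (T : Finset ι) (η : ℝ) (hη : 0 ≤ η)
    (hpr : ∀ i ∈ T, 0 ≤ pr i ∧ pr i ≤ 1) (G : Finset (Finset ι)) (hG : G ⊆ T.powerset)
    (h : ∀ U ⊆ T, U ∉ G → |∑ c, ν c * ∏ i ∈ U, (f i c - pr i)| ≤ η) :
    |∑ c, ν c * ∏ i ∈ T, f i c -
      ∑ U ∈ G, (∏ i ∈ T \ U, pr i) * ∑ c, ν c * ∏ i ∈ U, (f i c - pr i)| ≤ 2 ^ T.card * η := by
  rw [moment_expand ν f pr T, ← sum_sdiff hG, add_sub_cancel_right]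
  refine (abs_sum_le_sum_abs _ _).trans ?_
  have h1 : ∀ U ∈ T.powerset \ G,
      |(∏ i ∈ T \ U, pr i) * ∑ c, ν c * ∏ i ∈ U, (f i c - pr i)| ≤ η := by
    intro U hU
    rw [mem_sdiff, mem_powerset] at hU
    have h2 : 0 ≤ ∏ i ∈ T \ U, pr i := prod_nonneg fun i hi => (hpr i (mem_sdiff.mp hi).1).1
    have h3 : ∏ i ∈ T \ U, pr i ≤ 1 :=
      prod_le_one (fun i hi => (hpr i (mem_sdiff.mp hi).1).1) fun i hi =>
        (hpr i (mem_sdiff.mp hi).1).2
    rw [abs_mul, abs_of_nonneg h2]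
    calc _ ≤ 1 * η := mul_le_mul h3 (h U hU.1 hU.2) (abs_nonneg _) zero_le_one
      _ = η := one_mul η
  refine (sum_le_sum h1).trans ?_
  rw [sum_const, nsmul_eq_mul]
  have : ((T.powerset \ G).card : ℝ) ≤ 2 ^ T.card := by
    have := card_le_card (sdiff_subset (s := T.powerset) (t := G))
    rw [card_powerset] at this
    exact_mod_cast this
  gcongr

/-- A set with no relation inside. -/
def Free (R : Finset ι → Prop) (S : Finset ι) : Prop := ∀ U ⊆ S, U.Nonempty → ¬ R U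

lemma moment_free (ν : Ω → ℝ) (hν1 : ∑ c, ν c = 1) (f : ι → Ω → ℝ) (pr : ι → ℝ) (T : Finset ι)
    (η : ℝ) (hη : 0 ≤ η) (hpr : ∀ i ∈ T, 0 ≤ pr i ∧ pr i ≤ 1) (R : Finset ι → Prop)
    (hT : Free R T)
    (h : ∀ U ⊆ T, U.Nonempty → ¬ R U → |∑ c, ν c * ∏ i ∈ U, (f i c - pr i)| ≤ η) :
    |∑ c, ν c * ∏ i ∈ T, f i c - ∏ i ∈ T, pr i| ≤ 2 ^ T.card * η := by
  have := moment_approx ν f pr T η hη hpr {∅} (by simp) (by
    intro U hU hU'
    have hne : U.Nonempty := nonempty_iff_ne_empty.mpr fun h => hU' (by simp [h])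
    exact h U hU hne (hT U hU hne))
  simpa [hν1] using this

lemma moment_pair (ν : Ω → ℝ) (hν1 : ∑ c, ν c = 1) (f : ι → Ω → ℝ) (pr : ι → ℝ)
    (hprd : ∀ i, pr i = ∑ c, ν c * f i c) (T : Finset ι)
    (η : ℝ) (hη : 0 ≤ η) (hpr : ∀ i ∈ T, 0 ≤ pr i ∧ pr i ≤ 1) (R : Finset ι → Prop)
    (i l : ι) (hil : i ≠ l) (hi : i ∈ T) (hl : l ∈ T)
    (hT : ∀ U ⊆ T, U.Nonempty → R U → U = {i, l})
    (h : ∀ U ⊆ T, U.Nonempty → ¬ R U → |∑ c, ν c * ∏ i ∈ U, (f i c - pr i)| ≤ η) :
    ∑ c, ν c * ∏ j ∈ T, f j c ≤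
      (∏ j ∈ T \ {i, l}, pr j) * (∑ c, ν c * (f i c * f l c)) + 2 ^ T.card * η := by
  have hsub : ({i, l} : Finset ι) ⊆ T := insert_subset hi (singleton_subset_iff.mpr hl)
  have hne : (∅ : Finset ι) ≠ {i, l} := (insert_ne_empty _ _).symm
  have := moment_approx ν f pr T η hη hpr {∅, {i, l}}
    (insert_subset (empty_mem_powerset _) (singleton_subset_iff.mpr (mem_powerset.mpr hsub))) (by
    intro U hU hU'
    have hne : U.Nonempty := nonempty_iff_ne_empty.mpr fun h => hU' (by simp [h])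
    refine h U hU hne fun hR => hU' ?_
    rw [hT U hU hne hR]; simp)
  rw [sum_pair hne] at this
  have e1 : ∏ j ∈ T \ ∅, pr j = (∏ j ∈ T \ {i, l}, pr j) * (pr i * pr l) := by
    rw [sdiff_empty, ← prod_pair (f := pr) hil, prod_sdiff hsub]
  have e2 : ∑ c, ν c * ∏ j ∈ ({i, l} : Finset ι), (f j c - pr j) =
      ∑ c, ν c * (f i c * f l c) - pr i * pr l := by
    simp_rw [prod_pair hil]
    have : ∀ c, ν c * ((f i c - pr i) * (f l c - pr l)) =
        ν c * (f i c * f l c) - pr l * (ν c * f i c) - pr i * (ν c * f l c) + pr i * pr l * ν c := by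
      intro c; ring
    simp_rw [this, sum_add_distrib, sum_sub_distrib, ← mul_sum]
    rw [← hprd, ← hprd, hν1]; ring
  rw [e1, e2] at this
  simp only [prod_empty, mul_one, hν1] at this
  have := (abs_le.mp this).2
  linarith

omit [DecidableEq ι] in
lemma sum_card_eq_le (Γ : Finset ι) (x : ι → ℝ) (hx : ∀ i ∈ Γ, 0 ≤ x i) (μ : ℝ)
    (hμ : ∑ i ∈ Γ, x i ≤ μ) (s : ℕ) :
    ∑ S ∈ Γ.powerset.filter (fun S => S.card = s), ∏ i ∈ S, x i ≤ Real.exp (2 * μ) / 2 ^ s := by
  rw [le_div_iff₀ (by positivity), sum_mul]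
  calc _ = ∑ S ∈ Γ.powerset.filter (fun S => S.card = s), ∏ i ∈ S, (2 * x i) := by
        refine sum_congr rfl fun S hS => ?_
        rw [prod_mul_distrib, prod_const, (mem_filter.mp hS).2, mul_comm]
    _ ≤ ∑ S ∈ Γ.powerset, ∏ i ∈ S, (2 * x i) :=
        sum_le_sum_of_subset_of_nonneg (filter_subset _ _) fun S hS _ =>
          prod_nonneg fun i hi => mul_nonneg zero_le_two (hx i (mem_powerset.mp hS hi))
    _ ≤ Real.exp (∑ i ∈ Γ, 2 * x i) :=
        sum_prod_le_exp Γ _ fun i hi => mul_nonneg zero_le_two (hx i hi)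
    _ ≤ _ := by rw [← mul_sum]; gcongr

omit [DecidableEq ι] in
lemma card_small_le (Γ : Finset ι) (n : ℝ) (hn : 1 ≤ n) (hΓ : (Γ.card : ℝ) ≤ n) (s : ℕ)
    (F : Finset (Finset ι)) (hF : ∀ S ∈ F, S ⊆ Γ ∧ S.card ≤ s) : (F.card : ℝ) ≤ 3 * n ^ s := by
  have hn0 : 0 < n := by linarith
  calc (F.card : ℝ) = ∑ _S ∈ F, (1 : ℝ) := by simp
    _ ≤ ∑ S ∈ F, n ^ s * ∏ _i ∈ S, (1 / n) := by
        refine sum_le_sum fun S hS => ?_
        rw [prod_const, one_div, inv_pow, ← div_eq_mul_inv, le_div_iff₀ (by positivity), one_mul]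
        exact pow_le_pow_right₀ hn (hF S hS).2
    _ ≤ ∑ S ∈ Γ.powerset, n ^ s * ∏ _i ∈ S, (1 / n) :=
        sum_le_sum_of_subset_of_nonneg (fun S hS => mem_powerset.mpr (hF S hS).1) fun S _ _ => by
          positivity
    _ ≤ n ^ s * Real.exp (∑ _i ∈ Γ, 1 / n) := by
        rw [← mul_sum]
        exact mul_le_mul_of_nonneg_left (sum_prod_le_exp Γ _ fun _ _ => by positivity)
          (by positivity)
    _ ≤ n ^ s * 3 := by
        gcongr
        rw [sum_const, nsmul_eq_mul]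
        have h1 : (Γ.card : ℝ) * (1 / n) ≤ 1 := by
          rw [mul_one_div, div_le_one hn0]; exact hΓ
        calc _ ≤ Real.exp 1 := Real.exp_le_exp.mpr h1
          _ ≤ 3 := by linarith only [Real.exp_one_lt_d9]
    _ = _ := by ring

open Classical in
theorem comb_main (ν : Ω → ℝ) (hν0 : ∀ c, 0 ≤ ν c) (hν1 : ∑ c, ν c = 1) (Γ : Finset ι)
    (f : ι → Ω → ℝ) (hf : ∀ i, ∀ c, 0 ≤ f i c ∧ f i c ≤ 1) (R : Finset ι → Prop) (s : ℕ)
    (lam η pm μ θ n : ℝ) (pr : ι → ℝ) (hprd : ∀ i, pr i = ∑ c, ν c * f i c)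
    (hη : 0 ≤ η) (hlam : 0 ≤ lam) (hn : 1 ≤ n) (hΓ : (Γ.card : ℝ) ≤ n)
    (H1 : ∀ U ⊆ Γ, U.Nonempty → U.card ≤ s + 1 → ¬ R U →
      |∑ c, ν c * ∏ i ∈ U, (f i c - pr i)| ≤ η)
    (H2 : ∀ T ⊆ Γ, ((aff R Γ T).card : ℝ) ≤ lam * T.card)
    (hpm : ∀ i ∈ Γ, pr i ≤ pm) (hpm0 : 0 ≤ pm) (hpm1 : pm ≤ 1 / 2)
    (hμ : ∑ i ∈ Γ, pr i ≤ μ) (hθ : 0 < θ) (h1 : θ * pm ≤ 1)
    (h2 : lam * (s + 2) * θ * pm ≤ 1 / 4) (h3 : θ ^ 2 * μ * (lam * (s + 2)) * pm ≤ 1) :
    Real.exp (-2 * μ) - 2 * μ * Real.exp (2 * μ) / 2 ^ s -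
      Real.exp μ * (lam * s * pm + 6 * lam * (s + θ * μ) / θ ^ 2 +
        ∑ e ∈ (Γ ×ˢ Γ).filter (fun e => e.1 ≠ e.2 ∧ R {e.1, e.2}),
          ∑ c, ν c * (f e.1 c * f e.2 c)) - 6 * n ^ (s + 1) * 2 ^ (s + 1) * η ≤
      ∑ c, ν c * ∏ i ∈ Γ, (1 - f i c) := by
  have hp0 : ∀ i, 0 ≤ pr i := fun i => by
    rw [hprd]; exact sum_nonneg fun c _ => mul_nonneg (hν0 c) (hf i c).1
  have hp01 : ∀ i ∈ Γ, 0 ≤ pr i ∧ pr i ≤ 1 := fun i hi => ⟨hp0 i, by linarith only [hpm1, hpm, hi, hpm i hi]⟩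
  have hμ0 : 0 ≤ μ := le_trans (sum_nonneg fun i _ => hp0 i) hμ
  set F : Finset (Finset ι) := Γ.powerset.filter (fun S => S.card ≤ s ∧ Free R S) with hFdef
  have hF : ∀ S, S ∈ F ↔ S ⊆ Γ ∧ S.card ≤ s ∧ Free R S := fun S => by
    simp only [hFdef, mem_filter, mem_powerset]
  have hdown : ∀ S ∈ F, ∀ T ⊆ S, T ∈ F := by
    intro S hS T hT
    rw [hF] at hS ⊢
    exact ⟨hT.trans hS.1, (card_le_card hT).trans hS.2.1, fun U hU => hS.2.2 U (hU.trans hT)⟩
  have h0 : ∅ ∈ F := by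
    rw [hF]
    refine ⟨empty_subset _, by simp, fun U hU hne => ?_⟩
    rw [subset_empty.mp hU] at hne
    exact absurd hne not_nonempty_empty
  have hFΓ : ∀ S ∈ F, S ⊆ Γ := fun S hS => ((hF S).mp hS).1
  have hbd : ∀ q, q ∈ bd F Γ ↔ (q.1 ∈ F ∧ q.2 ∈ Γ) ∧ q.2 ∉ q.1 ∧ insert q.2 q.1 ∉ F := fun q => by
    unfold bd; rw [mem_filter, mem_product]
  have hFcard : (F.card : ℝ) ≤ 3 * n ^ s :=
    card_small_le Γ n hn hΓ s F fun S hS => ⟨((hF S).mp hS).1, ((hF S).mp hS).2.1⟩
  have hbdcard : ((bd F Γ).card : ℝ) ≤ 3 * n ^ (s + 1) := by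
    clear * - ι F Γ n s hFcard hΓ hn
    have : (bd F Γ).card ≤ F.card * Γ.card := by
      rw [← card_product]; exact card_le_card (filter_subset _ _)
    calc _ ≤ (F.card : ℝ) * Γ.card := by exact_mod_cast this
      _ ≤ 3 * n ^ s * n := by gcongr
      _ = _ := by ring
  have hsumexp : ∑ S ∈ Γ.powerset, ∏ i ∈ S, pr i ≤ Real.exp μ :=
    (sum_prod_le_exp Γ pr fun i _ => hp0 i).trans (Real.exp_le_exp.mpr hμ)
  have hnosingle : ∀ l ∈ Γ, ¬ R {l} := by
    intro l hl hR
    have h := H2 ∅ (empty_subset _)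
    have : l ∈ aff R Γ ∅ := mem_aff.mpr ⟨hl, {l}, by simp, by simp, hR⟩
    have : 0 < (aff R Γ ∅).card := card_pos.mpr ⟨l, this⟩
    have : (0 : ℝ) < (aff R Γ ∅).card := by exact_mod_cast this
    simp only [card_empty, Nat.cast_zero, mul_zero] at h
    linarith only [this, h]
  -- moments of free sets
  have hfree : ∀ T ⊆ Γ, T.card ≤ s + 1 → Free R T →
      |∑ c, ν c * ∏ i ∈ T, f i c - ∏ i ∈ T, pr i| ≤ 2 ^ (s + 1) * η := by
    intro T hT hc hfr
    refine (moment_free ν hν1 f pr T η hη (fun i hi => hp01 i (hT hi)) R hfr fun U hU hne hR =>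
      H1 U (hU.trans hT) hne ((card_le_card hU).trans hc) hR).trans ?_
    gcongr
    norm_num
  -- Bonferroni for the true model
  have A1 : ∑ S ∈ F, (-1 : ℝ) ^ S.card * (∑ c, ν c * ∏ i ∈ S, f i c) -
      ∑ q ∈ bd F Γ, (∑ c, ν c * ∏ i ∈ insert q.2 q.1, f i c) ≤
      ∑ c, ν c * ∏ i ∈ Γ, (1 - f i c) := by
    simp_rw [mul_sum]
    rw [sum_comm (s := F), sum_comm (s := bd F Γ), ← sum_sub_distrib]
    refine sum_le_sum fun c _ => ?_
    have hb := (abs_le.mp (bonf F hdown h0 Γ hFΓ (fun i => f i c) fun i _ => hf i c)).1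
    have e1 : ∑ S ∈ F, (-1 : ℝ) ^ S.card * (ν c * ∏ i ∈ S, f i c) =
        ν c * ∑ S ∈ F, (-1 : ℝ) ^ S.card * ∏ i ∈ S, f i c := by
      rw [mul_sum]; exact sum_congr rfl fun S _ => by ring
    rw [e1, ← mul_sum, ← mul_sub]
    exact mul_le_mul_of_nonneg_left (by linarith only [hb]) (hν0 c)
  -- Bonferroni for the independent model
  have A2 : Real.exp (-2 * μ) - ∑ q ∈ bd F Γ, ∏ i ∈ insert q.2 q.1, pr i ≤
      ∑ S ∈ F, (-1 : ℝ) ^ S.card * ∏ i ∈ S, pr i := by
    have hb := (abs_le.mp (bonf F hdown h0 Γ hFΓ pr hp01)).2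
    have h4 := exp_le_prod_one_sub Γ pr fun i hi => ⟨hp0 i, (hpm i hi).trans hpm1⟩
    have h5 : Real.exp (-2 * μ) ≤ Real.exp (-2 * ∑ i ∈ Γ, pr i) :=
      Real.exp_le_exp.mpr (by linarith only [hμ])
    linarith only [hb, h4, h5]
  have A3 : ∑ S ∈ F, (-1 : ℝ) ^ S.card * ∏ i ∈ S, pr i - 3 * n ^ (s + 1) * 2 ^ (s + 1) * η ≤
      ∑ S ∈ F, (-1 : ℝ) ^ S.card * (∑ c, ν c * ∏ i ∈ S, f i c) := by
    clear * - ι F pr Ω ν f s η hfree Γ R hF n hn hFcard hη
    have h4 : ∀ S ∈ F, (-1 : ℝ) ^ S.card * ∏ i ∈ S, pr i ≤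
        (-1 : ℝ) ^ S.card * (∑ c, ν c * ∏ i ∈ S, f i c) + 2 ^ (s + 1) * η := by
      intro S hS
      rw [hF] at hS
      have h5 := abs_le.mp (hfree S hS.1 (by omega) hS.2.2)
      rcases neg_one_pow_eq_or ℝ S.card with h | h <;> rw [h] <;> linarith only [h5, h5.1, h5.2]
    have h5 := sum_le_sum h4
    rw [sum_add_distrib, sum_const, nsmul_eq_mul] at h5
    have h6 : (F.card : ℝ) * (2 ^ (s + 1) * η) ≤ 3 * n ^ (s + 1) * (2 ^ (s + 1) * η) := by
      have : n ^ s ≤ n ^ (s + 1) := pow_le_pow_right₀ hn (by omega)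
      gcongr
      linarith
    linarith
  -- boundary pairs of the first kind
  have B1 : ∑ q ∈ (bd F Γ).filter (fun q => Free R (insert q.2 q.1)),
      ∏ i ∈ insert q.2 q.1, pr i ≤ μ * Real.exp (2 * μ) / 2 ^ s := by
    clear * - ι R F Γ pr μ s hp0 hF hbd hμ
    calc _ ≤ ∑ q ∈ Γ.powerset.filter (fun S => S.card = s) ×ˢ Γ, (∏ i ∈ q.1, pr i) * pr q.2 := by
          refine sum_le_sum_of_surj _ _ id _ _
            (fun q _ => mul_nonneg (prod_nonneg fun i _ => hp0 i) (hp0 _)) ?_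
          intro q hq
          rw [mem_filter, hbd, hF, hF] at hq
          obtain ⟨⟨⟨⟨a1, a2, _⟩, a4⟩, a5, a6⟩, a7⟩ := hq
          refine ⟨q, ?_, rfl, ?_⟩
          · rw [mem_product, mem_filter, mem_powerset]
            refine ⟨⟨a1, ?_⟩, a4⟩
            by_contra hne
            refine a6 ⟨insert_subset a4 a1, ?_, a7⟩
            rw [card_insert_of_notMem a5]; omega
          · rw [prod_insert a5, mul_comm]
      _ = (∑ S ∈ Γ.powerset.filter (fun S => S.card = s), ∏ i ∈ S, pr i) * ∑ l ∈ Γ, pr l := by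
          rw [sum_product, sum_mul_sum]
      _ ≤ Real.exp (2 * μ) / 2 ^ s * μ :=
          mul_le_mul (sum_card_eq_le Γ pr (fun i _ => hp0 i) μ hμ s) hμ
            (sum_nonneg fun i _ => hp0 i) (by positivity)
      _ = _ := by ring
  -- structure of boundary pairs of the second kind
  have hrel : ∀ q ∈ bd F Γ, ∀ U ⊆ insert q.2 q.1, U.Nonempty → R U → q.2 ∈ U := by
    intro q hq U hU hne hR
    rw [hbd, hF] at hq
    by_contra h
    exact hq.1.1.2.2 U ((subset_insert_iff_of_notMem h).mp hU) hne hR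
  have B2 : ∑ q ∈ (bd F Γ).filter (fun q => ¬ Free R (insert q.2 q.1)),
      ∏ i ∈ insert q.2 q.1, pr i ≤ Real.exp μ * (lam * s * pm) := by
    clear * - ι R F Γ pr lam s pm μ hp0 hpm0 hbd hrel hpm H2 hF hlam hsumexp
    calc _ ≤ ∑ q ∈ F.sigma (fun S => aff R Γ S), (∏ i ∈ q.1, pr i) * pm := by
          refine sum_le_sum_of_surj _ _ (fun q => (q.1, q.2)) _ _
            (fun q _ => mul_nonneg (prod_nonneg fun i _ => hp0 i) hpm0) ?_
          intro q hq
          rw [mem_filter] at hq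
          obtain ⟨hq1, hq2⟩ := hq
          have hq3 := (hbd q).mp hq1
          unfold Free at hq2
          push Not at hq2
          obtain ⟨U, hU, hne, hR⟩ := hq2
          refine ⟨⟨q.1, q.2⟩, ?_, rfl, ?_⟩
          · rw [mem_sigma]
            exact ⟨hq3.1.1, mem_aff.mpr ⟨hq3.1.2, U, hU, hrel q hq1 U hU hne hR, hR⟩⟩
          · rw [prod_insert hq3.2.1, mul_comm]
            exact mul_le_mul_of_nonneg_left (hpm _ hq3.1.2) (prod_nonneg fun i _ => hp0 i)
      _ ≤ ∑ S ∈ F, (∏ i ∈ S, pr i) * (lam * s * pm) := by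
          rw [sum_sigma]
          refine sum_le_sum fun S hS => ?_
          simp only [sum_const, nsmul_eq_mul]
          rw [hF] at hS
          have h4 : ((aff R Γ S).card : ℝ) ≤ lam * s := by
            refine (H2 S hS.1).trans ?_
            have : (S.card : ℝ) ≤ s := by exact_mod_cast hS.2.1
            gcongr
          have h5 : 0 ≤ ∏ i ∈ S, pr i := prod_nonneg fun i _ => hp0 i
          calc _ ≤ lam * s * ((∏ i ∈ S, pr i) * pm) := by gcongr
            _ = _ := by ring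
      _ ≤ _ := by
          rw [← sum_mul]
          refine mul_le_mul_of_nonneg_right ?_ (by positivity)
          exact le_trans (sum_le_sum_of_subset_of_nonneg (filter_subset _ _) fun S _ _ =>
            prod_nonneg fun i _ => hp0 i) hsumexp
  set P2 : Finset ι × ι → Prop := fun q =>
    ∃ i ∈ q.1, ∀ U ⊆ insert q.2 q.1, U.Nonempty → R U → U = {i, q.2} with hP2
  set E2 : ι × ι → ℝ := fun e => ∑ c, ν c * (f e.1 c * f e.2 c) with hE2
  have hE20 : ∀ e, 0 ≤ E2 e := fun e =>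
    sum_nonneg fun c _ => mul_nonneg (hν0 c) (mul_nonneg (hf _ c).1 (hf _ c).1)
  have hcardq : ∀ q ∈ bd F Γ, (insert q.2 q.1).card ≤ s + 1 := by
    intro q hq
    rw [hbd, hF] at hq
    have := card_insert_le q.2 q.1
    omega
  have hsubq : ∀ q ∈ bd F Γ, insert q.2 q.1 ⊆ Γ := by
    intro q hq
    rw [hbd, hF] at hq
    exact insert_subset hq.1.2 hq.1.1.1
  have C1 : ∑ q ∈ (bd F Γ).filter (fun q => Free R (insert q.2 q.1)),
      ((∑ c, ν c * ∏ i ∈ insert q.2 q.1, f i c) - 2 ^ (s + 1) * η) ≤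
      μ * Real.exp (2 * μ) / 2 ^ s := by
    refine le_trans (sum_le_sum fun q hq => ?_) B1
    rw [mem_filter] at hq
    have := (abs_le.mp (hfree _ (hsubq q hq.1) (hcardq q hq.1) hq.2)).2
    linarith only [this]
  have C2 : ∑ q ∈ ((bd F Γ).filter (fun q => ¬ Free R (insert q.2 q.1))).filter P2,
      ((∑ c, ν c * ∏ i ∈ insert q.2 q.1, f i c) - 2 ^ (s + 1) * η) ≤
      Real.exp μ * ∑ e ∈ (Γ ×ˢ Γ).filter (fun e => e.1 ≠ e.2 ∧ R {e.1, e.2}), E2 e := by
    clear * - ι P2 R F Γ Ω ν f s η pr E2 μ hp0 hE20 hbd hF hν1 hprd hη hp01 hsubq H1 hcardq hE2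
      hsumexp h3
    calc _ ≤ ∑ y ∈ Γ.powerset ×ˢ (Γ ×ˢ Γ).filter (fun e => e.1 ≠ e.2 ∧ R {e.1, e.2}),
          (∏ i ∈ y.1, pr i) * E2 y.2 := by
          refine sum_le_sum_of_surj _ _ (fun y => (insert y.2.1 y.1, y.2.2)) _ _
            (fun q _ => mul_nonneg (prod_nonneg fun i _ => hp0 i) (hE20 _)) ?_
          intro q hq
          rw [mem_filter, mem_filter] at hq
          obtain ⟨⟨hq1, hq2⟩, i, hi, hU⟩ := hq
          have hq3 := (hbd q).mp hq1
          have hS := (hF _).mp hq3.1.1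
          have hil : i ≠ q.2 := fun h => hq3.2.1 (h ▸ hi)
          unfold Free at hq2
          push Not at hq2
          obtain ⟨U0, hU0, hne, hR⟩ := hq2
          refine ⟨(q.1.erase i, (i, q.2)), ?_, ?_, ?_⟩
          · rw [mem_product, mem_powerset, mem_filter, mem_product]
            exact ⟨(erase_subset _ _).trans hS.1, ⟨hS.1 hi, hq3.1.2⟩, hil, hU U0 hU0 hne hR ▸ hR⟩
          · simp only [insert_erase hi]
          · have h4 := moment_pair ν hν1 f pr hprd (insert q.2 q.1) η hη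
              (fun j hj => hp01 j (hsubq q hq1 hj)) R i q.2 hil (mem_insert_of_mem hi)
              (mem_insert_self _ _) hU fun U hU' hne' hR' =>
                H1 U (hU'.trans (hsubq q hq1)) hne' ((card_le_card hU').trans (hcardq q hq1)) hR'
            have e1 : insert q.2 q.1 \ {i, q.2} = q.1.erase i := by
              ext a
              simp only [mem_sdiff, mem_insert, mem_singleton, mem_erase]
              constructor
              · rintro ⟨h | h, h'⟩
                · exact absurd (Or.inr h) h'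
                · exact ⟨fun h'' => h' (Or.inl h''), h⟩
              · rintro ⟨h, h'⟩
                exact ⟨Or.inr h', fun h'' => h''.elim h fun h3 => hq3.2.1 (h3 ▸ h')⟩
            rw [e1] at h4
            have h5 : (2 : ℝ) ^ (insert q.2 q.1).card * η ≤ 2 ^ (s + 1) * η := by
              gcongr
              · norm_num
              · exact hcardq q hq1
            simp only [hE2]
            linarith only [h4, h5]
      _ ≤ _ := by
          rw [sum_product]
          simp only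
          rw [← sum_mul_sum]
          exact mul_le_mul_of_nonneg_right hsumexp (sum_nonneg fun e _ => hE20 e)
  have C3 : ∑ q ∈ ((bd F Γ).filter (fun q => ¬ Free R (insert q.2 q.1))).filter
      (fun q => ¬ P2 q), ((∑ c, ν c * ∏ i ∈ insert q.2 q.1, f i c) - 2 ^ (s + 1) * η) ≤
      Real.exp μ * (6 * lam * (s + θ * μ) / θ ^ 2) := by
    clear * - ι P2 R F Γ Ω ν f s η pr lam θ μ hp0 hbd hF hrel hnosingle hP2 hfree hf hν0 pm hlam
      H2 hpm hpm0 hμ hθ h1 h2 h3 hsumexp hμ0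
    calc _ ≤ ∑ y ∈ (Γ.powerset.filter (fun W => W.card ≤ s)).sigma
          (fun W => (Γ ×ˢ Γ ×ˢ Γ).filter (fun q => Tri R Γ W q.1 q.2.1 q.2.2)),
          (∏ i ∈ y.1, pr i) * (pr y.2.1 * pr y.2.2.1) := by
          refine sum_le_sum_of_surj _ _ (fun y => (insert y.2.1 (insert y.2.2.1 y.1), y.2.2.2)) _ _
            (fun q _ => mul_nonneg (prod_nonneg fun i _ => hp0 i) (mul_nonneg (hp0 _) (hp0 _))) ?_
          rintro ⟨S, l⟩ hq
          rw [mem_filter, mem_filter] at hq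
          obtain ⟨⟨hq1, hq2⟩, hq4⟩ := hq
          have hq3 := (hbd _).mp hq1
          have hS := (hF _).mp hq3.1.1
          have hrel' := hrel _ hq1
          simp only at hq3 hS hq2 hrel'
          unfold Free at hq2
          push Not at hq2
          obtain ⟨U0, hU0, hne, hR⟩ := hq2
          have hl0 : l ∈ U0 := hrel' U0 hU0 hne hR
          have hex : ∀ U ⊆ insert l S, U.Nonempty → R U → ∃ i ∈ U, i ≠ l := by
            intro U hU hne hR
            by_contra h
            push Not at h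
            have : U = {l} := eq_singleton_iff_unique_mem.mpr ⟨hrel' U hU hne hR, h⟩
            exact hnosingle l hq3.1.2 (this ▸ hR)
          obtain ⟨i, hi0, hil⟩ := hex U0 hU0 hne hR
          have hiS : i ∈ S := (mem_insert.mp (hU0 hi0)).resolve_left hil
          simp only [hP2, not_exists, not_and, not_forall] at hq4
          obtain ⟨U1, hU1, hne1, hR1, hU1ne⟩ := hq4 i hiS
          have hj : ∃ j ∈ U1, j ≠ i ∧ j ≠ l := by
            by_contra h
            push Not at h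
            apply hU1ne
            obtain ⟨i', hi', hi'l⟩ := hex U1 hU1 hne1 hR1
            have hii : i' = i := by
              by_contra h'
              exact hi'l (h i' hi' h')
            ext a
            simp only [mem_insert, mem_singleton]
            constructor
            · intro ha
              by_cases h' : a = i
              · exact Or.inl h'
              · exact Or.inr (h a ha h')
            · rintro (rfl | rfl)
              · exact hii ▸ hi'
              · exact hrel' U1 hU1 hne1 hR1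
          obtain ⟨j, hj1, hji, hjl⟩ := hj
          have hjS : j ∈ S := (mem_insert.mp (hU1 hj1)).resolve_left hjl
          set W := (S.erase i).erase j with hW
          have hjW : j ∉ W := notMem_erase _ _
          have hiW : i ∉ insert j W := by
            rw [mem_insert]
            rintro (h | h)
            · exact hji h.symm
            · exact notMem_erase i S (mem_of_mem_erase h)
          have eS : insert i (insert j W) = S := by
            rw [hW, insert_erase (mem_erase.mpr ⟨hji, hjS⟩), insert_erase hiS]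
          have hWS : W ⊆ S := (erase_subset _ _).trans (erase_subset _ _)
          refine ⟨⟨W, (i, j, l)⟩, ?_, ?_, ?_⟩
          · rw [mem_sigma, mem_filter, mem_powerset, mem_filter, mem_product, mem_product]
            refine ⟨⟨hWS.trans hS.1, (card_le_card hWS).trans hS.2.1⟩,
              ⟨hS.1 hiS, hS.1 hjS, hq3.1.2⟩, hji.symm, ?_, ?_, ?_⟩
            · exact mem_aff.mpr ⟨hq3.1.2, U0, eS ▸ hU0, hl0, hR⟩
            · refine mem_aff.mpr ⟨hS.1 hiS, U0, hU0.trans ?_, hi0, hR⟩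
              rw [← eS]
              intro a; simp only [mem_insert]
              rintro (h | h | h | h) <;> simp only [h, true_or, or_true]
            · refine mem_aff.mpr ⟨hS.1 hjS, U1, hU1.trans ?_, hj1, hR1⟩
              rw [← eS]
              intro a; simp only [mem_insert]
              rintro (h | h | h | h) <;> simp only [h, true_or, or_true]
          · simp only [eS]
          · have h4 := (abs_le.mp (hfree S hS.1 (by omega) hS.2.2)).2
            have h5 : ∑ c, ν c * ∏ a ∈ insert l S, f a c ≤ ∑ c, ν c * ∏ a ∈ S, f a c := by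
              refine sum_le_sum fun c _ => mul_le_mul_of_nonneg_left ?_ (hν0 c)
              rw [prod_insert hq3.2.1]
              exact mul_le_of_le_one_left (prod_nonneg fun a _ => (hf a c).1) (hf l c).2
            have h6 : ∏ a ∈ S, pr a = (∏ a ∈ W, pr a) * (pr i * pr j) := by
              rw [← eS, prod_insert hiW, prod_insert hjW]; ring
            simp only
            linarith only [h4, h5, h6]
      _ ≤ ∑ W ∈ Γ.powerset.filter (fun W => W.card ≤ s),
          (∏ i ∈ W, pr i) * (6 * lam * (s + θ * μ) / θ ^ 2) := by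
          rw [sum_sigma]
          refine sum_le_sum fun W hW => ?_
          rw [mem_filter, mem_powerset] at hW
          simp only [← mul_sum]
          exact mul_le_mul_of_nonneg_left
            (rare R Γ pr s lam pm μ θ hlam H2 (fun i _ => hp0 i) hpm hpm0 hμ hθ h1 h2 h3 W
              hW.1 hW.2) (prod_nonneg fun i _ => hp0 i)
      _ ≤ _ := by
          rw [← sum_mul]
          refine mul_le_mul_of_nonneg_right ?_ (by positivity)
          exact le_trans (sum_le_sum_of_subset_of_nonneg (filter_subset _ _) fun S _ _ =>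
            prod_nonneg fun i _ => hp0 i) hsumexp
  have D1 : ∑ q ∈ bd F Γ, ∏ i ∈ insert q.2 q.1, pr i ≤
      μ * Real.exp (2 * μ) / 2 ^ s + Real.exp μ * (lam * s * pm) := by
    rw [← sum_filter_add_sum_filter_not (bd F Γ) (fun q => Free R (insert q.2 q.1))]
    linarith only [B1, B2]
  have D2 : ∑ q ∈ bd F Γ, ((∑ c, ν c * ∏ i ∈ insert q.2 q.1, f i c) - 2 ^ (s + 1) * η) ≤
      μ * Real.exp (2 * μ) / 2 ^ s + Real.exp μ * (6 * lam * (s + θ * μ) / θ ^ 2) +
      Real.exp μ * ∑ e ∈ (Γ ×ˢ Γ).filter (fun e => e.1 ≠ e.2 ∧ R {e.1, e.2}), E2 e := by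
    rw [← sum_filter_add_sum_filter_not (bd F Γ) (fun q => Free R (insert q.2 q.1)),
      ← sum_filter_add_sum_filter_not ((bd F Γ).filter (fun q => ¬ Free R (insert q.2 q.1))) P2]
    linarith only [C1, C2, C3]
  rw [sum_sub_distrib, sum_const, nsmul_eq_mul] at D2
  have D3 : ((bd F Γ).card : ℝ) * (2 ^ (s + 1) * η) ≤ 3 * n ^ (s + 1) * (2 ^ (s + 1) * η) := by
    gcongr
  have e9 : 2 * μ * Real.exp (2 * μ) / 2 ^ s =
      μ * Real.exp (2 * μ) / 2 ^ s + μ * Real.exp (2 * μ) / 2 ^ s := by ring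
  rw [e9]
  simp only [hE2] at D2
  clear * - μ s lam pm θ ι R Γ E2 n η Ω ν f F pr A1 A2 A3 D1 D3 D2
  linarith only [A1, A2, A3, D1, D3, D2]

end Pool.Agent.Work.MP_c4c804_co
end
end

-- merged part: Pool.Agent.Work.MP_c4c804_co.Center
section
-- merged part: Pool.Agent.Work.MP_c4c804_co.Chord
section
/-!
Chord length on the cyclic group, Dirichlet kernels and a bump function.
-/

set_option autoImplicit false

namespace Pool.Agent.Work.MP_c4c804_co

open Finset

variable {p : ℕ} [NeZero p]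

/-- The standard additive character. -/
noncomputable def ec (x : ZMod p) : ℂ := ZMod.stdAddChar x

/-- The chord length between the character value and one. -/
noncomputable def chord (x : ZMod p) : ℝ := ‖ec x - 1‖

lemma ec_add (x y : ZMod p) : ec (x + y) = ec x * ec y := AddChar.map_add_eq_mul _ _ _

@[simp] lemma ec_zero : ec (0 : ZMod p) = 1 := AddChar.map_zero_eq_one _

@[simp] lemma norm_ec (x : ZMod p) : ‖ec x‖ = 1 := by
  unfold ec; rw [ZMod.stdAddChar_apply]; exact Circle.norm_coe _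

lemma ec_neg_mul (x : ZMod p) : ec (-x) * ec x = 1 := by
  rw [← ec_add]; simp

lemma conj_ec (x : ZMod p) : (starRingEnd ℂ) (ec x) = ec (-x) := by
  have h1 : (starRingEnd ℂ) (ec x) * ec x = 1 := by
    rw [mul_comm, Complex.mul_conj, Complex.normSq_eq_norm_sq, norm_ec]; simp
  have h2 := ec_neg_mul x
  have h3 : ec x ≠ 0 := by
    intro h; have := norm_ec x; rw [h] at this; simp at this
  exact mul_right_cancel₀ h3 (h1.trans h2.symm)

lemma chord_nonneg (x : ZMod p) : 0 ≤ chord x := norm_nonneg _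

@[simp] lemma chord_zero : chord (0 : ZMod p) = 0 := by simp [chord]

lemma chord_le_two (x : ZMod p) : chord x ≤ 2 := by
  unfold chord
  calc ‖ec x - 1‖ ≤ ‖ec x‖ + ‖(1 : ℂ)‖ := norm_sub_le _ _
    _ = 2 := by simp; norm_num

lemma norm_ec_sub (x y : ZMod p) : ‖ec x - ec y‖ = chord (x - y) := by
  unfold chord
  have : ec x - ec y = (ec (x - y) - 1) * ec y := by
    rw [sub_mul, ← ec_add]; simp
  rw [this, norm_mul, norm_ec, mul_one]

lemma chord_neg (x : ZMod p) : chord (-x) = chord x := by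
  have h1 := norm_ec_sub (0 : ZMod p) x
  rw [zero_sub] at h1
  rw [← h1, norm_sub_rev]; simp [chord]

lemma chord_sub_comm (x y : ZMod p) : chord (x - y) = chord (y - x) := by
  rw [← chord_neg]; congr 1; ring

lemma chord_add (x y : ZMod p) : chord (x + y) ≤ chord x + chord y := by
  have h1 := norm_ec_sub (x + y) y
  rw [add_sub_cancel_right] at h1
  unfold chord at *
  calc ‖ec (x + y) - 1‖ = ‖(ec (x + y) - ec y) + (ec y - 1)‖ := by congr 1; ring
    _ ≤ ‖ec (x + y) - ec y‖ + ‖ec y - 1‖ := norm_add_le _ _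
    _ = _ := by rw [h1]

lemma chord_sub (x y : ZMod p) : chord (x - y) ≤ chord x + chord y := by
  rw [sub_eq_add_neg]; have := chord_add x (-y); rwa [chord_neg] at this

lemma chord_nat_mul (k : ℕ) (x : ZMod p) : chord ((k : ZMod p) * x) ≤ k * chord x := by
  induction k with
  | zero => simp
  | succ k ih =>
    push_cast
    rw [add_mul, one_mul, add_mul, one_mul]
    exact (chord_add _ _).trans (by linarith)

lemma chord_int_mul (k : ℤ) (x : ZMod p) : chord ((k : ZMod p) * x) ≤ |(k : ℝ)| * chord x := by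
  rcases Int.eq_nat_or_neg k with ⟨m, rfl | rfl⟩
  · simpa using chord_nat_mul m x
  · push_cast
    rw [neg_mul, chord_neg, abs_neg]
    simpa using chord_nat_mul m x

lemma chord_sum {ι : Type*} (s : Finset ι) (f : ι → ZMod p) :
    chord (∑ i ∈ s, f i) ≤ ∑ i ∈ s, chord (f i) := by
  classical
  induction s using Finset.induction_on with
  | empty => simp
  | insert a s ha ih =>
    rw [sum_insert ha, sum_insert ha]
    exact (chord_add _ _).trans (by linarith)

lemma ec_intCast (j : ℤ) : ec (j : ZMod p) = Complex.exp (Complex.I * ((2 * Real.pi * j / p : ℝ) : ℂ)) := by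
  unfold ec
  rw [ZMod.stdAddChar_coe]
  congr 1
  push_cast
  ring

lemma chord_intCast_le (j : ℤ) : chord (j : ZMod p) ≤ 7 * |(j : ℝ)| / p := by
  unfold chord
  rw [ec_intCast]
  refine Real.norm_exp_I_mul_ofReal_sub_one_le.trans ?_
  have hp : (0 : ℝ) < p := Nat.cast_pos.mpr (NeZero.pos p)
  rw [Real.norm_eq_abs, abs_div, abs_mul, abs_mul, abs_of_pos hp, abs_of_pos Real.pi_pos]
  have := Real.pi_lt_d2
  gcongr
  rw [abs_of_pos (by norm_num : (0:ℝ) < 2)]
  linarith only [this]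

lemma valMinAbs_le_chord (x : ZMod p) : 4 * |(x.valMinAbs : ℝ)| / p ≤ chord x := by
  have hp : (0 : ℝ) < p := Nat.cast_pos.mpr (NeZero.pos p)
  conv_rhs => rw [← ZMod.coe_valMinAbs x]
  unfold chord
  rw [ec_intCast, Complex.norm_exp_I_mul_ofReal_sub_one]
  set v : ℝ := (x.valMinAbs : ℝ) with hv
  have h1 : |v| * 2 ≤ p := by
    have := x.valMinAbs_mem_Ioc
    have h2 : (-(p : ℝ)) < v * 2 := by rw [hv]; exact_mod_cast this.1
    have h3 : v * 2 ≤ (p : ℝ) := by rw [hv]; exact_mod_cast this.2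
    rcases abs_cases v with h | h <;> linarith only [h3, h, h2, h.1]
  have h2 : |2 * Real.pi * v / p / 2| = Real.pi * |v| / p := by
    rw [show 2 * Real.pi * v / p / 2 = Real.pi * v / p by ring, abs_div, abs_mul,
      abs_of_pos hp, abs_of_pos Real.pi_pos]
  have h3 : |2 * Real.pi * v / p / 2| ≤ Real.pi / 2 := by
    rw [h2, div_le_div_iff₀ hp (by norm_num)]
    linarith only [h1, Real.pi_pos, mul_nonneg_of_nonpos_of_nonpos (Mathlib.Tactic.Linarith.sub_nonpos_of_le h1) (le_of_lt (Mathlib.Tactic.Linarith.sub_neg_of_lt Real.pi_pos))]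
  have h4 := Real.mul_abs_le_abs_sin h3
  rw [h2] at h4
  rw [Real.norm_eq_abs, abs_mul, abs_of_pos (by norm_num : (0:ℝ) < 2)]
  have h5 : 2 / Real.pi * (Real.pi * |v| / p) = 2 * |v| / p := by
    field_simp
  rw [h5] at h4
  calc 4 * |v| / p = 2 * (2 * |v| / p) := by ring
    _ ≤ _ := by linarith only [h4]

open Classical in
lemma card_chord_le (σ : ℝ) (hσ : 0 ≤ σ) :
    ((univ.filter (fun u : ZMod p => chord u ≤ σ)).card : ℝ) ≤ σ * p / 2 + 1 := by
  have hp : (0 : ℝ) < p := Nat.cast_pos.mpr (NeZero.pos p)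
  set m : ℕ := ⌊σ * p / 4⌋₊ with hm
  have h1 : (univ.filter (fun u : ZMod p => chord u ≤ σ)).card ≤ (Finset.Icc (-(m : ℤ)) m).card := by
    refine Finset.card_le_card_of_injOn (fun u => u.valMinAbs) ?_ ?_
    · intro u hu
      have hu' : chord u ≤ σ := by simpa using hu
      have h2 := (valMinAbs_le_chord u).trans hu'
      rw [div_le_iff₀ hp] at h2
      have h3 : ((u.valMinAbs.natAbs : ℕ) : ℝ) ≤ σ * p / 4 := by
        rw [Nat.cast_natAbs]; push_cast; linarith only [h2]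
      have h4 : u.valMinAbs.natAbs ≤ m := Nat.le_floor h3
      simp only [coe_Icc, Set.mem_Icc]
      omega
    · intro u _ v _ h
      exact ZMod.injective_valMinAbs h
  have h2 : (Finset.Icc (-(m : ℤ)) m).card = 2 * m + 1 := by
    rw [Int.card_Icc]; omega
  have h3 : (m : ℝ) ≤ σ * p / 4 := Nat.floor_le (by positivity)
  calc _ ≤ ((2 * m + 1 : ℕ) : ℝ) := by exact_mod_cast h2 ▸ h1
    _ ≤ _ := by push_cast; linarith only [h3]

/-- The Dirichlet kernel. -/
noncomputable def dir (Q : ℕ) (x : ZMod p) : ℂ := ∑ j ∈ range Q, ec ((j : ZMod p) * x)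

lemma normSq_dir (Q : ℕ) (x : ZMod p) :
    ((‖dir Q x‖ ^ 2 : ℝ) : ℂ) =
      ∑ jj ∈ range Q ×ˢ range Q, ec ((((jj.1 : ℤ) - (jj.2 : ℤ) : ℤ) : ZMod p) * x) := by
  rw [← Complex.normSq_eq_norm_sq, ← Complex.mul_conj]
  unfold dir
  rw [map_sum, sum_mul_sum, sum_product]
  refine sum_congr rfl fun j _ => sum_congr rfl fun j' _ => ?_
  rw [conj_ec, ← ec_add]
  congr 1
  push_cast
  ring

lemma sum_ec_mul (b : ZMod p) : ∑ x : ZMod p, ec (b * x) = if b = 0 then (p : ℂ) else 0 := by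
  have := AddChar.sum_mulShift b (ZMod.isPrimitive_stdAddChar p)
  simp only [ZMod.card] at this
  unfold ec
  simp_rw [mul_comm b]
  rw [this]
  split_ifs <;> simp

lemma sum_normSq_dir (Q : ℕ) (hQ : Q ≤ p) : ∑ x : ZMod p, ‖dir Q x‖ ^ 2 = (p : ℝ) * Q := by
  have h : ((∑ x : ZMod p, ‖dir Q x‖ ^ 2 : ℝ) : ℂ) = (((p : ℝ) * Q : ℝ) : ℂ) := by
    push_cast
    have := fun x : ZMod p => normSq_dir Q x
    push_cast at this
    simp_rw [this]
    rw [sum_comm]
    simp_rw [sum_ec_mul]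
    rw [sum_product]
    have : ∀ j ∈ range Q, ∑ j' ∈ range Q,
        (if ((j : ZMod p) - (j' : ZMod p)) = 0 then (p : ℂ) else 0) = p := by
      intro j hj
      rw [sum_eq_single j]
      · simp
      · intro j' hj' hne
        rw [if_neg]
        intro h
        have h2 : (j : ZMod p) = (j' : ZMod p) := sub_eq_zero.mp h
        rw [ZMod.natCast_eq_natCast_iff'] at h2
        rw [mem_range] at hj hj'
        rw [Nat.mod_eq_of_lt (by omega), Nat.mod_eq_of_lt (by omega)] at h2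
        exact hne h2.symm
      · intro h; exact absurd hj h
    rw [sum_congr rfl this]
    simp [mul_comm]
  exact_mod_cast h

lemma norm_dir_mul_chord (Q : ℕ) (x : ZMod p) : ‖dir Q x‖ * chord x ≤ 2 := by
  unfold chord
  rw [← norm_mul]
  have : dir Q x * (ec x - 1) = ec ((Q : ZMod p) * x) - 1 := by
    unfold dir
    induction Q with
    | zero => simp
    | succ Q ih =>
      rw [sum_range_succ, add_mul, ih]
      push_cast
      rw [add_mul, one_mul, ec_add]
      ring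
  rw [this]
  exact chord_le_two _

lemma half_le_norm_dir (Q : ℕ) (x : ZMod p) (h : Q * chord x ≤ 1 / 2) :
    (Q : ℝ) / 2 ≤ ‖dir Q x‖ := by
  have h1 : ‖dir Q x - (Q : ℂ)‖ ≤ Q / 2 := by
    unfold dir
    have : (Q : ℂ) = ∑ _j ∈ range Q, (1 : ℂ) := by simp
    rw [this, ← sum_sub_distrib]
    refine (norm_sum_le _ _).trans ?_
    have h2 : ∀ j ∈ range Q, ‖ec ((j : ZMod p) * x) - 1‖ ≤ 1 / 2 := by
      intro j hj
      refine (chord_nat_mul j x).trans (le_trans ?_ h)
      have : (j : ℝ) ≤ Q := by exact_mod_cast (mem_range.mp hj).le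
      exact mul_le_mul_of_nonneg_right this (chord_nonneg x)
    refine (sum_le_sum h2).trans ?_
    simp; linarith only []
  have h2 : ‖(Q : ℂ)‖ ≤ ‖dir Q x‖ + ‖dir Q x - (Q : ℂ)‖ := by
    calc ‖(Q : ℂ)‖ = ‖dir Q x - (dir Q x - Q)‖ := by congr 1; ring
      _ ≤ _ := norm_sub_le _ _
  rw [Complex.norm_natCast] at h2
  linarith

/-- Fourier transform of a weight. -/
noncomputable def ft (ν : ZMod p → ℝ) (ξ : ZMod p) : ℂ := ∑ c, (ν c : ℂ) * ec (ξ * c)

lemma norm_ft_neg (ν : ZMod p → ℝ) (ξ : ZMod p) : ‖ft ν (-ξ)‖ = ‖ft ν ξ‖ := by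
  have : ft ν (-ξ) = (starRingEnd ℂ) (ft ν ξ) := by
    unfold ft
    rw [map_sum]
    refine sum_congr rfl fun c _ => ?_
    rw [map_mul, conj_ec, Complex.conj_ofReal, neg_mul]
  rw [this, Complex.norm_conj]

open Classical in
/-- If small multiples of `d` are outside the spectrum then `d c` is not concentrated. -/
lemma prob_close_le (ν : ZMod p → ℝ) (hν : ∀ c, 0 ≤ ν c) (hν1 : ∑ c, ν c = 1)
    (d t : ZMod p) (Q : ℕ) (hQ : 1 ≤ Q) (η ρ : ℝ) (hη : 0 ≤ η) (hρ : Q * ρ ≤ 1 / 2)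
    (hd : ∀ k : ℕ, 0 < k → k < Q → ‖ft ν ((k : ZMod p) * d)‖ ≤ η) :
    ∑ c, ν c * (if chord (d * c - t) ≤ ρ then 1 else 0) ≤ 4 / Q + 4 * η := by
  have hQ' : (0 : ℝ) < Q := by exact_mod_cast hQ
  have h1 : ∑ c, ν c * ‖dir Q (d * c - t)‖ ^ 2 ≤ Q + Q ^ 2 * η := by
    have h2 : ((∑ c, ν c * ‖dir Q (d * c - t)‖ ^ 2 : ℝ) : ℂ) =
        ∑ jj ∈ range Q ×ˢ range Q, ec (-((((jj.1 : ℤ) - (jj.2 : ℤ) : ℤ) : ZMod p) * t)) *
          ft ν ((((jj.1 : ℤ) - (jj.2 : ℤ) : ℤ) : ZMod p) * d) := by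
      rw [Complex.ofReal_sum]
      simp_rw [Complex.ofReal_mul, normSq_dir, mul_sum]
      rw [sum_comm]
      refine sum_congr rfl fun jj _ => ?_
      unfold ft
      rw [mul_sum]
      refine sum_congr rfl fun c _ => ?_
      rw [mul_left_comm, ← ec_add]
      congr 2
      ring
    have h3 : ∀ jj ∈ range Q ×ˢ range Q,
        ‖ec (-((((jj.1 : ℤ) - (jj.2 : ℤ) : ℤ) : ZMod p) * t)) *
          ft ν ((((jj.1 : ℤ) - (jj.2 : ℤ) : ℤ) : ZMod p) * d)‖ ≤
          (if jj.1 = jj.2 then 1 else 0) + η := by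
      rintro ⟨j, j'⟩ hjj
      simp only [mem_product, mem_range] at hjj
      rw [norm_mul, norm_ec, one_mul]
      rcases lt_trichotomy j j' with h | h | h
      · rw [if_neg h.ne, zero_add, ← norm_ft_neg]
        have := hd (j' - j) (by omega) (by omega)
        convert this using 2
        push_cast [Nat.cast_sub h.le]
        ring
      · subst h
        simp only [sub_self, Int.cast_zero, zero_mul, if_true]
        have : ft ν (0 : ZMod p) = 1 := by
          unfold ft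
          simp only [zero_mul, ec_zero, mul_one]
          exact_mod_cast hν1
        rw [this]; simp [hη]
      · rw [if_neg h.ne', zero_add]
        have := hd (j - j') (by omega) (by omega)
        convert this using 2
        push_cast [Nat.cast_sub h.le]
        ring
    have h4 : ‖((∑ c, ν c * ‖dir Q (d * c - t)‖ ^ 2 : ℝ) : ℂ)‖ ≤ Q + Q ^ 2 * η := by
      rw [h2]
      refine (norm_sum_le _ _).trans ((sum_le_sum h3).trans ?_)
      rw [sum_add_distrib, sum_product]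
      have : ∀ j ∈ range Q, ∑ j' ∈ range Q, (if (j, j').1 = (j, j').2 then (1:ℝ) else 0) = 1 := by
        intro j hj
        simp [hj]
      rw [sum_congr rfl this]
      simp [sq]
    rw [Complex.norm_real] at h4
    exact (le_abs_self _).trans h4
  have h5 : ∀ c, ν c * (if chord (d * c - t) ≤ ρ then 1 else 0) ≤
      4 / Q ^ 2 * (ν c * ‖dir Q (d * c - t)‖ ^ 2) := by
    intro c
    split_ifs with h
    · have h6 : (Q : ℝ) / 2 ≤ ‖dir Q (d * c - t)‖ :=
        half_le_norm_dir Q _ (le_trans (mul_le_mul_of_nonneg_left h hQ'.le) hρ)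
      have h7 : ((Q : ℝ) / 2) ^ 2 ≤ ‖dir Q (d * c - t)‖ ^ 2 := by gcongr
      have h8 : 1 ≤ 4 / (Q : ℝ) ^ 2 * ‖dir Q (d * c - t)‖ ^ 2 := by
        calc (1 : ℝ) = 4 / (Q : ℝ) ^ 2 * ((Q : ℝ) / 2) ^ 2 := by field_simp; norm_num
          _ ≤ _ := by gcongr
      nlinarith [hν c]
    · have := hν c
      simp only [mul_zero]
      positivity
  refine (sum_le_sum fun c _ => h5 c).trans ?_
  rw [← mul_sum]
  calc 4 / (Q : ℝ) ^ 2 * ∑ c, ν c * ‖dir Q (d * c - t)‖ ^ 2 ≤ 4 / (Q : ℝ) ^ 2 * (Q + Q ^ 2 * η) := by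
        gcongr
    _ = 4 / Q + 4 * η := by field_simp

open Classical in
/-- The bump function. -/
noncomputable def bump (K : ℕ) (σ : ℝ) (x : ZMod p) : ℝ :=
  ∑ z ∈ univ.filter (fun z : ZMod p => chord z ≤ 3 * σ), ‖dir K (x - z)‖ ^ 2 / ((p : ℝ) * K)

lemma sum_fejer (K : ℕ) (hK : 1 ≤ K) (hKp : K ≤ p) (x : ZMod p) :
    ∑ z : ZMod p, ‖dir K (x - z)‖ ^ 2 / ((p : ℝ) * K) = 1 := by
  have hp : (0 : ℝ) < p := Nat.cast_pos.mpr (NeZero.pos p)
  have hK' : (0 : ℝ) < K := by exact_mod_cast hK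
  rw [← sum_div, div_eq_one_iff_eq (by positivity), ← sum_normSq_dir K hKp]
  exact Fintype.sum_equiv (Equiv.subLeft x) _ _ (fun z => by simp)

lemma fejer_tail (K : ℕ) (hK : 1 ≤ K) (σ : ℝ) (hσ : 0 < σ) (x : ZMod p) (s : Finset (ZMod p))
    (hs : ∀ z ∈ s, σ ≤ chord (x - z)) :
    ∑ z ∈ s, ‖dir K (x - z)‖ ^ 2 / ((p : ℝ) * K) ≤ 4 / (K * σ ^ 2) := by
  have hp : (0 : ℝ) < p := Nat.cast_pos.mpr (NeZero.pos p)
  have hK' : (0 : ℝ) < K := by exact_mod_cast hK
  have h1 : ∀ z ∈ s, ‖dir K (x - z)‖ ^ 2 / ((p : ℝ) * K) ≤ 4 / σ ^ 2 / ((p : ℝ) * K) := by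
    intro z hz
    have h2 := norm_dir_mul_chord K (x - z)
    have h3 : ‖dir K (x - z)‖ ≤ 2 / σ := by
      rw [le_div_iff₀ hσ]
      exact le_trans (mul_le_mul_of_nonneg_left (hs z hz) (norm_nonneg _)) h2
    have h4 : ‖dir K (x - z)‖ ^ 2 ≤ (2 / σ) ^ 2 := by gcongr
    gcongr
    calc _ ≤ (2 / σ) ^ 2 := h4
      _ = _ := by ring
  refine (sum_le_sum h1).trans ?_
  rw [sum_const, nsmul_eq_mul]
  have h5 : (s.card : ℝ) ≤ p := by
    have := card_le_univ s
    rw [ZMod.card] at this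
    exact_mod_cast this
  calc (s.card : ℝ) * (4 / σ ^ 2 / ((p : ℝ) * K)) ≤ p * (4 / σ ^ 2 / ((p : ℝ) * K)) := by gcongr
    _ = _ := by field_simp

lemma bump_nonneg (K : ℕ) (σ : ℝ) (x : ZMod p) : 0 ≤ bump K σ x := by
  unfold bump
  exact sum_nonneg fun z _ => by positivity

lemma bump_le_one (K : ℕ) (hK : 1 ≤ K) (hKp : K ≤ p) (σ : ℝ) (x : ZMod p) : bump K σ x ≤ 1 := by
  unfold bump
  rw [← sum_fejer K hK hKp x]
  exact sum_le_sum_of_subset_of_nonneg (subset_univ _) fun z _ _ => by positivity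

lemma bump_near (K : ℕ) (hK : 1 ≤ K) (hKp : K ≤ p) (σ : ℝ) (hσ : 0 < σ) (x : ZMod p)
    (hx : chord x ≤ 2 * σ) : 1 - bump K σ x ≤ 4 / (K * σ ^ 2) := by
  classical
  unfold bump
  rw [← sum_fejer K hK hKp x,
    ← sum_filter_add_sum_filter_not univ (fun z : ZMod p => chord z ≤ 3 * σ), add_sub_cancel_left]
  refine fejer_tail K hK σ hσ x _ fun z hz => ?_
  have hz' : 3 * σ < chord z := by simpa using hz
  have := chord_sub x (x - z)
  rw [sub_sub_cancel] at this
  linarith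

lemma bump_far (K : ℕ) (hK : 1 ≤ K) (σ : ℝ) (hσ : 0 < σ) (x : ZMod p)
    (hx : 4 * σ < chord x) : bump K σ x ≤ 4 / (K * σ ^ 2) := by
  classical
  unfold bump
  refine fejer_tail K hK σ hσ x _ fun z hz => ?_
  have hz' : chord z ≤ 3 * σ := by simpa using hz
  have := chord_add (x - z) z
  rw [sub_add_cancel] at this
  linarith

lemma sum_bump (K : ℕ) (hK : 1 ≤ K) (hKp : K ≤ p) (σ : ℝ) (hσ : 0 < σ) (hσp : 2 ≤ σ * p)
    (u : ZMod p) : ∑ t : ZMod p, bump K σ (u - t) ≤ 2 * σ * p := by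
  classical
  unfold bump
  rw [sum_comm]
  have h1 : ∀ z ∈ univ.filter (fun z : ZMod p => chord z ≤ 3 * σ),
      ∑ t : ZMod p, ‖dir K (u - t - z)‖ ^ 2 / ((p : ℝ) * K) = 1 := by
    intro z _
    rw [← sum_fejer K hK hKp (u - z)]
    refine sum_congr rfl fun t _ => ?_
    congr 3
    ring
  rw [sum_congr rfl h1, sum_const, nsmul_eq_mul, mul_one]
  refine (card_chord_le (3 * σ) (by positivity)).trans ?_
  linarith only [hσp]

/-- Fourier expansion of the shifted bump. -/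
lemma bump_expand (K : ℕ) (hK : 1 ≤ K) (σ : ℝ) (t : ZMod p) :
    ∃ b : ℕ × ℕ → ℂ, (∑ jj ∈ range K ×ˢ range K, ‖b jj‖ ≤ K) ∧
      ∀ x : ZMod p, ((bump K σ (x - t) : ℝ) : ℂ) =
        ∑ jj ∈ range K ×ˢ range K, b jj * ec ((((jj.1 : ℤ) - (jj.2 : ℤ) : ℤ) : ZMod p) * x) := by
  classical
  have hp : (0 : ℝ) < p := Nat.cast_pos.mpr (NeZero.pos p)
  have hK' : (0 : ℝ) < K := by exact_mod_cast hK
  refine ⟨fun jj => ∑ z ∈ univ.filter (fun z : ZMod p => chord z ≤ 3 * σ),
    ec (-((((jj.1 : ℤ) - (jj.2 : ℤ) : ℤ) : ZMod p) * (t + z))) / (((p : ℝ) * K : ℝ) : ℂ), ?_, ?_⟩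
  · have h1 : ∀ jj ∈ range K ×ˢ range K,
        ‖∑ z ∈ univ.filter (fun z : ZMod p => chord z ≤ 3 * σ),
          ec (-((((jj.1 : ℤ) - (jj.2 : ℤ) : ℤ) : ZMod p) * (t + z))) / (((p : ℝ) * K : ℝ) : ℂ)‖
          ≤ 1 / K := by
      intro jj _
      refine (norm_sum_le _ _).trans ?_
      simp_rw [norm_div, norm_ec, Complex.norm_real, Real.norm_eq_abs,
        abs_of_pos (mul_pos hp hK')]
      rw [sum_const, nsmul_eq_mul]
      have h5 : ((univ.filter (fun z : ZMod p => chord z ≤ 3 * σ)).card : ℝ) ≤ p := by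
        have := card_le_univ (univ.filter (fun z : ZMod p => chord z ≤ 3 * σ))
        rw [ZMod.card] at this
        exact_mod_cast this
      calc _ ≤ (p : ℝ) * (1 / ((p : ℝ) * K)) := by gcongr
        _ = _ := by field_simp
    refine (sum_le_sum h1).trans ?_
    rw [sum_const, nsmul_eq_mul, card_product, card_range]
    push_cast
    field_simp
    rfl
  · intro x
    unfold bump
    rw [Complex.ofReal_sum]
    simp_rw [Complex.ofReal_div, normSq_dir, sum_div, sum_mul]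
    rw [sum_comm]
    refine sum_congr rfl fun jj _ => sum_congr rfl fun z _ => ?_
    rw [div_mul_eq_mul_div, ← ec_add]
    congr 2
    ring

end Pool.Agent.Work.MP_c4c804_co
end

-- merged part: Pool.Agent.Work.MP_c4c804_co.Gibbs
section
/-!
Bohr type seminorms on the cyclic group and their Gibbs measures.
-/

set_option autoImplicit false

namespace Pool.Agent.Work.MP_c4c804_co

open Finset

variable {p : ℕ} [NeZero p]

/-- A symmetric subadditive nonnegative function. -/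
structure IsNorm (N : ZMod p → ℝ) : Prop where
  nonneg : ∀ c, 0 ≤ N c
  neg : ∀ c, N (-c) = N c
  add : ∀ c c', N (c + c') ≤ N c + N c'

open Classical in
/-- Lower bound for the size of all small balls. -/
def Dim (N : ZMod p → ℝ) (r : ℕ) (W : ℝ) : Prop :=
  ∀ M : ℕ, 1 ≤ M → (p : ℝ) ≤ W * (M : ℝ) ^ r * (univ.filter (fun c => (M : ℝ) * N c ≤ 1)).card

/-- The Gibbs measure of a seminorm. -/
noncomputable def gibbs (N : ZMod p → ℝ) (c : ZMod p) : ℝ :=
  Real.exp (-N c) / ∑ c', Real.exp (-N c')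

lemma part_pos (N : ZMod p → ℝ) : 0 < ∑ c', Real.exp (-N c') :=
  sum_pos (fun _ _ => Real.exp_pos _) univ_nonempty

lemma gibbs_nonneg (N : ZMod p → ℝ) (c : ZMod p) : 0 ≤ gibbs N c :=
  div_nonneg (Real.exp_pos _).le (part_pos N).le

lemma sum_gibbs (N : ZMod p → ℝ) : ∑ c, gibbs N c = 1 := by
  unfold gibbs
  rw [← sum_div, div_self (part_pos N).ne']

lemma part_ge {N : ZMod p → ℝ} {r : ℕ} {W : ℝ} (hW : 0 ≤ W) (hD : Dim N r W) :
    (p : ℝ) ≤ 3 * W * ∑ c', Real.exp (-N c') := by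
  classical
  have h := hD 1 le_rfl
  simp only [Nat.cast_one, one_pow, mul_one, one_mul] at h
  have h1 : ((univ.filter (fun c => N c ≤ 1)).card : ℝ) ≤ 3 * ∑ c', Real.exp (-N c') := by
    calc ((univ.filter (fun c => N c ≤ 1)).card : ℝ)
        = ∑ _c ∈ univ.filter (fun c => N c ≤ 1), (1 : ℝ) := by simp
      _ ≤ ∑ c ∈ univ.filter (fun c => N c ≤ 1), 3 * Real.exp (-N c) := by
          refine sum_le_sum fun c hc => ?_
          have h2 : N c ≤ 1 := (mem_filter.mp hc).2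
          have h3 : Real.exp (N c) ≤ 3 :=
            (Real.exp_le_exp.mpr h2).trans (by linarith only [Real.exp_one_lt_d9])
          rw [Real.exp_neg, ← div_eq_mul_inv, le_div_iff₀ (Real.exp_pos _)]
          linarith
      _ ≤ ∑ c, 3 * Real.exp (-N c) :=
          sum_le_sum_of_subset_of_nonneg (filter_subset _ _) fun c _ _ => by positivity
      _ = _ := by rw [mul_sum]
  calc (p : ℝ) ≤ W * (univ.filter (fun c => N c ≤ 1)).card := h
    _ ≤ W * (3 * ∑ c', Real.exp (-N c')) := by gcongr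
    _ = _ := by ring

lemma gibbs_le {N : ZMod p → ℝ} (hN : IsNorm N) {r : ℕ} {W : ℝ} (hW : 0 ≤ W) (hD : Dim N r W)
    (c : ZMod p) : gibbs N c ≤ 3 * W / p := by
  have hp : (0 : ℝ) < p := Nat.cast_pos.mpr (NeZero.pos p)
  have h1 := part_ge hW hD
  have h2 : Real.exp (-N c) ≤ 1 := Real.exp_le_one_iff.mpr (by linarith [hN.nonneg c])
  unfold gibbs
  rw [div_le_div_iff₀ (part_pos N) hp]
  nlinarith [Real.exp_pos (-N c)]

lemma mean_norm_le {N : ZMod p → ℝ} (hN : IsNorm N) {r : ℕ} {W : ℝ} (hW : 0 < W)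
    (hD : Dim N r W) : ∑ c, gibbs N c * N c ≤ 2 * Real.log (3 * W) := by
  have hp : (0 : ℝ) < p := Nat.cast_pos.mpr (NeZero.pos p)
  have h1 := part_ge hW.le hD
  have hZ := part_pos N
  set L := Real.log (3 * W) with hL
  have hL' : Real.exp L = 3 * W := Real.exp_log (by positivity)
  have h2 : ∀ c, gibbs N c * N c ≤
      2 * (L - 1) * gibbs N c + 2 / (3 * W * ∑ c', Real.exp (-N c')) := by
    intro c
    have h3 : N c / 2 - L + 1 ≤ Real.exp (N c / 2 - L) := Real.add_one_le_exp _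
    have h4 : gibbs N c * Real.exp (N c / 2 - L) ≤ 1 / (3 * W * ∑ c', Real.exp (-N c')) := by
      unfold gibbs
      rw [div_mul_eq_mul_div, ← Real.exp_add, ← hL', div_le_div_iff₀ hZ (by positivity), one_mul,
        ← mul_assoc, ← Real.exp_add]
      refine mul_le_of_le_one_left hZ.le (Real.exp_le_one_iff.mpr ?_)
      linarith only [hN, hN.nonneg c]
    have h5 := mul_le_mul_of_nonneg_left h3 (gibbs_nonneg N c)
    have h6 : 2 / (3 * W * ∑ c', Real.exp (-N c')) =
        2 * (1 / (3 * W * ∑ c', Real.exp (-N c'))) := by ring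
    rw [h6]
    nlinarith
  refine (sum_le_sum fun c _ => h2 c).trans ?_
  rw [sum_add_distrib, ← mul_sum, sum_gibbs, sum_const, card_univ, ZMod.card, nsmul_eq_mul]
  have h7 : (p : ℝ) * (2 / (3 * W * ∑ c', Real.exp (-N c'))) ≤ 2 := by
    rw [mul_div_assoc', div_le_iff₀ (by positivity)]
    linarith
  linarith

lemma spectral {N : ZMod p → ℝ} (hN : IsNorm N) {Y : ℝ} (hY : 1 ≤ Y) {ξ : ZMod p}
    (hξ : 1 / Y < ‖ft (gibbs N) ξ‖) (c' : ZMod p) : chord (ξ * c') ≤ 2 * Y * N c' := by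
  have hN0 := hN.nonneg c'
  by_cases hc : 1 ≤ N c'
  · have := chord_le_two (ξ * c')
    nlinarith
  push Not at hc
  have e1 : ft (gibbs N) ξ = ∑ c, (gibbs N (c + c') : ℂ) * ec (ξ * (c + c')) := by
    unfold ft
    exact (Fintype.sum_equiv (Equiv.addRight c') _ _ (fun c => by simp)).symm
  have e2 : ft (gibbs N) ξ * (1 - ec (ξ * c')) =
      ∑ c, (((gibbs N (c + c') - gibbs N c : ℝ)) : ℂ) * ec (ξ * (c + c')) := by
    rw [mul_sub, mul_one]
    nth_rewrite 1 [e1]
    unfold ft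
    rw [sum_mul, ← sum_sub_distrib]
    refine sum_congr rfl fun c _ => ?_
    rw [mul_add, ec_add]
    push_cast
    ring
  have h3 : ∀ c, |gibbs N (c + c') - gibbs N c| ≤ 2 * N c' * gibbs N c := by
    intro c
    have a1 : N (c + c') ≤ N c + N c' := hN.add c c'
    have a2 : N c ≤ N (c + c') + N c' := by
      have := hN.add (c + c') (-c')
      rwa [add_neg_cancel_right, hN.neg] at this
    have e3 : gibbs N (c + c') = Real.exp (N c - N (c + c')) * gibbs N c := by
      unfold gibbs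
      rw [← mul_div_assoc, ← Real.exp_add]
      congr 2
      ring
    have a3 : |Real.exp (N c - N (c + c')) - 1| ≤ 2 * |N c - N (c + c')| :=
      Real.abs_exp_sub_one_le (by rw [abs_le]; constructor <;> linarith only [hc, a1, a2])
    have a4 : |N c - N (c + c')| ≤ N c' := by rw [abs_le]; constructor <;> linarith only [a1, a2]
    rw [e3, ← sub_one_mul, abs_mul, abs_of_nonneg (gibbs_nonneg N c)]
    exact mul_le_mul_of_nonneg_right (by linarith) (gibbs_nonneg N c)
  have h4 : ‖ft (gibbs N) ξ‖ * chord (ξ * c') ≤ 2 * N c' := by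
    unfold chord
    rw [norm_sub_rev, ← norm_mul, e2]
    refine (norm_sum_le _ _).trans ?_
    simp_rw [norm_mul, norm_ec, mul_one, Complex.norm_real, Real.norm_eq_abs]
    refine (sum_le_sum fun c _ => h3 c).trans ?_
    rw [← mul_sum, sum_gibbs, mul_one]
  have h5 : 1 / Y * chord (ξ * c') ≤ 2 * N c' :=
    le_trans (mul_le_mul_of_nonneg_right hξ.le (chord_nonneg _)) h4
  rw [one_div, inv_mul_le_iff₀ (by linarith)] at h5
  linarith

lemma pigeon_one (S : Finset (ZMod p)) (ξ : ZMod p) (V : ℕ) (hV : 1 ≤ V) :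
    ∃ S' ⊆ S, S.card ≤ V * S'.card ∧ ∀ c ∈ S', ∀ c' ∈ S', chord (ξ * (c - c')) ≤ 7 / V := by
  classical
  have hp : 0 < p := NeZero.pos p
  set φ : ZMod p → ℕ := fun c => V * (ξ * c).val / p with hφ
  have hmap : ∀ c ∈ S, φ c ∈ range V := by
    intro c _
    rw [mem_range, hφ, Nat.div_lt_iff_lt_mul hp]
    exact Nat.mul_lt_mul_of_pos_left (ZMod.val_lt _) hV
  obtain ⟨y, _, hy⟩ := exists_max_image (range V) (fun y => (S.filter (fun c => φ c = y)).card)
    ⟨0, mem_range.mpr hV⟩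
  refine ⟨S.filter (fun c => φ c = y), filter_subset _ _, ?_, ?_⟩
  · have := card_le_mul_card_image_of_maps_to hmap _ hy
    rwa [card_range, mul_comm] at this
  · intro c hc c' hc'
    have h1 : φ c = φ c' := (mem_filter.mp hc).2.trans (mem_filter.mp hc').2.symm
    set a := (ξ * c).val with ha
    set b := (ξ * c').val with hb
    have e1 : ξ * (c - c') = (((a : ℤ) - (b : ℤ) : ℤ) : ZMod p) := by
      push_cast
      rw [ha, hb, ZMod.natCast_zmod_val, ZMod.natCast_zmod_val]; ring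
    rw [e1]
    refine (chord_intCast_le _).trans ?_
    have h2 : V * a / p = V * b / p := h1
    have h3 := Nat.div_add_mod (V * a) p
    have h4 := Nat.div_add_mod (V * b) p
    have h5 := Nat.mod_lt (V * a) hp
    have h6 := Nat.mod_lt (V * b) hp
    rw [h2] at h3
    have h7 : V * a ≤ V * b + p := by omega
    have h8 : V * b ≤ V * a + p := by omega
    have h7' : (V : ℝ) * a ≤ V * b + p := by exact_mod_cast h7
    have h8' : (V : ℝ) * b ≤ V * a + p := by exact_mod_cast h8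
    have hp' : (0 : ℝ) < p := by exact_mod_cast hp
    have hV' : (0 : ℝ) < V := by exact_mod_cast hV
    rw [div_le_div_iff₀ hp' hV']
    push_cast
    rcases abs_cases ((a : ℝ) - b) with h | h <;> rw [h.1] <;> linarith only [h7', h8']

lemma pigeon {ι : Type*} (R : Finset ι) (a : ι → ZMod p) (S : Finset (ZMod p)) (V : ℕ)
    (hV : 1 ≤ V) : ∃ S' ⊆ S, S.card ≤ V ^ R.card * S'.card ∧
      ∀ c ∈ S', ∀ c' ∈ S', ∀ i ∈ R, chord (a i * (c - c')) ≤ 7 / V := by
  classical
  induction R using Finset.induction_on with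
  | empty => exact ⟨S, Subset.refl _, by simp, by simp⟩
  | insert j R hj ih =>
    obtain ⟨S1, h1, h2, h3⟩ := ih
    obtain ⟨S2, g1, g2, g3⟩ := pigeon_one S1 (a j) V hV
    refine ⟨S2, g1.trans h1, ?_, ?_⟩
    · rw [card_insert_of_notMem hj, pow_succ, mul_assoc]
      exact h2.trans (Nat.mul_le_mul_left _ g2)
    · intro c hc c' hc' i hi
      rcases mem_insert.mp hi with rfl | hi
      · exact g3 c hc c' hc'
      · exact h3 c (g1 hc) c' (g1 hc') i hi

/-- The refined seminorm. -/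
noncomputable def refine {ι : Type*} (N : ZMod p → ℝ) (M w : ℕ) (R : Finset ι) (a : ι → ZMod p)
    (c : ZMod p) : ℝ := M * N c + w * ∑ i ∈ R, chord (a i * c)

lemma isNorm_refine {ι : Type*} {N : ZMod p → ℝ} (hN : IsNorm N) (M w : ℕ) (R : Finset ι)
    (a : ι → ZMod p) : IsNorm (refine N M w R a) where
  nonneg c := by
    unfold refine
    have := hN.nonneg c
    have : 0 ≤ ∑ i ∈ R, chord (a i * c) := sum_nonneg fun i _ => chord_nonneg _
    positivity
  neg c := by
    unfold refine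
    rw [hN.neg]
    simp_rw [mul_neg, chord_neg]
  add c c' := by
    unfold refine
    have h1 := hN.add c c'
    have h2 : ∑ i ∈ R, chord (a i * (c + c')) ≤
        ∑ i ∈ R, chord (a i * c) + ∑ i ∈ R, chord (a i * c') := by
      rw [← sum_add_distrib]
      exact sum_le_sum fun i _ => by rw [mul_add]; exact chord_add _ _
    have h3 := mul_le_mul_of_nonneg_left h1 (Nat.cast_nonneg (α := ℝ) M)
    have h4 := mul_le_mul_of_nonneg_left h2 (Nat.cast_nonneg (α := ℝ) w)
    linarith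

lemma dim_refine {ι : Type*} {N : ZMod p → ℝ} (hN : IsNorm N) {r : ℕ} {W : ℝ} (hW : 0 ≤ W)
    (hD : Dim N r W) (M w n : ℕ) (hM : 1 ≤ M) (hw : 1 ≤ w) (hn : 1 ≤ n) (R : Finset ι)
    (hR : R.card ≤ n) (a : ι → ZMod p) :
    Dim (refine N M w R a) (r + R.card) (W * (4 * M) ^ r * (14 * w * n) ^ R.card) := by
  classical
  intro M' hM'
  have h1 := hD (4 * M' * M) (by nlinarith only [hM, hM'])
  set S := univ.filter (fun c : ZMod p => ((4 * M' * M : ℕ) : ℝ) * N c ≤ 1) with hS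
  have hV : 1 ≤ 14 * M' * w * n := by
    have : 1 * 1 * 1 * 1 ≤ 14 * M' * w * n := by gcongr; norm_num
    simpa using this
  obtain ⟨S', h2, h3, h4⟩ := pigeon R a S (14 * M' * w * n) hV
  have h5 : S'.card ≤ (univ.filter (fun c => (M' : ℝ) * refine N M w R a c ≤ 1)).card := by
    rcases S'.eq_empty_or_nonempty with h | ⟨c0, hc0⟩
    · simp [h]
    refine card_le_card_of_injOn (fun c => c - c0) ?_ fun c _ c' _ h => by simpa using h
    intro c hc
    have hc' : c ∈ S' := hc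
    simp only [coe_filter, mem_univ, true_and, Set.mem_ofPred_eq]
    unfold refine
    have a1 : ((4 * M' * M : ℕ) : ℝ) * N c ≤ 1 := (mem_filter.mp (h2 hc')).2
    have a2 : ((4 * M' * M : ℕ) : ℝ) * N c0 ≤ 1 := (mem_filter.mp (h2 hc0)).2
    have a3 : N (c - c0) ≤ N c + N c0 := by
      have := hN.add c (-c0)
      rwa [hN.neg, ← sub_eq_add_neg] at this
    have a4 : ∑ i ∈ R, chord (a i * (c - c0)) ≤ n * (7 / ((14 * M' * w * n : ℕ) : ℝ)) := by
      refine (sum_le_sum fun i hi => h4 c hc' c0 hc0 i hi).trans ?_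
      rw [sum_const, nsmul_eq_mul]
      gcongr
    have hM0 : (0 : ℝ) < M' := by exact_mod_cast hM'
    have hw0 : (0 : ℝ) < w := by exact_mod_cast hw
    have hn0 : (0 : ℝ) < n := by exact_mod_cast hn
    have a5 : (M' : ℝ) * (w * ∑ i ∈ R, chord (a i * (c - c0))) ≤ 1 / 2 := by
      calc _ ≤ (M' : ℝ) * (w * (n * (7 / ((14 * M' * w * n : ℕ) : ℝ)))) := by gcongr
        _ = 1 / 2 := by push_cast; field_simp; norm_num
    have a6 : (M' : ℝ) * (M * N (c - c0)) ≤ 1 / 2 := by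
      push_cast at a1 a2
      have : (M' : ℝ) * (M * N (c - c0)) ≤ M' * (M * (N c + N c0)) := by gcongr
      linarith only [a1, a2, this]
    linarith
  have h3' : (S.card : ℝ) ≤ ((14 * M' * w * n : ℕ) : ℝ) ^ R.card *
      (univ.filter (fun c => (M' : ℝ) * refine N M w R a c ≤ 1)).card := by
    exact_mod_cast h3.trans (Nat.mul_le_mul_left _ h5)
  calc (p : ℝ) ≤ W * ((4 * M' * M : ℕ) : ℝ) ^ r * S.card := h1
    _ ≤ W * ((4 * M' * M : ℕ) : ℝ) ^ r * (((14 * M' * w * n : ℕ) : ℝ) ^ R.card *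
      (univ.filter (fun c => (M' : ℝ) * refine N M w R a c ≤ 1)).card) := by gcongr
    _ = _ := by push_cast; rw [pow_add]; simp only [mul_pow]; ring

lemma Dim.mono {N : ZMod p → ℝ} {r : ℕ} {W W' : ℝ} (hD : Dim N r W) (h : W ≤ W') : Dim N r W' := by
  intro M hM
  exact (hD M hM).trans (by gcongr)

end Pool.Agent.Work.MP_c4c804_co
end

-- merged part: Pool.Agent.Work.MP_c4c804_co.Round
section
/-!
The regularisation procedure.
-/

set_option autoImplicit false

namespace Pool.Agent.Work.MP_c4c804_co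

open Finset

lemma coprime_div_gcd (k y e : ℕ) (hk : k ≠ 0) (hke : k < 2 ^ e) :
    (k / Nat.gcd k (y.factorial ^ e)).Coprime y.factorial := by
  refine Nat.Coprime.symm ((Nat.coprime_iff_gcd_eq_one).mpr (Nat.eq_one_iff_not_exists_prime_dvd.mpr
    fun q hq hqd => ?_))
  have h1 : q ∣ y.factorial := hqd.trans (Nat.gcd_dvd_left _ _)
  have h2 : q ∣ k / Nat.gcd k (y.factorial ^ e) := hqd.trans (Nat.gcd_dvd_right _ _)
  set d := Nat.gcd k (y.factorial ^ e) with hd
  have h3 : q * d ∣ k := by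
    have := Nat.mul_dvd_mul_right h2 d
    rwa [Nat.div_mul_cancel (Nat.gcd_dvd_left _ _)] at this
  have h4 : ∀ j ≤ e, q ^ j ∣ d := by
    intro j
    induction j with
    | zero => simp
    | succ j ih =>
      intro hj
      refine Nat.dvd_gcd ?_ ?_
      · rw [pow_succ']
        exact (Nat.mul_dvd_mul_left q (ih (by omega))).trans h3
      · exact (pow_dvd_pow q hj).trans (pow_dvd_pow_of_dvd h1 e)
  have h5 : q ^ e ≤ k := Nat.le_of_dvd (Nat.pos_of_ne_zero hk)
    ((h4 e le_rfl).trans (Nat.gcd_dvd_left _ _))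
  have h6 : 2 ^ e ≤ q ^ e := Nat.pow_le_pow_left hq.two_le e
  omega

lemma log_drop (y g g' : ℕ) (hy : 2 ≤ y) (hg : g ≠ 0) (hc : g.Coprime y.factorial) (hd : g' ∣ g)
    (hne : g' ≠ g) : Nat.log y g' + 1 ≤ Nat.log y g := by
  obtain ⟨h, rfl⟩ := hd
  have hg' : g' ≠ 0 := left_ne_zero_of_mul hg
  have hh : h ≠ 0 := right_ne_zero_of_mul hg
  have h1 : y ≤ h := by
    by_contra hlt
    have h2 : h ∣ y.factorial := Nat.dvd_factorial (Nat.pos_of_ne_zero hh) (by omega)
    have h3 : h ∣ Nat.gcd (g' * h) y.factorial := Nat.dvd_gcd (Dvd.intro_left _ rfl) h2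
    rw [hc] at h3
    apply hne
    rw [Nat.dvd_one.mp h3, mul_one]
  rw [← Nat.log_mul_base (by omega) hg']
  exact Nat.log_mono_right (Nat.mul_le_mul_left _ h1)

lemma bezout_bdd (g : ℕ) (hg : g ≠ 0) (k : ℤ) :
    ∃ u v : ℤ, ((Nat.gcd g k.natAbs : ℕ) : ℤ) = u * g + v * k ∧ |u| ≤ |k| + 1 ∧ |v| ≤ g := by
  have hg' : (0 : ℤ) < g := by exact_mod_cast Nat.pos_of_ne_zero hg
  have h1 := Int.gcd_eq_gcd_ab (g : ℤ) k
  have h2 : (Int.gcd (g : ℤ) k : ℤ) = ((Nat.gcd g k.natAbs : ℕ) : ℤ) := by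
    rw [Int.gcd_eq_natAbs]; simp
  set A := Int.gcdA (g : ℤ) k
  set B := Int.gcdB (g : ℤ) k
  have h3 := Int.emod_add_mul_ediv B g
  have h4 := Int.emod_nonneg B hg'.ne'
  have h5 := Int.emod_lt_of_pos B hg'
  have h6 : ((Nat.gcd g k.natAbs : ℕ) : ℤ) = (A + k * (B / g)) * g + B % g * k := by
    rw [← h2, h1]
    nth_rewrite 1 [← h3]
    ring
  refine ⟨A + k * (B / g), B % g, h6, ?_, by rw [abs_of_nonneg h4]; exact h5.le⟩
  have h7 : ((Nat.gcd g k.natAbs : ℕ) : ℤ) ≤ g := by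
    exact_mod_cast Nat.gcd_le_left _ (Nat.pos_of_ne_zero hg)
  have h8 : (0 : ℤ) ≤ ((Nat.gcd g k.natAbs : ℕ) : ℤ) := Nat.cast_nonneg _
  have h9 : |(A + k * (B / g)) * g| ≤ (|k| + 1) * g := by
    have : (A + k * (B / g)) * g = ((Nat.gcd g k.natAbs : ℕ) : ℤ) - B % g * k := by linarith only [h6]
    rw [this]
    refine (abs_sub _ _).trans ?_
    rw [abs_of_nonneg h8, abs_mul, abs_of_nonneg h4]
    linarith only [h7, h5, abs_nonneg k, mul_nonneg_of_nonpos_of_nonpos (Mathlib.Tactic.Linarith.sub_nonpos_of_le (Int.add_one_le_iff.mpr h5)) (Mathlib.Tactic.Linarith.sub_nonpos_of_le (abs_nonneg k))]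
  rw [abs_mul, abs_of_pos hg'] at h9
  exact le_of_mul_le_mul_right h9 hg'

lemma alg1 (x L K Y N S : ℝ) (hL : 0 ≤ L) (hK : 1 ≤ K) (hY : 0 ≤ Y) (hN : 0 ≤ N) (hS : 0 ≤ S)
    (h : x ≤ L * (2 * Y * N + K * S)) :
    Y * x ≤ L * (K + 1 + 2 * K * Y ^ 2) * N + L * K ^ 2 * Y * S := by
  have h5 := mul_le_mul_of_nonneg_left h hY
  have hK1 : 0 ≤ K - 1 := by linarith
  have h6 : 0 ≤ L * (K + 1) * N := by positivity
  have h7 : 0 ≤ L * Y ^ 2 * (K - 1) * N := by positivity
  have h8 : 0 ≤ L * Y * K * (K - 1) * S := by positivity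
  linarith only [h5, h6, h7, h8]

lemma alg2 (x z L K Y N S : ℝ) (hL : 0 ≤ L) (hK : 0 ≤ K) (hY : 0 ≤ Y) (hz : Y * z ≤ N)
    (h : x ≤ L * ((K + 1) * z + K * (2 * Y * N + K * S))) :
    Y * x ≤ L * (K + 1 + 2 * K * Y ^ 2) * N + L * K ^ 2 * Y * S := by
  have h4 := mul_le_mul_of_nonneg_left h hY
  have h5 := mul_le_mul_of_nonneg_left hz (show 0 ≤ L * (K + 1) by positivity)
  linarith

lemma alg3 (x z L K Y N S : ℝ) (hL : 0 ≤ L) (hK : 0 ≤ K) (hY : 0 ≤ Y) (hN : 0 ≤ N) (hS : 0 ≤ S)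
    (hz : Y * z ≤ N) (h : x ≤ L * z) :
    Y * x ≤ L * (K + 1 + 2 * K * Y ^ 2) * N + L * K ^ 2 * Y * S := by
  have h4 := mul_le_mul_of_nonneg_left h hY
  have h5 := mul_le_mul_of_nonneg_left hz hL
  have h7 : 0 ≤ L * K ^ 2 * Y * S := by positivity
  have h8 : 0 ≤ L * (K + 2 * K * Y ^ 2) * N := by positivity
  linarith

variable {p : ℕ} [NeZero p] {ι : Type*} [Fintype ι] [LinearOrder ι]

open Classical in
/-- Elements with a smaller close partner. -/
noncomputable def soft (ν : ZMod p → ℝ) (a : ι → ZMod p) (Y Q : ℕ) (B : Finset ι) : Finset ι :=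
  B.filter (fun l => ∃ i ∈ B, i < l ∧ ∃ k : ℕ, 0 < k ∧ k < Q ∧
    1 / (Y : ℝ) < ‖ft ν ((k : ZMod p) * (a i - a l))‖)

omit [Fintype ι] in
lemma mem_soft {ν : ZMod p → ℝ} {a : ι → ZMod p} {Y Q : ℕ} {B : Finset ι} {l : ι} :
    l ∈ soft ν a Y Q B ↔ l ∈ B ∧ ∃ i ∈ B, i < l ∧ ∃ k : ℕ, 0 < k ∧ k < Q ∧
      1 / (Y : ℝ) < ‖ft ν ((k : ZMod p) * (a i - a l))‖ := by
  classical
  unfold soft; simp only [mem_filter]

/-- A Fourier relation with all coefficients nontrivial. -/
def IsRel (ν : ZMod p → ℝ) (a : ι → ZMod p) (g : ι → ℕ) (K Y : ℕ) (U : Finset ι) : Prop :=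
  ∃ k : ι → ℤ, (∀ i ∈ U, |k i| ≤ K ∧ ¬ (g i : ℤ) ∣ k i) ∧
    1 / (Y : ℝ) < ‖ft ν (∑ i ∈ U, (k i : ZMod p) * a i)‖

/-- A small relation. -/
def SRel (ν : ZMod p → ℝ) (a : ι → ZMod p) (g : ι → ℕ) (K Y s : ℕ) (U : Finset ι) : Prop :=
  U.card ≤ s + 1 ∧ IsRel ν a g K Y U

/-- The invariants of the procedure. -/
structure Inv (a0 : ι → ZMod p) (K y Y : ℕ) (a : ι → ZMod p) (N : ZMod p → ℝ) (r : ℕ) (W : ℝ)
    (B : Finset ι) (g : ι → ℕ) : Prop where
  dil : ∃ m : ZMod p, m ≠ 0 ∧ ∀ i, a i = m * a0 i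
  norm : IsNorm N
  dim : Dim N r W
  one_le : 1 ≤ W
  rep : ∀ i, ∃ b ∈ B, ∀ c, Y * chord ((a i - a b) * c) ≤ N c
  ord_le : ∀ i, g i ≤ K
  ord_rough : ∀ i, g i ≠ 0 → (g i).Coprime y.factorial
  ord : ∀ i c, Y * chord ((g i : ZMod p) * a i * c) ≤ N c

/-- Level of an order. -/
def lev (y E g : ℕ) : ℕ := if g = 0 then E + 1 else Nat.log y g

/-- The potential. -/
def pot (y E : ℕ) (B : Finset ι) (g : ι → ℕ) : ℕ := B.card + ∑ i, lev y E (g i)

/-- The properties reached at the end. -/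
structure Final (K Y s : ℕ) (a : ι → ZMod p) (N : ZMod p → ℝ) (B : Finset ι) (g : ι → ℕ)
    (lam : ℝ) (Q m : ℕ) (X : Finset ι) : Prop where
  card : X.card ≤ 2 * m
  sparse : ∀ T ⊆ B, ((aff (SRel (gibbs N) a g K Y s) B T \ X).card : ℝ) ≤ lam * T.card
  pairs : ∀ i ∈ B \ X, ∀ l ∈ B \ X, i ≠ l → ∀ k : ℕ, 0 < k → k < Q →
    ‖ft (gibbs N) ((k : ZMod p) * (a i - a l))‖ ≤ 1 / (Y : ℝ)

omit [NeZero p] in
lemma natCast_factorial_ne_zero (hp : p.Prime) {Q : ℕ} (hQ : Q < p) :
    ((Q.factorial : ℕ) : ZMod p) ≠ 0 := by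
  rw [Ne, ZMod.natCast_eq_zero_iff, hp.dvd_factorial]
  omega

lemma merge_step (hp : p.Prime) {a0 : ι → ZMod p} {K y Y : ℕ} (hY : 1 ≤ Y) {a : ι → ZMod p}
    {N : ZMod p → ℝ} {r : ℕ} {W : ℝ} {B : Finset ι} {g : ι → ℕ}
    (hI : Inv a0 K y Y a N r W B g) (n : ℕ) (hn : 1 ≤ n) (hι : Fintype.card ι ≤ n) (Q : ℕ)
    (hQ : Q < p) :
    ∃ a' N', Inv a0 K y Y a' N' r (W * (4 * (Q.factorial * (1 + 2 * n * Y ^ 2) : ℕ)) ^ r)
      (B \ soft (gibbs N) a Y Q B) g := by
  have : Fact p.Prime := ⟨hp⟩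
  set L := Q.factorial with hL
  set M := L * (1 + 2 * n * Y ^ 2) with hM
  set X := soft (gibbs N) a Y Q B with hX
  have hL1 : 1 ≤ L := Nat.factorial_pos Q
  have hM1 : 1 ≤ M := Nat.mul_pos hL1 (by omega)
  have hY' : (1 : ℝ) ≤ Y := by exact_mod_cast hY
  have hchain : ∀ b, b ∈ B → ∃ b' ∈ B \ X, ∀ c, chord ((L : ZMod p) * ((a b - a b') * c)) ≤
      (univ.filter (fun j => j < b)).card * (L * (2 * Y * N c)) := by
    clear * - ι B X p this L a Y N Q a0 K y r W g hI hY' hY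
    intro b
    induction b using WellFoundedLT.induction with
    | ind b ih =>
      intro hb
      by_cases hbX : b ∈ X
      · obtain ⟨i, hi, hib, k, hk0, hkQ, hk⟩ := (mem_soft.mp hbX).2
        obtain ⟨b', hb', h⟩ := ih i hib hi
        refine ⟨b', hb', fun c => ?_⟩
        have h1 := spectral hI.norm hY' hk c
        obtain ⟨L', hL'⟩ : k ∣ L := Nat.dvd_factorial hk0 hkQ.le
        have h2 : chord ((L : ZMod p) * ((a b - a i) * c)) ≤ L * (2 * Y * N c) := by
          have e1 : (L : ZMod p) * ((a b - a i) * c) =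
              -((L' : ZMod p) * ((k : ZMod p) * (a i - a b) * c)) := by
            rw [hL']; push_cast; ring
          rw [e1, chord_neg]
          refine (chord_nat_mul _ _).trans ?_
          have : (L' : ℝ) ≤ L := by
            have : L' ≤ L := by rw [hL']; exact Nat.le_mul_of_pos_left _ hk0
            exact_mod_cast this
          exact mul_le_mul this h1 (chord_nonneg _) (Nat.cast_nonneg _)
        have h3 : (univ.filter (fun j => j < i)).card + 1 ≤ (univ.filter (fun j => j < b)).card := by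
          refine card_lt_card ⟨fun j hj => ?_, fun h => ?_⟩
          · simp only [mem_filter, mem_univ, true_and] at hj ⊢
            exact hj.trans hib
          · have := h (mem_filter.mpr ⟨mem_univ i, hib⟩)
            simp at this
        have h3' : ((univ.filter (fun j => j < i)).card : ℝ) + 1 ≤
            (univ.filter (fun j => j < b)).card := by exact_mod_cast h3
        have e2 : (L : ZMod p) * ((a b - a b') * c) =
            (L : ZMod p) * ((a b - a i) * c) + (L : ZMod p) * ((a i - a b') * c) := by ring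
        rw [e2]
        refine (chord_add _ _).trans ?_
        have h4 : 0 ≤ (L : ℝ) * (2 * Y * N c) := by have := hI.norm.nonneg c; positivity
        clear * - p this L a b i c b' ι Y N h2 h h3' h4; nlinarith [h c]
      · refine ⟨b, mem_sdiff.mpr ⟨hb, hbX⟩, fun c => ?_⟩
        have := hI.norm.nonneg c
        simp only [sub_self, zero_mul, mul_zero, chord_zero]
        positivity
  refine ⟨fun i => (L : ZMod p) * a i, refine N M 1 (∅ : Finset ι) a, ?_, ?_, ?_, ?_, ?_,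
    hI.ord_le, hI.ord_rough, ?_⟩
  · obtain ⟨m, hm, h⟩ := hI.dil
    exact ⟨L * m, mul_ne_zero (natCast_factorial_ne_zero hp hQ) hm, fun i => by rw [h, mul_assoc]⟩
  · exact isNorm_refine hI.norm _ _ _ _
  · have := dim_refine hI.norm (zero_le_one.trans hI.one_le) hI.dim M 1 n hM1 le_rfl hn
      (∅ : Finset ι) (by simp) a
    simpa using this
  · have : (1 : ℝ) ≤ (4 * (M : ℝ)) ^ r := one_le_pow₀ (by
      have : (1 : ℝ) ≤ M := by exact_mod_cast hM1
      linarith only [this])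
    nlinarith [hI.one_le]
  · intro i
    obtain ⟨b, hb, h⟩ := hI.rep i
    obtain ⟨b', hb', h'⟩ := hchain b hb
    refine ⟨b', hb', fun c => ?_⟩
    have e2 : ((L : ZMod p) * a i - (L : ZMod p) * a b') * c =
        (L : ZMod p) * ((a i - a b) * c) + (L : ZMod p) * ((a b - a b') * c) := by ring
    rw [e2]
    have h1 := chord_add ((L : ZMod p) * ((a i - a b) * c)) ((L : ZMod p) * ((a b - a b') * c))
    have h2 := chord_nat_mul L ((a i - a b) * c)
    have h3 : ((univ.filter (fun j => j < b)).card : ℝ) ≤ n := by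
      exact_mod_cast (card_le_univ _).trans hι
    have hN := hI.norm.nonneg c
    have h4 : chord ((L : ZMod p) * ((a b - a b') * c)) ≤ n * (L * (2 * Y * N c)) :=
      (h' c).trans (mul_le_mul_of_nonneg_right h3 (by positivity))
    have h5 := mul_le_mul_of_nonneg_left (h c) (Nat.cast_nonneg (α := ℝ) L)
    unfold refine
    simp only [sum_empty, mul_zero, add_zero, hM]
    push_cast
    have h6 := mul_le_mul_of_nonneg_left (h1.trans (add_le_add h2 h4)) (Nat.cast_nonneg (α := ℝ) Y)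
    clear * - Y p this L a i b c b' n N h5 h6; nlinarith
  · intro i c
    have e2 : (g i : ZMod p) * ((L : ZMod p) * a i) * c =
        (L : ZMod p) * ((g i : ZMod p) * a i * c) := by ring
    rw [e2]
    have h2 := chord_nat_mul L ((g i : ZMod p) * a i * c)
    have h5 := mul_le_mul_of_nonneg_left (hI.ord i c) (Nat.cast_nonneg (α := ℝ) L)
    have h6 := mul_le_mul_of_nonneg_left h2 (Nat.cast_nonneg (α := ℝ) Y)
    have hN := hI.norm.nonneg c
    unfold refine
    simp only [sum_empty, mul_zero, add_zero, hM]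
    push_cast
    have h7 : 0 ≤ (L : ℝ) * (2 * n * Y ^ 2) * N c := by positivity
    clear * - Y p this L g i a c n N h5 h6 h7; nlinarith

lemma drop_step (hp : p.Prime) {a0 : ι → ZMod p} {K y Y : ℕ} (hY : 1 ≤ Y) (hK : 1 ≤ K)
    {a : ι → ZMod p} {N : ZMod p → ℝ} {r : ℕ} {W : ℝ} {B : Finset ι} {g : ι → ℕ}
    (hI : Inv a0 K y Y a N r W B g) (n : ℕ) (hn : 1 ≤ n) (hι : Fintype.card ι ≤ n) (s E e : ℕ)
    (hy : y < p) (hy2 : 2 ≤ y) (hE : K < y ^ (E + 1)) (he : K < 2 ^ e) (R0 : Finset ι) :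
    ∃ a' N' g', Inv a0 K y Y a' N' (r + R0.card)
      (W * (4 * (y.factorial ^ e * (K + 1 + 2 * K * Y ^ 2) : ℕ)) ^ r *
        (14 * (y.factorial ^ e * K ^ 2 * Y : ℕ) * n) ^ R0.card) B g' ∧
      pot y E B g' + (aff (SRel (gibbs N) a g K Y s) B R0).card ≤ pot y E B g := by
  classical
  have : Fact p.Prime := ⟨hp⟩
  set L := y.factorial ^ e with hL
  set M := L * (K + 1 + 2 * K * Y ^ 2) with hM
  set w := L * K ^ 2 * Y with hw
  set X := aff (SRel (gibbs N) a g K Y s) B R0 with hX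
  have hL1 : 1 ≤ L := Nat.pow_pos (Nat.factorial_pos y)
  have hM1 : 1 ≤ M := Nat.mul_pos hL1 (by omega)
  have hw1 : 1 ≤ w := Nat.mul_pos (Nat.mul_pos hL1 (Nat.pow_pos hK)) hY
  have hY' : (1 : ℝ) ≤ Y := by exact_mod_cast hY
  have hK' : (1 : ℝ) ≤ K := by exact_mod_cast hK
  have hL' : (1 : ℝ) ≤ L := by exact_mod_cast hL1
  have hsum : ∀ c, 0 ≤ ∑ i ∈ R0, chord (a i * c) := fun c => sum_nonneg fun i _ => chord_nonneg _
  have href : ∀ c, refine N M w R0 a c = (L : ℝ) * (K + 1 + 2 * K * Y ^ 2) * N c +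
      (L : ℝ) * K ^ 2 * Y * ∑ i ∈ R0, chord (a i * c) := by
    intro c
    unfold refine
    rw [hM, hw]
    push_cast
    rfl
  have hold : ∀ ξ : ZMod p, (∀ c, Y * chord (ξ * c) ≤ N c) →
      ∀ c, Y * chord ((L : ZMod p) * (ξ * c)) ≤ refine N M w R0 a c := by
    intro ξ h c
    rw [href]
    exact alg3 _ _ _ _ _ _ _ (Nat.cast_nonneg _) (Nat.cast_nonneg _) (Nat.cast_nonneg _)
      (hI.norm.nonneg c) (hsum c) (h c) (chord_nat_mul L (ξ * c))
  have hnew : ∀ l ∈ X, ∃ g' : ℕ, g' ≤ K ∧ (g' ≠ 0 → g'.Coprime y.factorial) ∧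
      lev y E g' + 1 ≤ lev y E (g l) ∧
      ∀ c, Y * chord ((g' : ZMod p) * ((L : ZMod p) * a l) * c) ≤ refine N M w R0 a c := by
    intro l hl
    obtain ⟨_, U, hU, hlU, _, k, hk, hft⟩ := mem_aff.mp hl
    obtain ⟨hkK, hkg⟩ := hk l hlU
    have hk0 : k l ≠ 0 := fun h => hkg (h ▸ dvd_zero _)
    have hkK' : (k l).natAbs ≤ K := by
      have := Int.natCast_natAbs (k l)
      omega
    have hkR : |((k l : ℤ) : ℝ)| ≤ K := by exact_mod_cast hkK
    have hkl : ∀ c, chord ((k l : ZMod p) * a l * c) ≤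
        2 * Y * N c + K * ∑ i ∈ R0, chord (a i * c) := by
      intro c
      have h1 := spectral hI.norm hY' hft c
      have e1 : (k l : ZMod p) * a l * c = (∑ i ∈ U, (k i : ZMod p) * a i) * c -
          ∑ i ∈ U.erase l, (k i : ZMod p) * (a i * c) := by
        rw [← add_sum_erase U _ hlU, add_mul, sum_mul]
        simp_rw [mul_assoc]
        ring
      rw [e1]
      refine (chord_sub _ _).trans (add_le_add h1 ((chord_sum _ _).trans ?_))
      rw [mul_sum]
      refine le_trans (sum_le_sum fun i hi => ?_) (sum_le_sum_of_subset_of_nonneg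
        (s := U.erase l) ?_ fun i _ _ => mul_nonneg (Nat.cast_nonneg _) (chord_nonneg _))
      · refine (chord_int_mul _ _).trans (mul_le_mul_of_nonneg_right ?_ (chord_nonneg _))
        exact_mod_cast (hk i (mem_of_mem_erase hi)).1
      · intro i hi
        rw [mem_erase] at hi
        exact (mem_insert.mp (hU hi.2)).resolve_left hi.1
    by_cases hg : g l = 0
    · set k' := (k l).natAbs with hk'
      have hk'0 : k' ≠ 0 := Int.natAbs_ne_zero.mpr hk0
      set d := Nat.gcd k' L with hd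
      have hd0 : 0 < d := Nat.gcd_pos_of_pos_right _ hL1
      have hgle : k' / d ≤ K := (Nat.div_le_self _ _).trans hkK'
      have hg0 : k' / d ≠ 0 :=
        (Nat.div_pos (Nat.le_of_dvd (Nat.pos_of_ne_zero hk'0) (Nat.gcd_dvd_left _ _)) hd0).ne'
      refine ⟨k' / d, hgle, fun _ => coprime_div_gcd k' y e hk'0 (by omega), ?_, fun c => ?_⟩
      · unfold lev
        rw [if_neg hg0, if_pos hg]
        have : Nat.log y (k' / d) < E + 1 := Nat.log_lt_of_lt_pow hg0 (by omega)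
        omega
      · have e1 : (k' / d) * L = (L / d) * k' := by
          obtain ⟨u, hu⟩ : d ∣ k' := Nat.gcd_dvd_left _ _
          obtain ⟨v, hv⟩ : d ∣ L := Nat.gcd_dvd_right _ _
          rw [hu, Nat.mul_div_cancel_left _ hd0]
          nth_rewrite 2 [hv]
          rw [Nat.mul_div_cancel_left _ hd0]
          nth_rewrite 1 [hv]
          ring
        have e2 : ((k' / d : ℕ) : ZMod p) * ((L : ZMod p) * a l) * c =
            ((L / d : ℕ) : ZMod p) * ((k' : ZMod p) * a l * c) := by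
          have : (((k' / d) * L : ℕ) : ZMod p) = (((L / d) * k' : ℕ) : ZMod p) := by rw [e1]
          push_cast at this
          calc _ = (((k' / d : ℕ) : ZMod p) * (L : ZMod p)) * (a l * c) := by ring
            _ = _ := by rw [this]; ring
        have e3 : chord ((k' : ZMod p) * a l * c) = chord ((k l : ZMod p) * a l * c) := by
          rcases Int.natAbs_eq (k l) with h | h
          · rw [← hk'] at h
            rw [h, Int.cast_natCast]
          · rw [← hk'] at h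
            rw [h, Int.cast_neg, Int.cast_natCast, neg_mul, neg_mul, chord_neg]
        rw [e2]
        have h2 := chord_nat_mul (L / d) ((k' : ZMod p) * a l * c)
        rw [e3] at h2
        have h3 : ((L / d : ℕ) : ℝ) ≤ L := by exact_mod_cast Nat.div_le_self _ _
        have h4 : ((L / d : ℕ) : ℝ) * chord ((k l : ZMod p) * a l * c) ≤
            L * (2 * Y * N c + K * ∑ i ∈ R0, chord (a i * c)) :=
          mul_le_mul h3 (hkl c) (chord_nonneg _) (Nat.cast_nonneg _)
        rw [href]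
        exact alg1 _ _ _ _ _ _ (Nat.cast_nonneg _) hK' (Nat.cast_nonneg _)
          (hI.norm.nonneg c) (hsum c) (h2.trans h4)
    · set g' := Nat.gcd (g l) (k l).natAbs with hg'
      have hdv : g' ∣ g l := Nat.gcd_dvd_left _ _
      have hg'0 : g' ≠ 0 := fun h => hg (Nat.eq_zero_of_gcd_eq_zero_left h)
      have hne : g' ≠ g l := by
        intro h
        apply hkg
        rw [← h, Int.natCast_dvd]
        exact Nat.gcd_dvd_right _ _
      refine ⟨g', (Nat.le_of_dvd (Nat.pos_of_ne_zero hg) hdv).trans (hI.ord_le l),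
        fun _ => Nat.Coprime.coprime_dvd_left hdv (hI.ord_rough l hg), ?_, fun c => ?_⟩
      · unfold lev
        rw [if_neg hg'0, if_neg hg]
        exact log_drop y _ _ hy2 hg (hI.ord_rough l hg) hdv hne
      · obtain ⟨u, v, huv, hu, hv⟩ := bezout_bdd (g l) hg (k l)
        have e2 : (g' : ZMod p) * ((L : ZMod p) * a l) * c = (L : ZMod p) *
            ((u : ZMod p) * ((g l : ZMod p) * a l * c) + (v : ZMod p) * ((k l : ZMod p) * a l * c)) := by
          have : (((g' : ℕ) : ℤ) : ZMod p) = ((u * (g l) + v * k l : ℤ) : ZMod p) := by rw [huv]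
          push_cast at this
          rw [this]; ring
        rw [e2]
        have hu' : |(u : ℝ)| ≤ K + 1 := by
          have : |u| ≤ K + 1 := by omega
          exact_mod_cast this
        have hv' : |(v : ℝ)| ≤ K := by
          have : |v| ≤ K := hv.trans (by exact_mod_cast hI.ord_le l)
          exact_mod_cast this
        have h1 := (chord_int_mul u ((g l : ZMod p) * a l * c)).trans
          (mul_le_mul_of_nonneg_right hu' (chord_nonneg _))
        have h2 := (chord_int_mul v ((k l : ZMod p) * a l * c)).trans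
          (mul_le_mul hv' (hkl c) (chord_nonneg _) (Nat.cast_nonneg _))
        have h3 := (chord_nat_mul L _).trans (mul_le_mul_of_nonneg_left
          ((chord_add _ _).trans (add_le_add h1 h2)) (Nat.cast_nonneg (α := ℝ) L))
        rw [href]
        exact alg2 _ _ _ _ _ _ _ (Nat.cast_nonneg _) (Nat.cast_nonneg _) (Nat.cast_nonneg _)
          (hI.ord l c) h3
  choose! g1 hg1 using hnew
  refine ⟨fun i => (L : ZMod p) * a i, refine N M w R0 a, fun i => if i ∈ X then g1 i else g i,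
    ⟨?_, ?_, ?_, ?_, ?_, ?_, ?_, ?_⟩, ?_⟩
  · obtain ⟨m, hm, h⟩ := hI.dil
    refine ⟨L * m, mul_ne_zero ?_ hm, fun i => by rw [h, mul_assoc]⟩
    rw [hL]; push_cast
    exact pow_ne_zero _ (natCast_factorial_ne_zero hp hy)
  · exact isNorm_refine hI.norm _ _ _ _
  · exact dim_refine hI.norm (zero_le_one.trans hI.one_le) hI.dim M w n hM1 hw1 hn R0
      ((card_le_univ _).trans hι) a
  · have h1 : (1 : ℝ) ≤ (4 * (M : ℝ)) ^ r := one_le_pow₀ (by
      have : (1 : ℝ) ≤ M := by exact_mod_cast hM1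
      linarith only [this])
    have h2 : (1 : ℝ) ≤ (14 * (w : ℝ) * n) ^ R0.card := one_le_pow₀ (by
      clear * - w hw1 n hn
      have : (1 : ℝ) ≤ w := by exact_mod_cast hw1
      have : (1 : ℝ) ≤ n := by exact_mod_cast hn
      nlinarith)
    exact one_le_mul_of_one_le_of_one_le (one_le_mul_of_one_le_of_one_le hI.one_le h1) h2
  · intro i
    obtain ⟨b, hb, h⟩ := hI.rep i
    refine ⟨b, hb, fun c => ?_⟩
    have := hold _ h c
    convert this using 3
    ring
  · intro i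
    by_cases h : i ∈ X
    · simp only [if_pos h]; exact (hg1 i h).1
    · simp only [if_neg h]; exact hI.ord_le i
  · intro i
    by_cases h : i ∈ X
    · simp only [if_pos h]; exact (hg1 i h).2.1
    · simp only [if_neg h]; exact hI.ord_rough i
  · intro i c
    by_cases h : i ∈ X
    · simp only [if_pos h]; exact (hg1 i h).2.2.2 c
    · simp only [if_neg h]
      have := hold _ (hI.ord i) c
      convert this using 3
      ring
  · unfold pot
    have e1 : X.card = ∑ i, if i ∈ X then 1 else 0 := by simp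
    rw [e1, add_assoc, ← sum_add_distrib]
    refine Nat.add_le_add_left (sum_le_sum fun i _ => ?_) _
    by_cases h : i ∈ X
    · simp only [if_pos h]; exact (hg1 i h).2.2.1
    · simp only [if_neg h]; omega

theorem round (hp : p.Prime) {a0 : ι → ZMod p} {K y Y : ℕ} (hY : 1 ≤ Y) (hK : 1 ≤ K)
    {a : ι → ZMod p} {N : ZMod p → ℝ} {r : ℕ} {W : ℝ} {B : Finset ι} {g : ι → ℕ}
    (hI : Inv a0 K y Y a N r W B g) (n : ℕ) (hn : 1 ≤ n) (hι : Fintype.card ι ≤ n) (s E e : ℕ)
    (hy : y < p) (hy2 : 2 ≤ y) (hE : K < y ^ (E + 1)) (he : K < 2 ^ e)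
    (lam : ℝ) (hlam : 0 < lam) (Q m : ℕ) (hQ : Q < p) :
    (∃ X, Final K Y s a N B g lam Q m X) ∨
    ∃ a' N' r' W' B' g', Inv a0 K y Y a' N' r' W' B' g' ∧ pot y E B' g' + (m + 1) ≤ pot y E B g ∧
      (r' : ℝ) ≤ r + n / lam ∧
      W' ≤ W * (Q.factorial : ℝ) ^ r *
        ((y.factorial ^ e * (16 * n * (K + 1) ^ 2 * Y ^ 2) : ℕ) : ℝ) ^ r' := by
  classical
  set X2 := soft (gibbs N) a Y Q B with hX2
  set R := SRel (gibbs N) a g K Y s with hR
  have hW0 : 0 ≤ W := zero_le_one.trans hI.one_le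
  have hL1 : 1 ≤ y.factorial ^ e := Nat.pow_pos (Nat.factorial_pos y)
  have hY2 : 1 ≤ Y ^ 2 := Nat.pow_pos hY
  have hYY : Y ≤ Y ^ 2 := by nlinarith only [hY]
  by_cases h2 : m < X2.card
  · right
    obtain ⟨a', N', h⟩ := merge_step hp hY hI n hn hι Q hQ
    refine ⟨a', N', r, _, _, g, h, ?_, ?_, ?_⟩
    · unfold pot
      have := card_sdiff_add_card_eq_card (fun l hl => (mem_soft.mp hl).1 : X2 ⊆ B)
      rw [← hX2]
      omega
    · have : (0 : ℝ) ≤ n / lam := by positivity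
      linarith only [this]
    · rw [mul_assoc W, ← mul_pow]
      refine mul_le_mul_of_nonneg_left (pow_le_pow_left₀ (by positivity) ?_ _) hW0
      have h3 : 4 * (1 + 2 * n * Y ^ 2) ≤ y.factorial ^ e * (16 * n * (K + 1) ^ 2 * Y ^ 2) := by
        clear * - n Y hn hY2 K p ι y hK a N B E e Q m hL1
        have h4 : 1 ≤ n * Y ^ 2 := Nat.mul_pos hn hY2
        have h5 : 1 ≤ (K + 1) ^ 2 := Nat.pow_pos (by omega)
        calc 4 * (1 + 2 * n * Y ^ 2) ≤ 16 * (n * Y ^ 2) := by linarith only [h4]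
          _ = 1 * (16 * n * 1 * Y ^ 2) := by ring
          _ ≤ _ := by gcongr
      have h6 : 4 * (Q.factorial * (1 + 2 * n * Y ^ 2)) ≤
          Q.factorial * (y.factorial ^ e * (16 * n * (K + 1) ^ 2 * Y ^ 2)) := by
        calc _ = Q.factorial * (4 * (1 + 2 * n * Y ^ 2)) := by ring
          _ ≤ _ := Nat.mul_le_mul_left _ h3
      exact_mod_cast h6
  obtain ⟨R0, hR0, hmax⟩ := exists_max_image B.powerset
    (fun T => ((aff R B T).card : ℝ) - lam * T.card) ⟨∅, empty_mem_powerset _⟩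
  by_cases h1 : m < (aff R B R0).card
  · right
    obtain ⟨a', N', g', h, hpot⟩ := drop_step hp hY hK hI n hn hι s E e hy hy2 hE he R0
    refine ⟨a', N', _, _, B, g', h, by rw [← hR] at hpot; omega, ?_, ?_⟩
    · have h3 := hmax ∅ (empty_mem_powerset _)
      simp only [card_empty, Nat.cast_zero, mul_zero, sub_zero] at h3
      have h4 : ((aff R B R0).card : ℝ) ≤ n := by exact_mod_cast (card_le_univ _).trans hι
      have h5 : (R0.card : ℝ) ≤ n / lam := by
        rw [le_div_iff₀ hlam]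
        have : (0 : ℝ) ≤ (aff R B ∅).card := Nat.cast_nonneg _
        linarith only [h3, h4]
      push_cast
      linarith only [h5]
    · have h3 : 4 * (y.factorial ^ e * (K + 1 + 2 * K * Y ^ 2)) ≤
          Q.factorial * (y.factorial ^ e * (16 * n * (K + 1) ^ 2 * Y ^ 2)) := by
        clear * - K Y hY2 p ι y a N B g n s E e Q m R0 g' hn
        have h4 : K + 1 + 2 * K * Y ^ 2 ≤ 4 * ((K + 1) ^ 2 * Y ^ 2) := by
          have h5 : (K + 1) * 1 ≤ (K + 1) * Y ^ 2 := Nat.mul_le_mul_left _ hY2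
          have h6 : (K + 1) * Y ^ 2 ≤ (K + 1) ^ 2 * Y ^ 2 :=
            Nat.mul_le_mul_right _ (Nat.le_self_pow (by norm_num) _)
          have h7 : 2 * K * Y ^ 2 ≤ 2 * ((K + 1) * Y ^ 2) := by
            rw [mul_assoc]; gcongr; omega
          omega
        calc _ ≤ 4 * (y.factorial ^ e * (4 * ((K + 1) ^ 2 * Y ^ 2))) := by gcongr
          _ = 1 * (y.factorial ^ e * (16 * 1 * (K + 1) ^ 2 * Y ^ 2)) := by ring
          _ ≤ _ := by gcongr; exact Nat.factorial_pos Q
      have h4 : 14 * (y.factorial ^ e * K ^ 2 * Y) * n ≤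
          y.factorial ^ e * (16 * n * (K + 1) ^ 2 * Y ^ 2) := by
        clear * - y e K Y n p ι a N B g s E Q m R0 g' hYY
        calc _ = y.factorial ^ e * (14 * n * K ^ 2 * Y) := by ring
          _ ≤ _ := by gcongr <;> omega
      have h3' : (4 : ℝ) * ((y.factorial ^ e * (K + 1 + 2 * K * Y ^ 2) : ℕ) : ℝ) ≤
          Q.factorial * ((y.factorial ^ e * (16 * n * (K + 1) ^ 2 * Y ^ 2) : ℕ) : ℝ) := by
        exact_mod_cast h3
      have h4' : (14 : ℝ) * ((y.factorial ^ e * K ^ 2 * Y : ℕ) : ℝ) * n ≤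
          ((y.factorial ^ e * (16 * n * (K + 1) ^ 2 * Y ^ 2) : ℕ) : ℝ) := by
        exact_mod_cast h4
      rw [pow_add, ← mul_assoc, mul_assoc W ((Q.factorial : ℝ) ^ r), ← mul_pow]
      clear * - W y e K Y r Q n ι R0 hK hY h3' hW0 hn h4'; gcongr
  · left
    refine ⟨aff R B R0 ∪ X2, ?_, ?_, ?_⟩
    · have := card_union_le (aff R B R0) X2
      omega
    · intro T hT
      rw [← hR]
      have h3 := hmax (R0 ∪ T) (mem_powerset.mpr (union_subset (mem_powerset.mp hR0) hT))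
      have h4 : aff R B T \ (aff R B R0 ∪ X2) ⊆ aff R B (R0 ∪ T) \ aff R B R0 := by
        intro l hl
        rw [mem_sdiff] at hl ⊢
        exact ⟨aff_mono R B subset_union_right hl.1, fun h => hl.2 (mem_union_left _ h)⟩
      have h5 := card_sdiff_add_card_eq_card (aff_mono R B (subset_union_left : R0 ⊆ R0 ∪ T))
      have h6 := card_le_card h4
      have h7 : ((aff R B T \ (aff R B R0 ∪ X2)).card : ℝ) + (aff R B R0).card ≤
          (aff R B (R0 ∪ T)).card := by
        have : (aff R B T \ (aff R B R0 ∪ X2)).card + (aff R B R0).card ≤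
          (aff R B (R0 ∪ T)).card := by omega
        exact_mod_cast this
      have h8 : ((R0 ∪ T).card : ℝ) ≤ R0.card + T.card := by exact_mod_cast card_union_le R0 T
      have h9 := mul_le_mul_of_nonneg_left h8 hlam.le
      linarith only [h3, h7, h9]
    · intro i hi l hl hil k hk0 hkQ
      rw [mem_sdiff, mem_union] at hi hl
      by_contra hcon
      push Not at hcon
      rcases lt_or_gt_of_ne hil with h | h
      · exact hl.2 (Or.inr (mem_soft.mpr ⟨hl.1, i, hi.1, h, k, hk0, hkQ, hcon⟩))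
      · refine hi.2 (Or.inr (mem_soft.mpr ⟨hi.1, l, hl.1, h, k, hk0, hkQ, ?_⟩))
        rw [← norm_ft_neg] at hcon
        have e : (k : ZMod p) * (a l - a i) = -((k : ZMod p) * (a i - a l)) := by ring
        rw [e]
        exact hcon

theorem regularize (hp : p.Prime) (a0 : ι → ZMod p) {K y Y : ℕ} (hY : 1 ≤ Y) (hK : 1 ≤ K)
    (n : ℕ) (hn : 1 ≤ n) (hι : Fintype.card ι ≤ n) (s E e : ℕ)
    (hy : y < p) (hy2 : 2 ≤ y) (hE : K < y ^ (E + 1)) (he : K < 2 ^ e) (m J : ℕ)
    (hJ : n * (E + 2) < J * (m + 1)) (lam : ℕ → ℝ) (hlam : ∀ j < J, 0 < lam j) (Q : ℕ → ℕ)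
    (hQ : ∀ j < J, Q j < p) (rb : ℕ → ℝ) (hrb0 : 0 ≤ rb 0)
    (hrb : ∀ j < J, rb j + n / lam j ≤ rb (j + 1)) (cost : ℝ) (hcost0 : 0 ≤ cost)
    (hcost : ∀ j < J, rb j * Real.log ((Q j).factorial) + rb (j + 1) *
      Real.log ((y.factorial ^ e * (16 * n * (K + 1) ^ 2 * Y ^ 2) : ℕ) : ℝ) ≤ cost) :
    ∃ j < J, ∃ a N r W B g X, Inv a0 K y Y a N r W B g ∧ W ≤ Real.exp (J * cost) ∧
      Final K Y s a N B g (lam j) (Q j) m X := by
  classical
  have key : ∀ j ≤ J, (∃ j < J, ∃ a N r W B g X, Inv a0 K y Y a N r W B g ∧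
      W ≤ Real.exp (J * cost) ∧ Final K Y s a N B g (lam j) (Q j) m X) ∨
      ∃ a N r W B g, Inv a0 K y Y a N r W B g ∧ pot y E B g + j * (m + 1) ≤ n * (E + 2) ∧
        (r : ℝ) ≤ rb j ∧ W ≤ Real.exp (j * cost) := by
    intro j
    induction j with
    | zero =>
      intro _
      right
      refine ⟨a0, fun _ => 0, 0, 1, univ, fun _ => 0, ⟨⟨1, ?_, by simp⟩, ⟨by simp, by simp, by simp⟩,
        ?_, le_rfl, ?_, by simp, by simp, by simp⟩, ?_, by simpa using hrb0, by simp⟩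
      · have : Fact p.Prime := ⟨hp⟩
        exact one_ne_zero
      · intro M _
        simp [ZMod.card]
      · intro i
        exact ⟨i, mem_univ _, by simp⟩
      · unfold pot lev
        simp only [if_true, sum_const, card_univ, smul_eq_mul, zero_mul, add_zero]
        nlinarith only [hι]
    | succ j ih =>
      intro hj
      rcases ih (by omega) with h | ⟨a, N, r, W, B, g, hI, hpot, hr, hW⟩
      · exact Or.inl h
      have hjJ : j < J := by omega
      rcases round hp hY hK hI n hn hι s E e hy hy2 hE he (lam j) (hlam j hjJ) (Q j) m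
        (hQ j hjJ) with ⟨X, hX⟩ | ⟨a', N', r', W', B', g', hI', hpot', hr', hW'⟩
      · left
        refine ⟨j, hjJ, a, N, r, W, B, g, X, hI, hW.trans (Real.exp_le_exp.mpr ?_), hX⟩
        have : (j : ℝ) ≤ J := by exact_mod_cast hjJ.le
        gcongr
      · right
        have hr'' : (r' : ℝ) ≤ rb (j + 1) := by linarith only [hr, hr', hrb, hjJ, hrb j hjJ]
        refine ⟨a', N', r', W', B', g', hI', by rw [add_mul]; omega, hr'', hW'.trans ?_⟩
        set Z : ℝ := ((y.factorial ^ e * (16 * n * (K + 1) ^ 2 * Y ^ 2) : ℕ) : ℝ) with hZ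
        have hZ1 : 1 ≤ Z := by
          have : 1 ≤ y.factorial ^ e * (16 * n * (K + 1) ^ 2 * Y ^ 2) := by
            have := Nat.factorial_pos y
            exact Nat.succ_le_of_lt (by positivity)
          rw [hZ]
          exact_mod_cast this
        have hQ1 : (1 : ℝ) ≤ (Q j).factorial := by exact_mod_cast Nat.factorial_pos (Q j)
        have e1 : ((Q j).factorial : ℝ) ^ r = Real.exp (r * Real.log (Q j).factorial) := by
          rw [Real.exp_nat_mul, Real.exp_log (by linarith only [hQ1])]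
        have e2 : Z ^ r' = Real.exp (r' * Real.log Z) := by
          rw [Real.exp_nat_mul, Real.exp_log (by linarith only [hZ1])]
        have h3 := mul_le_mul_of_nonneg_right hr (Real.log_nonneg hQ1)
        have h4 := mul_le_mul_of_nonneg_right hr'' (Real.log_nonneg hZ1)
        have h5 := hcost j hjJ
        rw [e1, e2]
        calc W * Real.exp (r * Real.log (Q j).factorial) * Real.exp (r' * Real.log Z)
            ≤ Real.exp (j * cost) * Real.exp (r * Real.log (Q j).factorial) *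
              Real.exp (r' * Real.log Z) := by gcongr
          _ ≤ _ := by
              rw [← Real.exp_add, ← Real.exp_add, Real.exp_le_exp]
              push_cast
              linarith only [h3, h4, h5]
  rcases key J le_rfl with h | ⟨a, N, r, W, B, g, _, hpot, _, _⟩
  · exact h
  · omega

end Pool.Agent.Work.MP_c4c804_co
end

-- merged part: Pool.Agent.Work.MP_c4c804_co.Center
section
/-!
Centered moments of bump functions are small in the absence of relations.
-/

set_option autoImplicit false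

namespace Pool.Agent.Work.MP_c4c804_co

open Finset

lemma norm_prod_sub_prod_le {ι : Type*} (U : Finset ι) (x y : ι → ℂ) (M ε : ℝ) (hM : 1 ≤ M)
    (hε : 0 ≤ ε) (hx : ∀ i ∈ U, ‖x i‖ ≤ M) (hy : ∀ i ∈ U, ‖y i‖ ≤ M)
    (hxy : ∀ i ∈ U, ‖x i - y i‖ ≤ ε) :
    ‖∏ i ∈ U, x i - ∏ i ∈ U, y i‖ ≤ U.card * ε * M ^ U.card := by
  classical
  induction U using Finset.induction_on with
  | empty => simp
  | insert j U hj ih =>
    have ih' := ih (fun i hi => hx i (mem_insert_of_mem hi)) (fun i hi => hy i (mem_insert_of_mem hi))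
      (fun i hi => hxy i (mem_insert_of_mem hi))
    rw [prod_insert hj, prod_insert hj, card_insert_of_notMem hj]
    have e : x j * ∏ i ∈ U, x i - y j * ∏ i ∈ U, y i =
        x j * (∏ i ∈ U, x i - ∏ i ∈ U, y i) + (x j - y j) * ∏ i ∈ U, y i := by ring
    have h1 : ‖∏ i ∈ U, y i‖ ≤ M ^ U.card := by
      rw [norm_prod, ← prod_const]
      exact prod_le_prod (fun i _ => norm_nonneg _) fun i hi => hy i (mem_insert_of_mem hi)
    have h2 : ‖x j * (∏ i ∈ U, x i - ∏ i ∈ U, y i)‖ ≤ M * (U.card * ε * M ^ U.card) := by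
      rw [norm_mul]
      exact mul_le_mul (hx j (mem_insert_self _ _)) ih' (norm_nonneg _) (by linarith)
    have h3 : ‖(x j - y j) * ∏ i ∈ U, y i‖ ≤ ε * M ^ U.card := by
      rw [norm_mul]
      exact mul_le_mul (hxy j (mem_insert_self _ _)) h1 (norm_nonneg _) hε
    have h4 : ε * M ^ U.card ≤ M * (ε * M ^ U.card) :=
      le_mul_of_one_le_left (by positivity) hM
    rw [e]
    refine (norm_add_le _ _).trans ?_
    push_cast
    rw [pow_succ]
    linarith

variable {p : ℕ} [NeZero p]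

lemma norm_mean_prod_le {ι α : Type*} (ν : ZMod p → ℝ) (a : ι → ZMod p) (P : ι → ℤ → Prop)
    (T : Finset α) (κ : α → ℤ) (b : ι → α → ℂ) (K η : ℝ) (hη : 0 ≤ η)
    (hb : ∀ i, ∑ σ ∈ T, ‖b i σ‖ ≤ K) (hbP : ∀ i, ∀ σ ∈ T, b i σ ≠ 0 → P i (κ σ))
    (U : Finset ι) : ∀ ξ : ZMod p, (∀ k : ι → ℤ, (∀ i ∈ U, P i (k i)) →
      ‖ft ν (ξ + ∑ i ∈ U, (k i : ZMod p) * a i)‖ ≤ η) →
      ‖∑ c, (ν c : ℂ) * (ec (ξ * c) * ∏ i ∈ U, ∑ σ ∈ T, b i σ * ec ((κ σ : ZMod p) * (a i * c)))‖
        ≤ K ^ U.card * η := by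
  classical
  induction U using Finset.induction_on with
  | empty =>
    intro ξ h
    have := h (fun _ => 0) (by simp)
    simpa [ft] using this
  | insert j U hj ih =>
    intro ξ h
    have hK : 0 ≤ K := le_trans (sum_nonneg fun _ _ => norm_nonneg _) (hb j)
    have e : ∑ c, (ν c : ℂ) * (ec (ξ * c) *
        ∏ i ∈ insert j U, ∑ σ ∈ T, b i σ * ec ((κ σ : ZMod p) * (a i * c))) =
        ∑ σ ∈ T, b j σ * ∑ c, (ν c : ℂ) * (ec ((ξ + (κ σ : ZMod p) * a j) * c) *
          ∏ i ∈ U, ∑ σ ∈ T, b i σ * ec ((κ σ : ZMod p) * (a i * c))) := by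
      simp_rw [prod_insert hj, mul_sum (s := univ)]
      rw [sum_comm]
      refine sum_congr rfl fun c _ => ?_
      rw [sum_mul, mul_sum, mul_sum]
      refine sum_congr rfl fun σ _ => ?_
      rw [add_mul, ec_add, mul_assoc (κ σ : ZMod p)]
      ring
    rw [e]
    refine (norm_sum_le _ _).trans ?_
    have h2 : ∀ σ ∈ T, ‖b j σ * ∑ c, (ν c : ℂ) * (ec ((ξ + (κ σ : ZMod p) * a j) * c) *
          ∏ i ∈ U, ∑ σ ∈ T, b i σ * ec ((κ σ : ZMod p) * (a i * c)))‖ ≤
          ‖b j σ‖ * (K ^ U.card * η) := by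
      intro σ hσ
      by_cases hb0 : b j σ = 0
      · simp [hb0]
      rw [norm_mul]
      refine mul_le_mul_of_nonneg_left (ih _ fun k hk => ?_) (norm_nonneg _)
      have := h (Function.update k j (κ σ)) (by
        intro i hi
        rcases mem_insert.mp hi with rfl | hi
        · rw [Function.update_self]; exact hbP _ σ hσ hb0
        · rw [Function.update_of_ne (ne_of_mem_of_not_mem hi hj)]; exact hk i hi)
      rw [sum_insert hj, Function.update_self, ← add_assoc] at this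
      have e3 : ∑ i ∈ U, (k i : ZMod p) * a i =
          ∑ i ∈ U, ((Function.update k j (κ σ) i : ℤ) : ZMod p) * a i :=
        sum_congr rfl fun i hi => by rw [Function.update_of_ne (ne_of_mem_of_not_mem hi hj)]
      rw [e3]
      exact this
    refine (sum_le_sum h2).trans ?_
    rw [← sum_mul, card_insert_of_notMem hj, pow_succ]
    calc _ ≤ K * (K ^ U.card * η) := mul_le_mul_of_nonneg_right (hb j) (by positivity)
      _ = _ := by ring

variable {ι : Type*} [Fintype ι] [LinearOrder ι]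

omit [Fintype ι] [LinearOrder ι] in
lemma centered_small (ν : ZMod p → ℝ) (hν0 : ∀ c, 0 ≤ ν c) (hν1 : ∑ c, ν c = 1)
    (N : ZMod p → ℝ) (hN : ∀ c, 0 ≤ N c) (H : ℝ) (hH : ∑ c, ν c * N c ≤ H)
    (a : ι → ZMod p) (g : ι → ℕ) (K Y : ℕ) (hK : 1 ≤ K) (hKp : K ≤ p) (hY : 1 ≤ Y)
    (hord : ∀ i c, Y * chord ((g i : ZMod p) * a i * c) ≤ N c) (σ : ℝ) (t : ZMod p)
    (U : Finset ι) (hU : ¬ IsRel ν a g K Y U) (hU1 : ∀ i ∈ U, ¬ IsRel ν a g K Y {i}) :
    |∑ c, ν c * ∏ i ∈ U, (bump K σ (a i * c - t) - ∑ c', ν c' * bump K σ (a i * c' - t))| ≤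
      (U.card + 1) * (K : ℝ) ^ (U.card + 2) * (2 * H + 1) / Y := by
  classical
  obtain ⟨b, hb, hexp⟩ := bump_expand (p := p) K hK σ t
  set T := range K ×ˢ range K with hT
  set κ : ℕ × ℕ → ℤ := fun jj => (jj.1 : ℤ) - (jj.2 : ℤ) with hκ
  have hK' : (1 : ℝ) ≤ K := by exact_mod_cast hK
  have hY' : (0 : ℝ) < Y := by exact_mod_cast hY
  have hH0 : 0 ≤ H := le_trans (sum_nonneg fun c _ => mul_nonneg (hν0 c) (hN c)) hH
  have hκK : ∀ σ ∈ T, |κ σ| ≤ K := by
    intro jj hjj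
    simp only [hT, mem_product, mem_range] at hjj
    simp only [hκ]
    rw [abs_le]; omega
  set b1 : ι → ℕ × ℕ → ℂ := fun i jj => if (g i : ℤ) ∣ κ jj then 0 else b jj with hb1
  set b0 : ι → ℕ × ℕ → ℂ := fun i jj => if (g i : ℤ) ∣ κ jj then b jj else 0 with hb0
  have hb1K : ∀ i, ∑ σ ∈ T, ‖b1 i σ‖ ≤ K := fun i =>
    le_trans (sum_le_sum fun jj _ => by simp only [hb1]; split_ifs <;> simp) hb
  set V : ι → ZMod p → ℂ := fun i c => ∑ σ ∈ T, b1 i σ * ec ((κ σ : ZMod p) * (a i * c)) with hV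
  set D : ι → ZMod p → ℂ := fun i c =>
    ∑ σ ∈ T, b0 i σ * (ec ((κ σ : ZMod p) * (a i * c)) - 1) with hD
  set q : ι → ℂ := fun i => ∑ σ ∈ T, b0 i σ with hq
  have hdec : ∀ i c, ((bump K σ (a i * c - t) : ℝ) : ℂ) = q i + D i c + V i c := by
    intro i c
    rw [hexp]
    simp only [hq, hD, hV]
    rw [← sum_add_distrib, ← sum_add_distrib]
    refine sum_congr rfl fun jj _ => ?_
    simp only [hb0, hb1, hκ]
    split_ifs <;> ring
  have hVK : ∀ i c, ‖V i c‖ ≤ K := by
    intro i c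
    refine (norm_sum_le _ _).trans (le_trans (sum_le_sum fun jj _ => ?_) (hb1K i))
    rw [norm_mul, norm_ec, mul_one]
  have hDle : ∀ i c, ‖D i c‖ ≤ K ^ 2 * N c / Y := by
    clear * - ι p K N Y hN hK hY T b0 κ a b g hb0 hκK hY' hord hb hK'
    intro i c
    have h0 : 0 ≤ K * N c / Y := by have := hN c; positivity
    have h1 : ∀ jj ∈ T, ‖b0 i jj * (ec ((κ jj : ZMod p) * (a i * c)) - 1)‖ ≤
        ‖b jj‖ * (K * N c / Y) := by
      intro jj hjj
      simp only [hb0]
      split_ifs with h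
      · rw [norm_mul]
        refine mul_le_mul_of_nonneg_left ?_ (norm_nonneg _)
        obtain ⟨u, hu⟩ := h
        by_cases hg : g i = 0
        · have : κ jj = 0 := by rw [hu, hg]; simp
          rw [this]; simpa using h0
        · have h2 : |u| ≤ K := by
            have h3 := hκK jj hjj
            rw [hu, abs_mul] at h3
            have h4 : (1 : ℤ) ≤ |(g i : ℤ)| := by
              rw [abs_of_nonneg (Nat.cast_nonneg _)]
              exact_mod_cast Nat.pos_of_ne_zero hg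
            (refine le_of_not_gt fun h_nl => ?_; linarith only [h_nl, h3, h4, abs_nonneg u, mul_nonneg_of_nonpos_of_nonpos (Mathlib.Tactic.Linarith.sub_nonpos_of_le (Mathlib.Tactic.Linarith.natCast_nonneg ℤ K)) (Mathlib.Tactic.Linarith.sub_nonpos_of_le h4), mul_nonneg_of_nonpos_of_nonpos (Mathlib.Tactic.Linarith.sub_nonpos_of_le h4) (Mathlib.Tactic.Linarith.sub_nonpos_of_le (Int.add_one_le_iff.mpr h_nl))])
          have h2' : |(u : ℝ)| ≤ K := by exact_mod_cast h2
          have e : (κ jj : ZMod p) * (a i * c) = (u : ZMod p) * ((g i : ZMod p) * a i * c) := by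
            rw [hu]; push_cast; ring
          rw [e]
          refine (chord_int_mul u _).trans ?_
          have h5 : chord ((g i : ZMod p) * a i * c) ≤ N c / Y := by
            rw [le_div_iff₀ hY', mul_comm]; exact hord i c
          rw [mul_div_assoc]
          exact mul_le_mul h2' h5 (chord_nonneg _) (by linarith only [hK'])
      · rw [zero_mul, norm_zero]; positivity
    refine (norm_sum_le _ _).trans ((sum_le_sum h1).trans ?_)
    rw [← sum_mul]
    calc _ ≤ K * (K * N c / Y) := mul_le_mul_of_nonneg_right hb h0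
      _ = _ := by ring
  have hmean : ∀ U' : Finset ι, ¬ IsRel ν a g K Y U' →
      ‖∑ c, (ν c : ℂ) * ∏ i ∈ U', V i c‖ ≤ K ^ U'.card * (1 / Y) := by
    clear * - ι p ν a g K Y T b1 κ hY hb1K hκK b hb1 V hV
    intro U' hU'
    have := norm_mean_prod_le ν a (fun i k => |k| ≤ K ∧ ¬ (g i : ℤ) ∣ k) T κ b1 K (1 / Y)
      (by positivity) hb1K (by
        intro i jj hjj h
        refine ⟨hκK jj hjj, fun h' => h ?_⟩
        simp only [hb1, if_pos h']) U' 0 (by
        intro k hk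
        rw [zero_add]
        by_contra h
        exact hU' ⟨k, hk, not_le.mp h⟩)
    simpa [hV] using this
  set pr : ι → ℝ := fun i => ∑ c', ν c' * bump K σ (a i * c' - t) with hpr
  have hν1' : ∑ c, (ν c : ℂ) = 1 := by exact_mod_cast hν1
  have hprdec : ∀ i, (pr i : ℂ) = q i + ∑ c, (ν c : ℂ) * D i c + ∑ c, (ν c : ℂ) * V i c := by
    intro i
    simp only [hpr]
    push_cast
    simp_rw [hdec, mul_add, sum_add_distrib, ← sum_mul, hν1', one_mul]
  have hED : ∀ i, ‖∑ c, (ν c : ℂ) * D i c‖ ≤ K ^ 2 * H / Y := by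
    clear * - ι p ν D K H Y N hν0 hDle hH hK hY
    intro i
    refine (norm_sum_le _ _).trans ?_
    calc _ ≤ ∑ c, K ^ 2 / Y * (ν c * N c) := by
          refine sum_le_sum fun c _ => ?_
          rw [norm_mul, Complex.norm_real, Real.norm_eq_abs, abs_of_nonneg (hν0 c)]
          calc _ ≤ ν c * (K ^ 2 * N c / Y) := mul_le_mul_of_nonneg_left (hDle i c) (hν0 c)
            _ = _ := by ring
      _ ≤ K ^ 2 / Y * H := by rw [← mul_sum]; gcongr
      _ = _ := by ring
  have hpt : ∀ c, ‖∏ i ∈ U, (((bump K σ (a i * c - t) - pr i : ℝ)) : ℂ) - ∏ i ∈ U, V i c‖ ≤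
      U.card * (K ^ 2 * N c / Y + K ^ 2 * H / Y + K / Y) * K ^ U.card := by
    clear * - p ι U K σ a t pr V N Y H hK' hN hK hY hH0 hKp ν hν0 hν1 hVK hmean hU1 D q hdec hprdec
      hDle hED
    intro c
    refine norm_prod_sub_prod_le U _ _ K _ hK' (by have := hN c; positivity) ?_
      (fun i _ => hVK i c) ?_
    · intro i _
      rw [Complex.norm_real, Real.norm_eq_abs]
      have h1 := bump_nonneg K σ (a i * c - t)
      have h2 := bump_le_one K hK hKp σ (a i * c - t)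
      have h3 : 0 ≤ pr i := sum_nonneg fun c _ => mul_nonneg (hν0 c) (bump_nonneg _ _ _)
      have h4 : pr i ≤ 1 := by
        rw [← hν1]
        exact sum_le_sum fun c _ => mul_le_of_le_one_right (hν0 c) (bump_le_one K hK hKp σ _)
      rw [abs_le]; constructor <;> linarith
    · intro i hi
      have h1 := hmean {i} (hU1 i hi)
      simp only [prod_singleton, card_singleton, pow_one] at h1
      have e : (((bump K σ (a i * c - t) - pr i : ℝ)) : ℂ) - V i c =
          D i c - ∑ c, (ν c : ℂ) * D i c - ∑ c, (ν c : ℂ) * V i c := by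
        rw [Complex.ofReal_sub, hdec, hprdec]; ring
      rw [e]
      refine (norm_sub_le _ _).trans (add_le_add ((norm_sub_le _ _).trans
        (add_le_add (hDle i c) (hED i))) ?_)
      rwa [mul_one_div] at h1
  have e1 : ((∑ c, ν c * ∏ i ∈ U, (bump K σ (a i * c - t) - pr i) : ℝ) : ℂ) =
      ∑ c, (ν c : ℂ) * (∏ i ∈ U, (((bump K σ (a i * c - t) - pr i : ℝ)) : ℂ) - ∏ i ∈ U, V i c) +
        ∑ c, (ν c : ℂ) * ∏ i ∈ U, V i c := by
    rw [← sum_add_distrib, Complex.ofReal_sum]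
    refine sum_congr rfl fun c _ => ?_
    rw [Complex.ofReal_mul, Complex.ofReal_prod]; ring
  rw [← Real.norm_eq_abs, ← Complex.norm_real, e1]
  refine (norm_add_le _ _).trans ?_
  have h2 : ‖∑ c, (ν c : ℂ) *
      (∏ i ∈ U, (((bump K σ (a i * c - t) - pr i : ℝ)) : ℂ) - ∏ i ∈ U, V i c)‖ ≤
      U.card * (K ^ 2 * H / Y + K ^ 2 * H / Y + K / Y) * K ^ U.card := by
    clear * - p ν ι U K σ a t pr V H Y N hν0 hpt hν1 hH hK hY
    refine (norm_sum_le _ _).trans ?_
    calc _ ≤ ∑ c, (U.card * (K ^ 2 / Y) * K ^ U.card * (ν c * N c) +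
            U.card * (K ^ 2 * H / Y + K / Y) * K ^ U.card * ν c) := by
          refine sum_le_sum fun c _ => ?_
          rw [norm_mul, Complex.norm_real, Real.norm_eq_abs, abs_of_nonneg (hν0 c)]
          calc _ ≤ ν c * (U.card * (K ^ 2 * N c / Y + K ^ 2 * H / Y + K / Y) * K ^ U.card) :=
                mul_le_mul_of_nonneg_left (hpt c) (hν0 c)
            _ = _ := by ring
      _ ≤ U.card * (K ^ 2 / Y) * K ^ U.card * H +
            U.card * (K ^ 2 * H / Y + K / Y) * K ^ U.card := by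
          rw [sum_add_distrib, ← mul_sum, ← mul_sum, hν1, mul_one]
          gcongr
      _ = _ := by ring
  refine (add_le_add h2 (hmean U hU)).trans ?_
  rw [le_div_iff₀ hY']
  have h3 : (0 : ℝ) ≤ (K : ℝ) ^ U.card := by positivity
  have h4 : (0 : ℝ) ≤ U.card := Nat.cast_nonneg _
  have e2 : ((U.card : ℝ) * (K ^ 2 * H / Y + K ^ 2 * H / Y + K / Y) * K ^ U.card +
      K ^ U.card * (1 / Y)) * Y = K ^ U.card * (U.card * (2 * K ^ 2 * H + K) + 1) := by
    field_simp; ring
  have e3 : ((U.card : ℝ) + 1) * (K : ℝ) ^ (U.card + 2) * (2 * H + 1) =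
      K ^ U.card * ((U.card + 1) * (K ^ 2 * (2 * H + 1))) := by rw [pow_add]; ring
  rw [e2, e3]
  refine mul_le_mul_of_nonneg_left ?_ h3
  have h5 : (K : ℝ) ≤ K ^ 2 := by linarith only [hK', mul_nonneg_of_nonpos_of_nonpos (Mathlib.Tactic.Linarith.sub_nonpos_of_le (Mathlib.Tactic.Linarith.natCast_nonneg ℝ K)) (Mathlib.Tactic.Linarith.sub_nonpos_of_le hK')]
  have h6 : (0 : ℝ) ≤ K ^ 2 * H := by positivity
  have h7 := mul_le_mul_of_nonneg_left h5 h4
  linarith only [hK', h5, h6, h7]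

end Pool.Agent.Work.MP_c4c804_co
end
end

-- merged part: Pool.Agent.Work.MP_c4c804_co.Final
section
/-!
From the regularised state to a gap.
-/

set_option autoImplicit false

namespace Pool.Agent.Work.MP_c4c804_co

open Finset

variable {p : ℕ} [NeZero p]

open Classical in
lemma sum_ind_shift (u : ZMod p) (ρ : ℝ) (hρ : 0 ≤ ρ) :
    ∑ t : ZMod p, (if chord (u - t) ≤ ρ then (1 : ℝ) else 0) ≤ ρ * p / 2 + 1 := by
  refine le_trans (le_of_eq ?_) (card_chord_le (p := p) ρ hρ)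
  rw [card_filter]
  push_cast
  exact Fintype.sum_equiv (Equiv.subLeft u) _ _ (fun t => by simp)

open Classical in
lemma sum_ind_mul (hp : p.Prime) (g : ℕ) (hg : 1 ≤ g) (hgp : g < p) (ρ : ℝ) (hρ : 0 ≤ ρ) :
    ∑ t : ZMod p, (if chord ((g : ZMod p) * t) ≤ ρ then (1 : ℝ) else 0) ≤ ρ * p / 2 + 1 := by
  have : Fact p.Prime := ⟨hp⟩
  have hg0 : (g : ZMod p) ≠ 0 := by
    rw [Ne, ZMod.natCast_eq_zero_iff]
    exact Nat.not_dvd_of_pos_of_lt hg hgp
  refine le_trans (le_of_eq ?_) (card_chord_le (p := p) ρ hρ)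
  rw [card_filter]
  push_cast
  exact Fintype.sum_equiv (Equiv.mulLeft₀ (g : ZMod p) hg0) _ _ (fun t => by simp)

open Classical in
lemma bump_mul_le (K : ℕ) (hK : 1 ≤ K) (hKp : K ≤ p) (σ : ℝ) (hσ : 0 < σ) (u v : ZMod p) :
    bump K σ u * bump K σ v ≤ (if chord (u - v) ≤ 8 * σ then 1 else 0) * bump K σ u +
      4 / (K * σ ^ 2) * (bump K σ u + bump K σ v) := by
  have h1 := bump_nonneg K σ u
  have h2 := bump_nonneg K σ v
  have h3 := bump_le_one K hK hKp σ v
  have h4 : 0 ≤ 4 / (K * σ ^ 2) := by positivity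
  have h5 : 0 ≤ (if chord (u - v) ≤ 8 * σ then (1 : ℝ) else 0) := by split_ifs <;> norm_num
  by_cases hu : 4 * σ < chord u
  · have := bump_far K hK σ hσ u hu
    nlinarith [mul_nonneg h5 h1, mul_nonneg h4 h1]
  by_cases hv : 4 * σ < chord v
  · have := bump_far K hK σ hσ v hv
    nlinarith [mul_nonneg h5 h1, mul_nonneg h4 h2]
  have : chord (u - v) ≤ 8 * σ := by linarith [chord_sub u v]
  rw [if_pos this]
  nlinarith [mul_nonneg h4 h1, mul_nonneg h4 h2]

variable {ι : Type*} [Fintype ι] [LinearOrder ι]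

theorem gap_of_final (hp : p.Prime) {a0 : ι → ZMod p} {K y Y : ℕ} (hY : 1 ≤ Y) (hK : 1 ≤ K)
    (hKp : K ≤ p) {a : ι → ZMod p} {N : ZMod p → ℝ} {r : ℕ} {W : ℝ} {B : Finset ι} {g : ι → ℕ}
    (hI : Inv a0 K y Y a N r W B g) {s Q m : ℕ} {lam : ℝ} {X : Finset ι}
    (hF : Final K Y s a N B g lam Q m X) (hlam : 0 ≤ lam) (n : ℕ) (hn : 1 ≤ n)
    (hι : Fintype.card ι ≤ n) (σ : ℝ) (hσ : 0 < σ) (hσp : 2 ≤ σ * p) (G : ℕ) (hG1 : 1 ≤ G)
    (hGK : G ≤ K) (hGp : G < p) (hQ1 : 1 ≤ Q) (θ H H' μ pm ε : ℝ)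
    (hH : 2 * Real.log (3 * W) ≤ H) (hH' : 0 < H') (hH'Y : H' ≤ σ * Y)
    (hGσ : G * (4 * σ) ≤ 1 / 2) (hQσ : Q * (8 * σ) ≤ 1 / 2) (hε : 4 / (K * σ ^ 2) ≤ ε)
    (hpm : 4 / G + 4 * (1 / Y) + ε ≤ pm) (hpm1 : pm ≤ 1 / 2) (hμ : 4 * σ * n ≤ μ)
    (hθ : 0 < θ) (h1 : θ * pm ≤ 1) (h2 : lam * (s + 2) * θ * pm ≤ 1 / 4)
    (h3 : θ ^ 2 * μ * (lam * (s + 2)) * pm ≤ 1)
    (hmain : ε + 3 * W / p + H / H' + 2 * G ^ 2 * σ + 4 * m * σ +
      Real.exp μ * (n * lam * (2 * σ * (4 / Q + 4 * (1 / Y) + 2 * ε))) <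
      (Real.exp (-2 * μ) - 2 * μ * Real.exp (2 * μ) / 2 ^ s -
        Real.exp μ * (lam * s * pm + 6 * lam * (s + θ * μ) / θ ^ 2) -
        6 * n ^ (s + 1) * 2 ^ (s + 1) * ((s + 2) * (K : ℝ) ^ (s + 3) * (2 * H + 1) / Y)) / 2) :
    ∃ c : ZMod p, c ≠ 0 ∧ ∃ t : ZMod p, ∀ i, σ < chord (a0 i * c - t) := by
  classical
  have : Fact p.Prime := ⟨hp⟩
  by_contra hcon
  have hno : ∀ c : ZMod p, c ≠ 0 → ∀ t, ∃ i, chord (a i * c - t) ≤ σ := by
    intro c hc t
    obtain ⟨m0, hm0, hm⟩ := hI.dil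
    push Not at hcon
    obtain ⟨i, hi⟩ := hcon (m0 * c) (mul_ne_zero hm0 hc) t
    refine ⟨i, ?_⟩
    have e : a i * c - t = a0 i * (m0 * c) - t := by rw [hm]; ring
    rw [e]
    exact hi
  have hp0 : (0 : ℝ) < p := Nat.cast_pos.mpr (NeZero.pos p)
  have hW0 : 0 < W := zero_lt_one.trans_le hI.one_le
  have hY0 : (0 : ℝ) < Y := by exact_mod_cast hY
  have hK0 : (1 : ℝ) ≤ K := by exact_mod_cast hK
  have hn0 : (1 : ℝ) ≤ n := by exact_mod_cast hn
  have hG0 : (1 : ℝ) ≤ G := by exact_mod_cast hG1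
  have hε0 : 0 ≤ ε := le_trans (by positivity) hε
  have hpm0 : 0 ≤ pm := le_trans (by positivity) hpm
  have hμ0 : 0 < μ := lt_of_lt_of_le (by positivity) hμ
  set ν := gibbs N with hν
  have hν0 : ∀ c, 0 ≤ ν c := gibbs_nonneg N
  have hν1 : ∑ c, ν c = 1 := sum_gibbs N
  have hEN : ∑ c, ν c * N c ≤ H := (mean_norm_le hI.norm hW0 hI.dim).trans hH
  have hH0 : 0 ≤ H := le_trans (sum_nonneg fun c _ => mul_nonneg (hν0 c) (hI.norm.nonneg c)) hEN
  set Γ := (B \ X).filter (fun i => g i = 0 ∨ G < g i) with hΓ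
  have hΓBX : Γ ⊆ B \ X := filter_subset _ _
  have hΓn : (Γ.card : ℝ) ≤ n := by exact_mod_cast (card_le_univ _).trans hι
  set R := SRel ν a g K Y s with hR
  set f : ZMod p → ι → ZMod p → ℝ := fun t i c => bump K σ (a i * c - t) with hf
  have hf01 : ∀ t i c, 0 ≤ f t i c ∧ f t i c ≤ 1 := fun t i c =>
    ⟨bump_nonneg _ _ _, bump_le_one K hK hKp σ _⟩
  have H2 : ∀ T ⊆ Γ, ((aff R Γ T).card : ℝ) ≤ lam * T.card := by
    intro T hT
    refine le_trans ?_ (hF.sparse T (hT.trans (hΓBX.trans sdiff_subset)))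
    have : aff R Γ T ⊆ aff R B T \ X := by
      intro l hl
      obtain ⟨h4, h5⟩ := mem_aff.mp hl
      have h6 := mem_sdiff.mp (hΓBX h4)
      exact mem_sdiff.mpr ⟨mem_aff.mpr ⟨h6.1, h5⟩, h6.2⟩
    exact_mod_cast card_le_card this
  have hsingle : ∀ i ∈ Γ, ¬ IsRel ν a g K Y {i} := by
    intro l hl hRl
    clear * - H2 hl hRl
    have h := H2 ∅ (empty_subset _)
    have h4 : l ∈ aff R Γ ∅ := mem_aff.mpr ⟨hl, {l}, by simp, by simp, by simp, hRl⟩
    have h5 : 0 < (aff R Γ ∅).card := card_pos.mpr ⟨l, h4⟩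
    have h6 : (0 : ℝ) < (aff R Γ ∅).card := by exact_mod_cast h5
    simp only [card_empty, Nat.cast_zero, mul_zero] at h
    linarith only [h6, h]
  have hpr : ∀ t, ∀ i ∈ Γ, ∑ c, ν c * f t i c ≤ pm := by
    clear * - p ι Γ ν a σ G Y hν0 hν1 hG1 hY0 hGσ hsingle K g hGK B X this f ε hε0 hf01 hK hσ hε pm
      hpm
    intro t i hi
    clear * - hi hν0 hν1 hG1 hσ hY0 hGσ hsingle hGK hf01 hK hε hpm hε0
    have h4 := prob_close_le ν hν0 hν1 (a i) t G hG1 (1 / Y) (4 * σ) (by positivity) hGσ (by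
      intro k hk0 hkG
      by_contra h
      refine hsingle i hi ⟨fun _ => k, ?_, by simpa using not_le.mp h⟩
      intro j hj
      rw [mem_singleton.mp hj]
      have hkK : |(k : ℤ)| ≤ K := by
        rw [abs_of_nonneg (Nat.cast_nonneg _)]; exact_mod_cast hkG.le.trans hGK
      refine ⟨hkK, ?_⟩
      show ¬ (g i : ℤ) ∣ (k : ℤ)
      rw [Int.natCast_dvd_natCast]
      intro hd
      have := Nat.le_of_dvd hk0 hd
      rcases (mem_filter.mp hi).2 with h5 | h5
      · rw [h5, zero_dvd_iff] at hd; omega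
      · omega)
    have h5 : ∀ c, ν c * f t i c ≤
        ν c * (if chord (a i * c - t) ≤ 4 * σ then 1 else 0) + ε * ν c := by
      intro c
      rw [mul_comm ε, ← mul_add]
      refine mul_le_mul_of_nonneg_left ?_ (hν0 c)
      split_ifs with h
      · linarith only [hε0, hf01, (hf01 t i c).2]
      · rw [zero_add]
        exact (bump_far K hK σ hσ _ (not_le.mp h)).trans hε
    refine (sum_le_sum fun c _ => h5 c).trans ?_
    rw [sum_add_distrib, ← mul_sum, hν1]
    linarith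
  set η : ℝ := (s + 2) * (K : ℝ) ^ (s + 3) * (2 * H + 1) / Y with hη
  set P := (Γ ×ˢ Γ).filter (fun e => e.1 ≠ e.2 ∧ R {e.1, e.2}) with hP
  set c1 := Real.exp (-2 * μ) - 2 * μ * Real.exp (2 * μ) / 2 ^ s -
        Real.exp μ * (lam * s * pm + 6 * lam * (s + θ * μ) / θ ^ 2) -
        6 * n ^ (s + 1) * 2 ^ (s + 1) * η with hc1
  set A : ZMod p → ℝ := fun t => ∑ c, ν c * ∏ i ∈ Γ, (1 - f t i c) with hA
  set Pr : ZMod p → ℝ := fun t => ∑ e ∈ P, ∑ c, ν c * (f t e.1 c * f t e.2 c) with hPr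
  have hA0 : ∀ t, 0 ≤ A t := fun t => sum_nonneg fun c _ =>
    mul_nonneg (hν0 c) (prod_nonneg fun i _ => sub_nonneg.mpr (hf01 t i c).2)
  have hPr0 : ∀ t, 0 ≤ Pr t := fun t => sum_nonneg fun e _ => sum_nonneg fun c _ =>
    mul_nonneg (hν0 c) (mul_nonneg (hf01 t _ c).1 (hf01 t _ c).1)
  have hlow : ∀ t, ∑ i ∈ Γ, ∑ c, ν c * f t i c ≤ μ → c1 - Real.exp μ * Pr t ≤ A t := by
    clear * - p ι Γ ν f μ s lam pm θ R n η hν0 hν1 hf01 K H Y hK hH0 hY hlam hn0 hΓn a g σ N a0 y r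
      W B hI hEN hKp hsingle Q G hK0 hη H2 hpr hpm0 hpm1 hθ h1 h2 h3 Pr c1 A hc1 this
    intro t ht
    have h4 := comb_main ν hν0 hν1 Γ (f t) (hf01 t) R s lam η pm μ θ n
      (fun i => ∑ c, ν c * f t i c) (fun _ => rfl) (by positivity) hlam hn0 hΓn (by
        intro U hU _ hc hRU
        have h5 : ¬ IsRel ν a g K Y U := fun h => hRU ⟨hc, h⟩
        refine (centered_small ν hν0 hν1 N hI.norm.nonneg H hEN a g K Y hK hKp hY hI.ord σ t U h5
          fun i hi => hsingle i (hU hi)).trans ?_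
        have h6 : (U.card : ℝ) + 1 ≤ s + 2 := by
          have : U.card + 1 ≤ s + 2 := by omega
          exact_mod_cast this
        have h7 : (K : ℝ) ^ (U.card + 2) ≤ K ^ (s + 3) := pow_le_pow_right₀ hK0 (by omega)
        rw [hη]
        clear * - ι U K H s Y h6 h7 hK hH0 hY H2 h1 h2 h3 hpm0 hpm1 hpr ht hθ t; gcongr) H2 (hpr t) hpm0 hpm1 ht hθ h1 h2 h3
    have e : ∑ e ∈ (Γ ×ˢ Γ).filter (fun e => e.1 ≠ e.2 ∧ R {e.1, e.2}),
        ∑ c, ν c * (f t e.1 c * f t e.2 c) = Pr t := rfl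
    rw [e] at h4
    rw [hc1]
    linarith only [h4]
  have hsumf : ∀ u : ZMod p, ∑ t, bump K σ (u - t) ≤ 2 * σ * p :=
    fun u => sum_bump K hK hKp σ hσ hσp u
  -- Markov inequality for the total mass
  set Tg := univ.filter (fun t : ZMod p => ∑ i ∈ Γ, ∑ c, ν c * f t i c ≤ μ) with hTg
  have hTgcard : (p : ℝ) / 2 ≤ Tg.card := by
    clear * - hsumf hν0 hν1 hΓn hσ hp0 hf01 hμ hμ0
    have h4 : ∑ t, ∑ i ∈ Γ, ∑ c, ν c * f t i c ≤ n * (2 * σ * p) := by
      rw [sum_comm]
      have : ∀ i ∈ Γ, ∑ t, ∑ c, ν c * f t i c ≤ 2 * σ * p := by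
        intro i _
        rw [sum_comm]
        calc _ ≤ ∑ c, ν c * (2 * σ * p) := sum_le_sum fun c _ => by
              rw [← mul_sum]; exact mul_le_mul_of_nonneg_left (hsumf _) (hν0 c)
          _ = _ := by rw [← sum_mul, hν1, one_mul]
      refine (sum_le_sum this).trans ?_
      rw [sum_const, nsmul_eq_mul]
      gcongr
    have h5 : ((univ.filter (fun t : ZMod p => ¬ ∑ i ∈ Γ, ∑ c, ν c * f t i c ≤ μ)).card : ℝ) * μ ≤
        ∑ t, ∑ i ∈ Γ, ∑ c, ν c * f t i c := by
      rw [← nsmul_eq_mul, ← sum_const]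
      refine le_trans (sum_le_sum fun t ht => (not_le.mp (mem_filter.mp ht).2).le)
        (sum_le_sum_of_subset_of_nonneg (filter_subset _ _) fun t _ _ => ?_)
      exact sum_nonneg fun i _ => sum_nonneg fun c _ => mul_nonneg (hν0 c) (hf01 t i c).1
    have h6 := card_filter_add_card_filter_not (s := (univ : Finset (ZMod p)))
      (fun t : ZMod p => ∑ i ∈ Γ, ∑ c, ν c * f t i c ≤ μ)
    rw [card_univ, ZMod.card] at h6
    have h7 : (Tg.card : ℝ) +
        (univ.filter (fun t : ZMod p => ¬ ∑ i ∈ Γ, ∑ c, ν c * f t i c ≤ μ)).card = p := by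
      exact_mod_cast h6
    have h8 : ((univ.filter (fun t : ZMod p => ¬ ∑ i ∈ Γ, ∑ c, ν c * f t i c ≤ μ)).card : ℝ) ≤
        p / 2 := by
      refine le_of_mul_le_mul_right (h5.trans (h4.trans ?_)) hμ0
      have := mul_le_mul_of_nonneg_right hμ (show 0 ≤ (p : ℝ) / 2 by positivity)
      linarith only [this]
    linarith
  -- the pair term
  have hPrsum : ∑ t, Pr t ≤ p * (n * lam * (2 * σ * (4 / Q + 4 * (1 / Y) + 2 * ε))) := by
    clear * - p Pr n lam σ Q Y ε ι P ν f hPr hp0 hσ hQ1 hY0 hε0 Γ R hP this a hν0 hν1 hQσ K s N B g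
      m X hF hΓBX hK hKp hε hsumf H2 hΓn hlam y
    simp only [hPr]
    clear * - hP hν0 hν1 hQ1 hσ hp0 hY0 hQσ hF hΓBX hK hKp hε hε0 hsumf H2 hΓn hlam
    rw [sum_comm]
    set C : ℝ := p * (2 * σ * (4 / Q + 4 * (1 / Y) + 2 * ε)) with hC
    have hC0 : 0 ≤ C := by positivity
    calc _ ≤ ∑ _y ∈ Γ.sigma (fun i => aff R Γ {i}), C := by
          refine sum_le_sum_of_surj _ _ (fun y => (y.1, y.2)) _ _ (fun _ _ => hC0) ?_
          rintro ⟨i, l⟩ he
          simp only [hP, mem_filter, mem_product] at he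
          obtain ⟨⟨hi, hl⟩, hil, hRil⟩ := he
          refine ⟨⟨i, l⟩, ?_, rfl, ?_⟩
          · rw [mem_sigma]
            exact ⟨hi, mem_aff.mpr ⟨hl, {i, l}, by rw [pair_comm], by simp, hRil⟩⟩
          · have h4 := prob_close_le ν hν0 hν1 (a i - a l) 0 Q hQ1 (1 / Y) (8 * σ) (by positivity)
              hQσ (hF.pairs i (hΓBX hi) l (hΓBX hl) hil)
            rw [sum_comm]
            have h5 : ∀ c, ∑ t, ν c * (f t i c * f t l c) ≤
                2 * σ * p * (ν c * (if chord ((a i - a l) * c - 0) ≤ 8 * σ then 1 else 0)) +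
                  2 * σ * p * (2 * ε) * ν c := by
              intro c
              have h6 : ∀ t, f t i c * f t l c ≤
                  (if chord ((a i - a l) * c - 0) ≤ 8 * σ then 1 else 0) * f t i c +
                    ε * (f t i c + f t l c) := by
                intro t
                have h7 := bump_mul_le K hK hKp σ hσ (a i * c - t) (a l * c - t)
                have e : a i * c - t - (a l * c - t) = (a i - a l) * c - 0 := by ring
                rw [e] at h7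
                refine h7.trans (add_le_add le_rfl (mul_le_mul_of_nonneg_right hε ?_))
                exact add_nonneg (bump_nonneg _ _ _) (bump_nonneg _ _ _)
              rw [← mul_sum]
              have h8 : ∑ t, f t i c * f t l c ≤
                  (if chord ((a i - a l) * c - 0) ≤ 8 * σ then 1 else 0) * (2 * σ * p) +
                    ε * (2 * σ * p + 2 * σ * p) := by
                refine (sum_le_sum fun t _ => h6 t).trans ?_
                rw [sum_add_distrib, ← mul_sum, ← mul_sum, sum_add_distrib]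
                refine add_le_add (mul_le_mul_of_nonneg_left (hsumf _) ?_)
                  (mul_le_mul_of_nonneg_left (add_le_add (hsumf _) (hsumf _)) hε0)
                split_ifs <;> norm_num
              refine (mul_le_mul_of_nonneg_left h8 (hν0 c)).trans (le_of_eq ?_)
              ring
            refine (sum_le_sum fun c _ => h5 c).trans ?_
            rw [sum_add_distrib, ← mul_sum, ← mul_sum, hν1, hC]
            have h9 := mul_le_mul_of_nonneg_left h4 (show 0 ≤ 2 * σ * p by positivity)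
            linarith
      _ ≤ ∑ _i ∈ Γ, lam * C := by
          rw [sum_sigma]
          refine sum_le_sum fun i hi => ?_
          rw [sum_const, nsmul_eq_mul]
          have := H2 {i} (singleton_subset_iff.mpr hi)
          simp only [card_singleton, Nat.cast_one, mul_one] at this
          exact mul_le_mul_of_nonneg_right this hC0
      _ ≤ n * (lam * C) := by
          rw [sum_const, nsmul_eq_mul]
          exact mul_le_mul_of_nonneg_right hΓn (by positivity)
      _ = _ := by rw [hC]; ring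
  -- the upper bound
  have hpoint : ∀ c t, ∏ i ∈ Γ, (1 - f t i c) ≤ ε + (if c = 0 then 1 else 0) + N c / H' +
      ∑ k ∈ Icc 1 G, (if chord ((k : ZMod p) * t) ≤ 3 * G * σ then (1 : ℝ) else 0) +
      ∑ b ∈ X, (if chord (a b * c - t) ≤ 2 * σ then (1 : ℝ) else 0) := by
    clear * - p ι Γ f hf01 this N H' a0 K y Y a r W B g hI hH' G σ X ε hε0 hH'Y hY0 hno hK hKp hσ hε
      hf hΓ hG0
    intro c t
    clear * - hf01 hI hH' hY0 hH'Y hno hK hKp hσ hε hf hΓ hG0 hε0
    have h4 : ∏ i ∈ Γ, (1 - f t i c) ≤ 1 :=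
      prod_le_one (fun i _ => sub_nonneg.mpr (hf01 t i c).2) fun i _ => by
        linarith only [hf01, (hf01 t i c).1]
    have i1 : 0 ≤ (if c = 0 then (1 : ℝ) else 0) := by split_ifs <;> norm_num
    have i2 : 0 ≤ N c / H' := div_nonneg (hI.norm.nonneg c) hH'.le
    have i3 : 0 ≤ ∑ k ∈ Icc 1 G,
        (if chord ((k : ZMod p) * t) ≤ 3 * G * σ then (1 : ℝ) else 0) :=
      sum_nonneg fun k _ => by split_ifs <;> norm_num
    have i4 : 0 ≤ ∑ b ∈ X, (if chord (a b * c - t) ≤ 2 * σ then (1 : ℝ) else 0) :=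
      sum_nonneg fun k _ => by split_ifs <;> norm_num
    by_cases hc : c = 0
    · rw [if_pos hc]; linarith
    by_cases hNc : H' < N c
    · have : 1 ≤ N c / H' := by rw [le_div_iff₀ hH']; linarith only [hNc]
      linarith
    push Not at hNc
    have hsmall : ∀ ξ : ZMod p, Y * chord ξ ≤ N c → chord ξ ≤ σ := by
      intro ξ h
      refine le_of_mul_le_mul_left ?_ hY0
      linarith
    obtain ⟨i, hi⟩ := hno c hc t
    obtain ⟨b, hb, hrep⟩ := hI.rep i
    have h5 : chord (a b * c - t) ≤ 2 * σ := by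
      have e : a b * c - t = (a i * c - t) - (a i - a b) * c := by ring
      rw [e]
      linarith [chord_sub (a i * c - t) ((a i - a b) * c), hsmall _ (hrep c)]
    by_cases hbX : b ∈ X
    · have : (1 : ℝ) ≤ ∑ b ∈ X, (if chord (a b * c - t) ≤ 2 * σ then (1 : ℝ) else 0) := by
        refine le_trans ?_ (single_le_sum (f := fun b =>
          if chord (a b * c - t) ≤ 2 * σ then (1 : ℝ) else 0)
          (fun k _ => by split_ifs <;> norm_num) hbX)
        simp only [if_pos h5, le_refl]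
      linarith
    by_cases hbΓ : b ∈ Γ
    · have h6 : ∏ i ∈ Γ, (1 - f t i c) ≤ 1 - f t b c := by
        rw [← mul_prod_erase Γ _ hbΓ]
        refine mul_le_of_le_one_right (sub_nonneg.mpr (hf01 t b c).2) ?_
        exact prod_le_one (fun i _ => sub_nonneg.mpr (hf01 t i c).2) fun i _ => by
          linarith only [hf01, (hf01 t i c).1]
      have h7 := (bump_near K hK hKp σ hσ _ h5).trans hε
      simp only [hf] at h6 ⊢
      linarith
    · have h6 : g b ∈ Icc 1 G := by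
        rw [hΓ, mem_filter, mem_sdiff] at hbΓ
        rw [mem_Icc]
        by_contra h
        exact hbΓ ⟨⟨hb, hbX⟩, by omega⟩
      have h7 : chord ((g b : ZMod p) * t) ≤ 3 * G * σ := by
        have e : (g b : ZMod p) * t = (g b : ZMod p) * a b * c - (g b : ZMod p) * (a b * c - t) := by
          ring
        rw [e]
        have h8 : (g b : ℝ) ≤ G := by exact_mod_cast (mem_Icc.mp h6).2
        have h9 := (chord_nat_mul (g b) (a b * c - t)).trans
          (mul_le_mul h8 h5 (chord_nonneg _) (by linarith only [hG0]))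
        have h10 : σ ≤ G * σ := le_mul_of_one_le_left hσ.le hG0
        linarith [chord_sub ((g b : ZMod p) * a b * c) ((g b : ZMod p) * (a b * c - t)),
          hsmall _ (hI.ord b c)]
      have : (1 : ℝ) ≤ ∑ k ∈ Icc 1 G,
          (if chord ((k : ZMod p) * t) ≤ 3 * G * σ then (1 : ℝ) else 0) := by
        refine le_trans ?_ (single_le_sum (f := fun k : ℕ =>
          if chord ((k : ZMod p) * t) ≤ 3 * G * σ then (1 : ℝ) else 0)
          (fun k _ => by split_ifs <;> norm_num) h6)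
        simp only [if_pos h7, le_refl]
      linarith
  have hup : ∑ t, A t ≤ p * (ε + 3 * W / p + H / H' + 2 * G ^ 2 * σ + 4 * m * σ) := by
    clear * - p A ε W H H' G σ m ν ι Γ f hA this N hp hGp hG0 hσ hp0 hσp X a K Y s B g lam Q hF
      hpoint hν0 hν1 a0 y r hI hW0 hEN hH' hν
    simp only [hA]
    clear * - hp hGp hσ hσp hG0 hp0 hF hpoint hν0 hν1 hI hW0 hEN hH' hν
    rw [sum_comm]
    have h4 : ∀ c, ∑ t, ν c * ∏ i ∈ Γ, (1 - f t i c) ≤
        p * (ε + 2 * G ^ 2 * σ + 4 * m * σ) * ν c + p * (if c = 0 then ν c else 0) +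
          p / H' * (ν c * N c) := by
      intro c
      rw [← mul_sum]
      have h5 : ∑ t : ZMod p, ∑ k ∈ Icc 1 G,
          (if chord ((k : ZMod p) * t) ≤ 3 * G * σ then (1 : ℝ) else 0) ≤ p * (2 * G ^ 2 * σ) := by
        rw [sum_comm]
        have : ∀ k ∈ Icc 1 G, ∑ t : ZMod p,
            (if chord ((k : ZMod p) * t) ≤ 3 * G * σ then (1 : ℝ) else 0) ≤ 2 * G * σ * p := by
          intro k hk
          rw [mem_Icc] at hk
          refine (sum_ind_mul hp k hk.1 (by omega) _ (by positivity)).trans ?_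
          have : σ * p ≤ G * (σ * p) := le_mul_of_one_le_left (by positivity) hG0
          linarith only [hσp, this]
        refine (sum_le_sum this).trans (le_of_eq ?_)
        rw [sum_const, nsmul_eq_mul, Nat.card_Icc]
        simp; ring
      have h6 : ∑ t : ZMod p, ∑ b ∈ X,
          (if chord (a b * c - t) ≤ 2 * σ then (1 : ℝ) else 0) ≤ p * (4 * m * σ) := by
        rw [sum_comm]
        have : ∀ b ∈ X, ∑ t : ZMod p,
            (if chord (a b * c - t) ≤ 2 * σ then (1 : ℝ) else 0) ≤ 2 * σ * p := by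
          intro b _
          refine (sum_ind_shift _ _ (by positivity)).trans ?_
          linarith only [hσp]
        refine (sum_le_sum this).trans ?_
        rw [sum_const, nsmul_eq_mul]
        have h7 : (X.card : ℝ) ≤ 2 * m := by exact_mod_cast hF.card
        calc _ ≤ 2 * m * (2 * σ * p) := by gcongr
          _ = _ := by ring
      have h7 := sum_le_sum fun t (_ : t ∈ univ) => hpoint c t
      rw [sum_add_distrib, sum_add_distrib, sum_const, card_univ, ZMod.card, nsmul_eq_mul] at h7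
      have h8 := mul_le_mul_of_nonneg_left
        (h7.trans (add_le_add (add_le_add le_rfl h5) h6)) (hν0 c)
      refine h8.trans (le_of_eq ?_)
      split_ifs <;> ring
    refine (sum_le_sum fun c _ => h4 c).trans ?_
    rw [sum_add_distrib, sum_add_distrib, ← mul_sum, ← mul_sum, ← mul_sum, hν1, sum_ite_eq']
    simp only [mem_univ, if_true]
    have h5 := mul_le_mul_of_nonneg_left (gibbs_le hI.norm hW0.le hI.dim 0) hp0.le
    have h6 := mul_le_mul_of_nonneg_left hEN (show 0 ≤ p / H' by positivity)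
    have e : (p : ℝ) / H' * H = p * (H / H') := by ring
    rw [e] at h6
    linarith
  -- conclusion
  have hc10 : 0 ≤ c1 := by
    clear * - ε W p H H' G σ m μ n lam Q Y hε0 hW0 hp0 hH0 hH' hG1 hσ hn hlam hQ1 hY c1 s pm θ η K
      hmain this
    have : 0 ≤ ε + 3 * W / p + H / H' + 2 * G ^ 2 * σ + 4 * m * σ +
      Real.exp μ * (n * lam * (2 * σ * (4 / Q + 4 * (1 / Y) + 2 * ε))) := by positivity
    linarith only [this, hmain]
  have hlow2 : p / 2 * c1 - Real.exp μ * ∑ t, Pr t ≤ ∑ t, A t := by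
    clear * - p c1 μ Pr Tg A hPr0 hTgcard hc10 s lam pm θ n η K H Y hlow ι Γ ν f hA0
    calc p / 2 * c1 - Real.exp μ * ∑ t, Pr t ≤ Tg.card * c1 - Real.exp μ * ∑ t ∈ Tg, Pr t := by
          have h4 : ∑ t ∈ Tg, Pr t ≤ ∑ t, Pr t :=
            sum_le_sum_of_subset_of_nonneg (subset_univ _) fun t _ _ => hPr0 t
          have h5 := mul_le_mul_of_nonneg_left h4 (Real.exp_pos μ).le
          have h6 := mul_le_mul_of_nonneg_right hTgcard hc10
          linarith only [h5, h6]
      _ = ∑ t ∈ Tg, (c1 - Real.exp μ * Pr t) := by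
          rw [sum_sub_distrib, sum_const, nsmul_eq_mul, mul_sum]
      _ ≤ ∑ t ∈ Tg, A t := sum_le_sum fun t ht => hlow t (mem_filter.mp ht).2
      _ ≤ _ := sum_le_sum_of_subset_of_nonneg (subset_univ _) fun t _ _ => hA0 t
  have h9 := mul_le_mul_of_nonneg_left hPrsum (Real.exp_pos μ).le
  have h10 := mul_lt_mul_of_pos_left hmain hp0
  clear * - μ p Pr n lam σ Q Y ε W H H' G m s pm θ η A K h9 c1 h10 hlow2 hup; linarith only [h9, h10, hlow2, hup]

end Pool.Agent.Work.MP_c4c804_co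
end
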